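import Pool.Agent.Helper669.Forcing

/-!
# The strong countable fan tightness game, in the ground model and in the extension

Sentences of the forcing language are sets of conditions (see `Helper669.Forcing`). A name for a
subset of a ground model set `Y` is a map `Y → Set P`, the sentence `y ∈ A` is `meets (A y)`.
-/

namespace Pool.Agent.L0h78.Fan

open Pool.Agent.Helper669.Forcing
open Set

universe u v

/-! ### The game in the ground model -/

/-- II has a winning strategy in the strong countable fan tightness game at the point `y`: in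
round `n`, I plays a set `A n` with `y` in its closure and II answers with a point of `A n`; II
wins if `y` is in the closure of the set of the answers. The value `σ n A` is the answer in
round `n` when I has played `A 0, …, A n`. -/
def IIWins {Y : Type v} [TopologicalSpace Y] (y : Y) : Prop :=
  ∃ σ : (n : ℕ) → (Fin (n + 1) → Set Y) → Y,
    (∀ (n : ℕ) (A : Fin (n + 1) → Set Y), (∀ i, y ∈ closure (A i)) →
      σ n A ∈ A (Fin.last n)) ∧
    ∀ A : ℕ → Set Y, (∀ n, y ∈ closure (A n)) → y ∈ closure {z | ∃ n, z = σ n (fun i => A i)}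

/-! ### The game in the extension -/

section

variable {P : Type u} [Preorder P] {Y : Type v}

/-- The named subsets `A` and `B` of `Y` are equal. -/
def fSame (A B : Y → Set P) : Set P :=
  fall fun z => fand (fimp (meets (A z)) (meets (B z))) (fimp (meets (B z)) (meets (A z)))

/-- The named subset `A` of `Y` is contained in `B`. -/
def fSub (A B : Y → Set P) : Set P := fall fun z => fimp (meets (A z)) (meets (B z))

/-- The named subset `A` of `Y` has exactly one element. -/
def fSingle (A : Y → Set P) : Set P :=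
  fand (fex fun z => meets (A z))
    (fall fun z => fall fun z' => fimp (fand (meets (A z)) (meets (A z'))) (fground (z = z')))

variable [TopologicalSpace Y]

/-- The point `y` is in the closure of the named subset `A` of `Y`, for the topology of the
extension that has the ground model topology of `Y` as a base: `A` meets all ground model open
sets that contain `y`. -/
def fClosure (y : Y) (A : Y → Set P) : Set P :=
  fall fun U : Set Y => fall fun _ : IsOpen U => fall fun _ : y ∈ U =>
    fex fun z : Y => fex fun _ : z ∈ U => meets (A z)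

/-- `S` names a winning strategy of II in the strong countable fan tightness game at `y`. Here
`S n A` is a name for the singleton of the answer of II in round `n` when I has played the named
sets `A 0, …, A n`; the first clause says that it depends only on the sets played and not on
their names. -/
def fWinning (y : Y) (S : (n : ℕ) → (Fin (n + 1) → Y → Set P) → Y → Set P) : Set P :=
  fand
    (fall fun n => fall fun A : Fin (n + 1) → Y → Set P => fall fun B : Fin (n + 1) → Y → Set P =>
      fimp (fall fun i => fSame (A i) (B i)) (fSame (S n A) (S n B)))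
    (fand
      (fall fun n => fall fun A : Fin (n + 1) → Y → Set P =>
        fimp (fall fun i => fClosure y (A i))
          (fand (fSingle (S n A)) (fSub (S n A) (A (Fin.last n)))))
      (fall fun A : ℕ → Y → Set P =>
        fimp (fall fun n => fClosure y (A n))
          (fClosure y fun z => ⋃ n, S n (fun i => A i) z)))

/-- In the extension, II has a winning strategy in the strong countable fan tightness game at
`y`. -/
def fIIWins (y : Y) : Set P :=
  fex fun S : (n : ℕ) → (Fin (n + 1) → Y → Set P) → Y → Set P => fWinning y S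

end

/-! ### The simulation -/

theorem meets_of_dense {P : Type u} [Preorder P] {N : Set P} {p : P}
    (h : ∀ q ≤ p, ∃ r ≤ q, r ∈ meets N) : p ∈ meets N := by
  intro q hq
  obtain ⟨r, hr, h1⟩ := h q hq
  obtain ⟨r', hr', s, hs, h2⟩ := h1 r le_rfl
  exact ⟨r', hr'.trans hr, s, hs, h2⟩

theorem meets_iff_of_same {P : Type u} [Preorder P] {Y : Type v} {A B : Y → Set P} {q : P}
    (h : q ∈ fSame A B) {r : P} (hr : r ≤ q) (z : Y) : r ∈ meets (A z) ↔ r ∈ meets (B z) := by
  constructor
  · intro h1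
    refine meets_of_dense fun r' hr' => ?_
    exact mem_fimp.1 (h z).1 r' (hr'.trans hr) (down_meets _ _ h1 _ hr')
  · intro h1
    refine meets_of_dense fun r' hr' => ?_
    exact mem_fimp.1 (h z).2 r' (hr'.trans hr) (down_meets _ _ h1 _ hr')

section sim

variable {Y : Type v} [TopologicalSpace Y] (y : Y) (σ : (n : ℕ) → (Fin (n + 1) → Set Y) → Y)

/-- The sequence `t` followed by `B`. -/
def app {n : ℕ} (t : Fin n → Set Y) (B : Set Y) : Fin (n + 1) → Set Y :=
  Fin.snoc (α := fun _ => Set Y) t B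

/-- The possible answers after `t`. -/
def Z (n : ℕ) (t : Fin n → Set Y) : Set Y := {z | ∃ B, y ∈ closure B ∧ σ n (app t B) = z}

open Classical in
/-- A legal move with the answer `z`. -/
noncomputable def mvc (n : ℕ) (t : Fin n → Set Y) (z : Y) : Set Y :=
  if h : z ∈ Z y σ n t then h.choose else univ

theorem mvc_legal (n : ℕ) (t : Fin n → Set Y) (z : Y) : y ∈ closure (mvc y σ n t z) := by
  unfold mvc
  split_ifs with h
  · exact h.choose_spec.1
  · simp

theorem mvc_ans {n : ℕ} {t : Fin n → Set Y} {z : Y} (h : z ∈ Z y σ n t) :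
    σ n (app t (mvc y σ n t z)) = z := by
  unfold mvc
  rw [dif_pos h]
  exact h.choose_spec.2

/-- The moves of the simulated play in which the answers are `zs`. -/
noncomputable def mv (zs : ℕ → Y) (k : ℕ) : Set Y :=
  mvc y σ k (fun i : Fin k => mv zs i) (zs k)
termination_by k
decreasing_by exact i.2

theorem mv_congr {zs zs' : ℕ → Y} {k : ℕ} (h : ∀ j ≤ k, zs j = zs' j) :
    mv y σ zs k = mv y σ zs' k := by
  induction k using Nat.strong_induction_on with
  | _ k ih =>
    have h1 : (fun i : Fin k => mv y σ zs i) = fun i : Fin k => mv y σ zs' i := by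
      funext i
      exact ih i i.2 fun j hj => h j (hj.trans i.2.le)
    rw [mv, mv, h1, h k le_rfl]

theorem mv_legal (zs : ℕ → Y) (k : ℕ) : y ∈ closure (mv y σ zs k) := by
  rw [mv]
  exact mvc_legal y σ _ _ _

/-- The position before round `k`. -/
noncomputable def pos (zs : ℕ → Y) (k : ℕ) : Fin k → Set Y := fun i => mv y σ zs i

theorem pos_congr {zs zs' : ℕ → Y} {k : ℕ} (h : ∀ j < k, zs j = zs' j) :
    pos y σ zs k = pos y σ zs' k := by
  funext i
  exact mv_congr y σ fun j hj => h j (lt_of_le_of_lt hj i.2)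

theorem app_pos (zs : ℕ → Y) (k : ℕ) :
    app (pos y σ zs k) (mv y σ zs k) = fun i : Fin (k + 1) => mv y σ zs i := by
  funext i
  refine Fin.lastCases ?_ (fun j => ?_) i
  · simp [app]
  · simp [app, pos]

theorem ans_pos {zs : ℕ → Y} {k : ℕ} (h : zs k ∈ Z y σ k (pos y σ zs k)) :
    σ k (fun i : Fin (k + 1) => mv y σ zs i) = zs k := by
  rw [← app_pos, mv]
  exact mvc_ans y σ h

variable {P : Type u} [Preorder P]

/-- The conditions forcing that `z` is the least element of the named set `a` that is a possible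
answer after `t`. -/
def Ch (k : ℕ) (t : Fin k → Set Y) (a : Y → Set P) (z : Y) : Set P :=
  {p | z ∈ Z y σ k t ∧ p ∈ meets (a z) ∧
    ∀ z', WellOrderingRel z' z → z' ∈ Z y σ k t → ∀ r ≤ p, r ∉ meets (a z')}

/-- The strategy in the extension. -/
def St (n : ℕ) (A : Fin (n + 1) → Y → Set P) (z : Y) : Set P :=
  {p | ∃ zs : ℕ → Y, zs n = z ∧
    ∀ k (hk : k < n + 1), p ∈ Ch y σ k (pos y σ zs k) (A ⟨k, hk⟩) (zs k)}

variable {y σ}

theorem down_Ch (k : ℕ) (t : Fin k → Set Y) (a : Y → Set P) (z : Y) : Down (Ch y σ k t a z) :=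
  fun _ hp _ hq => ⟨hp.1, down_meets _ _ hp.2.1 _ hq,
    fun z' h1 h2 r hr => hp.2.2 z' h1 h2 r (hr.trans hq)⟩

theorem down_St (n : ℕ) (A : Fin (n + 1) → Y → Set P) (z : Y) : Down (St y σ n A z) := by
  rintro p ⟨zs, h1, h2⟩ q hq
  exact ⟨zs, h1, fun k hk => down_Ch _ _ _ _ p (h2 k hk) q hq⟩

theorem Ch_unique {k : ℕ} {t : Fin k → Set Y} {a : Y → Set P} {z z' : Y} {p : P}
    (h : p ∈ Ch y σ k t a z) (h' : p ∈ Ch y σ k t a z') : z = z' := by
  rcases trichotomous_of (WellOrderingRel (α := Y)) z z' with h1 | h1 | h1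
  · exact absurd h.2.1 (h'.2.2 z h1 h.1 p le_rfl)
  · exact h1
  · exact absurd h'.2.1 (h.2.2 z' h1 h'.1 p le_rfl)

theorem run_unique {n : ℕ} {A : Fin (n + 1) → Y → Set P} {zs zs' : ℕ → Y} {p : P}
    (h : ∀ k (hk : k < n + 1), p ∈ Ch y σ k (pos y σ zs k) (A ⟨k, hk⟩) (zs k))
    (h' : ∀ k (hk : k < n + 1), p ∈ Ch y σ k (pos y σ zs' k) (A ⟨k, hk⟩) (zs' k)) :
    ∀ k < n + 1, zs k = zs' k := by
  intro k
  induction k using Nat.strong_induction_on with
  | _ k ih =>
    intro hk
    have h1 : pos y σ zs k = pos y σ zs' k := pos_congr y σ fun j hj => ih j hj (hj.trans hk)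
    have h2 := h k hk
    rw [h1] at h2
    exact Ch_unique h2 (h' k hk)

/-- Every legal move in the extension contains a possible answer. -/
theorem exists_Ch (hσ : ∀ (n : ℕ) (A : Fin (n + 1) → Set Y), (∀ i, y ∈ closure (A i)) →
      σ n A ∈ A (Fin.last n)) {k : ℕ} {t : Fin k → Set Y} (ht : ∀ i, y ∈ closure (t i))
    {a : Y → Set P} {r : P} (hr : r ∈ fClosure y a) : ∃ r' ≤ r, ∃ z, r' ∈ Ch y σ k t a z := by
  have h1 : ∃ z, z ∈ Z y σ k t ∧ ∃ r1 ≤ r, r1 ∈ meets (a z) := by
    by_contra hcon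
    push Not at hcon
    have h2 : y ∈ closure (Z y σ k t)ᶜ := by
      rw [mem_closure_iff]
      intro U hU hy
      obtain ⟨r1, hr1, z, h3⟩ := mem_fex.1 (hr U hU hy) r le_rfl
      obtain ⟨r2, hr2, hz, h4⟩ := mem_fex.1 h3 r1 le_rfl
      exact ⟨z, hz, fun h5 => hcon z h5 r2 (hr2.trans hr1) h4⟩
    have h3 := hσ k (app t (Z y σ k t)ᶜ) (by
      intro i
      refine Fin.lastCases ?_ (fun j => ?_) i
      · simpa [app] using h2
      · simpa [app] using ht j)
    have h4 : app t (Z y σ k t)ᶜ (Fin.last k) = (Z y σ k t)ᶜ := by simp [app]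
    rw [h4] at h3
    exact h3 ⟨_, h2, rfl⟩
  obtain ⟨z, ⟨hz, r1, hr1, h2⟩, hmin⟩ := WellFounded.has_min
    (IsWellFounded.wf (r := WellOrderingRel (α := Y)))
    {z | z ∈ Z y σ k t ∧ ∃ r1 ≤ r, r1 ∈ meets (a z)} h1
  exact ⟨r1, hr1, z, hz, h2, fun z' h3 h4 r' hr' h5 => hmin z' ⟨h4, r', hr'.trans hr1, h5⟩ h3⟩

theorem exists_run (hσ : ∀ (n : ℕ) (A : Fin (n + 1) → Set Y), (∀ i, y ∈ closure (A i)) →
      σ n A ∈ A (Fin.last n)) (A : ℕ → Y → Set P) {q : P} (n : ℕ)
    (hA : ∀ k < n, q ∈ fClosure y (A k)) :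
    ∃ r ≤ q, ∃ zs : ℕ → Y, ∀ k < n, r ∈ Ch y σ k (pos y σ zs k) (A k) (zs k) := by
  induction n with
  | zero => exact ⟨q, le_rfl, fun _ => y, by simp⟩
  | succ n ih =>
    obtain ⟨r, hr, zs, h1⟩ := ih fun k hk => hA k (by omega)
    have hd : Down (fClosure y (A n)) :=
      down_fall fun _ => down_fall fun _ => down_fall fun _ => down_fex _
    obtain ⟨r', hr', z, h2⟩ := exists_Ch hσ (t := pos y σ zs n) (fun i => mv_legal y σ zs i)
      (hd _ (hA n (Nat.lt_succ_self n)) _ hr)
    have h3 : ∀ k ≤ n, pos y σ (Function.update zs n z) k = pos y σ zs k := fun k hk =>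
      pos_congr y σ fun j hj => Function.update_of_ne (by omega) _ _
    refine ⟨r', hr'.trans hr, Function.update zs n z, fun k hk => ?_⟩
    rw [h3 k (by omega)]
    rcases Nat.lt_succ_iff_lt_or_eq.1 hk with hk | rfl
    · rw [Function.update_of_ne (by omega)]
      exact down_Ch _ _ _ _ r (h1 k hk) _ hr'
    · rw [Function.update_self]
      exact h2

/-- A winning strategy of II in the ground model gives rise to one in the extension. -/
theorem wins {y : Y} (h : IIWins y) (p : P) : p ∈ fIIWins (P := P) y := by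
  obtain ⟨σ, hσ, hwin⟩ := h
  have hd : ∀ a : Y → Set P, Down (fClosure y a) := fun a =>
    down_fall fun _ => down_fall fun _ => down_fall fun _ => down_fex _
  have hdw : ∀ S : (n : ℕ) → (Fin (n + 1) → Y → Set P) → Y → Set P, Down (fWinning y S) :=
    fun S => down_fand (down_fall fun _ => down_fall fun _ => down_fall fun _ => down_fimp _ _)
      (down_fand (down_fall fun _ => down_fall fun _ => down_fimp _ _)
        (down_fall fun _ => down_fimp _ _))
  refine mem_fex_of_mem (St y σ) (hdw _) ⟨?_, ?_, ?_⟩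
  · -- the answer depends only on the sets
    intro n A B
    refine mem_fimp.2 fun q _ hAB => ⟨q, le_rfl, fun z => ?_⟩
    have key : ∀ r ≤ q, r ∈ St y σ n A z ↔ r ∈ St y σ n B z := by
      intro r hr
      have h1 : ∀ k (hk : k < n + 1) t z, r ∈ Ch y σ k t (A ⟨k, hk⟩) z ↔
          r ∈ Ch y σ k t (B ⟨k, hk⟩) z := by
        intro k hk t z
        have h2 : ∀ r' ≤ q, ∀ z, r' ∈ meets (A ⟨k, hk⟩ z) ↔ r' ∈ meets (B ⟨k, hk⟩ z) :=
          fun r' hr' z => meets_iff_of_same (hAB ⟨k, hk⟩) hr' z
        constructor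
        · rintro ⟨h3, h4, h5⟩
          exact ⟨h3, (h2 r hr z).1 h4, fun z' h6 h7 r' hr' h8 =>
            h5 z' h6 h7 r' hr' ((h2 r' (hr'.trans hr) z').2 h8)⟩
        · rintro ⟨h3, h4, h5⟩
          exact ⟨h3, (h2 r hr z).2 h4, fun z' h6 h7 r' hr' h8 =>
            h5 z' h6 h7 r' hr' ((h2 r' (hr'.trans hr) z').1 h8)⟩
      constructor
      · rintro ⟨zs, h2, h3⟩
        exact ⟨zs, h2, fun k hk => (h1 k hk _ _).1 (h3 k hk)⟩
      · rintro ⟨zs, h2, h3⟩
        exact ⟨zs, h2, fun k hk => (h1 k hk _ _).2 (h3 k hk)⟩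
    refine ⟨mem_fimp.2 fun r hr h1 => ⟨r, le_rfl, ?_⟩, mem_fimp.2 fun r hr h1 => ⟨r, le_rfl, ?_⟩⟩
    · refine meets_of_dense fun r' hr' => ?_
      obtain ⟨r2, hr2, h2⟩ := exists_of_meets (down_St n A z) (down_meets _ _ h1 _ hr')
      exact ⟨r2, hr2, meets_of_mem ((key r2 (hr2.trans (hr'.trans hr))).1 h2)⟩
    · refine meets_of_dense fun r' hr' => ?_
      obtain ⟨r2, hr2, h2⟩ := exists_of_meets (down_St n B z) (down_meets _ _ h1 _ hr')
      exact ⟨r2, hr2, meets_of_mem ((key r2 (hr2.trans (hr'.trans hr))).2 h2)⟩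
  · -- the answers are legal
    intro n A
    refine mem_fimp.2 fun q _ hA => ⟨q, le_rfl, ⟨mem_fex.2 fun r hr => ?_, ?_⟩, ?_⟩
    · -- there is an answer
      let A' : ℕ → Y → Set P := fun k => if hk : k < n + 1 then A ⟨k, hk⟩ else A 0
      have hA' : ∀ k (hk : k < n + 1), A' k = A ⟨k, hk⟩ := fun k hk => dif_pos hk
      obtain ⟨r', hr', zs, h1⟩ := exists_run hσ A' (q := r) (n + 1) fun k hk => by
        rw [hA' k hk]
        exact hd _ _ (hA ⟨k, hk⟩) _ hr
      refine ⟨r', hr', zs n, meets_of_mem ⟨zs, rfl, fun k hk => ?_⟩⟩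
      have := h1 k hk
      rwa [hA' k hk] at this
    · intro z z'
      refine mem_fimp.2 fun r _ h1 => ?_
      obtain ⟨r1, hr1, h2⟩ := exists_of_meets (down_St n A z) h1.1
      obtain ⟨r2, hr2, h3⟩ := exists_of_meets (down_St n A z') (down_meets _ _ h1.2 _ hr1)
      obtain ⟨zs, h4, h5⟩ := down_St n A z _ h2 _ hr2
      obtain ⟨zs', h6, h7⟩ := h3
      refine ⟨r2, hr2.trans hr1, ?_⟩
      rw [mem_fground, ← h4, ← h6]
      exact run_unique h5 h7 n (Nat.lt_succ_self n)
    · intro z
      refine mem_fimp.2 fun r _ h1 => ?_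
      obtain ⟨r1, hr1, zs, h2, h3⟩ := exists_of_meets (down_St n A z) h1
      refine ⟨r1, hr1, ?_⟩
      have h4 := (h3 n (Nat.lt_succ_self n)).2.1
      rw [h2] at h4
      exact h4
  · -- II wins
    intro A
    refine mem_fimp.2 fun q _ hA => ⟨q, le_rfl, fun U hU hy => mem_fex.2 fun q' hq' => ?_⟩
    by_contra hcon
    push Not at hcon
    -- the construction of the play
    have hstep : ∀ (n : ℕ) (s : {s : P × (ℕ → Y) // s.1 ≤ q' ∧
        ∀ k < n, s.1 ∈ Ch y σ k (pos y σ s.2 k) (A k) (s.2 k)}),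
        ∃ s' : {s : P × (ℕ → Y) // s.1 ≤ q' ∧
          ∀ k < n + 1, s.1 ∈ Ch y σ k (pos y σ s.2 k) (A k) (s.2 k)},
          ∀ k < n, s'.1.2 k = s.1.2 k := by
      rintro n ⟨⟨r, zs⟩, hr, h1⟩
      obtain ⟨r', hr', z, h2⟩ := exists_Ch hσ (t := pos y σ zs n) (fun i => mv_legal y σ zs i)
        (hd _ _ (hA n) _ (hr.trans hq'))
      have h3 : ∀ k ≤ n, pos y σ (Function.update zs n z) k = pos y σ zs k := fun k hk =>
        pos_congr y σ fun j hj => Function.update_of_ne (by omega) _ _
      refine ⟨⟨⟨r', Function.update zs n z⟩, hr'.trans hr, fun k hk => ?_⟩, fun k hk =>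
        Function.update_of_ne (by omega) _ _⟩
      show r' ∈ Ch y σ k (pos y σ (Function.update zs n z) k) (A k) (Function.update zs n z k)
      rw [h3 k (by omega)]
      rcases Nat.lt_succ_iff_lt_or_eq.1 hk with hk | rfl
      · rw [Function.update_of_ne (by omega)]
        exact down_Ch _ _ _ _ r (h1 k hk) _ hr'
      · rw [Function.update_self]
        exact h2
    choose f hf using hstep
    let s : (n : ℕ) → {s : P × (ℕ → Y) // s.1 ≤ q' ∧
        ∀ k < n, s.1 ∈ Ch y σ k (pos y σ s.2 k) (A k) (s.2 k)} := fun n =>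
      Nat.rec ⟨⟨q', fun _ => y⟩, le_rfl, by simp⟩ (fun n s => f n s) n
    have hs : ∀ n, s (n + 1) = f n (s n) := fun n => rfl
    have h1 : ∀ n k m, k < n → n ≤ m → (s m).1.2 k = (s n).1.2 k := by
      intro n k m hk hnm
      induction m, hnm using Nat.le_induction with
      | base => rfl
      | succ m hm ih =>
        rw [hs, hf m (s m) k (by omega), ih]
    let zs : ℕ → Y := fun n => (s (n + 1)).1.2 n
    have h2 : ∀ n, ∀ k < n, zs k = (s n).1.2 k := fun n k hk =>
      (h1 (k + 1) k n (Nat.lt_succ_self k) hk).symm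
    have h3 : ∀ n, ∀ k < n, (s n).1.1 ∈ Ch y σ k (pos y σ zs k) (A k) (zs k) := by
      intro n k hk
      rw [h2 n k hk, pos_congr y σ (zs := zs) (zs' := (s n).1.2) fun j hj => h2 n j (hj.trans hk)]
      exact (s n).2.2 k hk
    have h4 : ∀ n, zs n ∉ U := by
      intro n hn
      refine hcon (s (n + 1)).1.1 (s (n + 1)).2.1 (zs n) (mem_fex_of_mem hn (down_meets _) ?_)
      have h6 : (s (n + 1)).1.1 ∈ St y σ n (fun i : Fin (n + 1) => A i) (zs n) :=
        ⟨zs, rfl, fun k hk => h3 (n + 1) k hk⟩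
      exact meets_of_mem (mem_iUnion.2 ⟨n, h6⟩)
    have h5 := hwin (mv y σ zs) (mv_legal y σ zs)
    rw [mem_closure_iff] at h5
    obtain ⟨z, hz, n, rfl⟩ := h5 U hU hy
    rw [ans_pos y σ (h3 (n + 1) n (Nat.lt_succ_self n)).1] at hz
    exact h4 n hz

end sim

end Pool.Agent.L0h78.Fan
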