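import Pool.Agent.V11244.CohGame

/-!
# Strongly proper forcing without atoms destroys winning strategies in the Menger game

The argument of `Pool.Agent.V11244.CohCore` (Cohen forcing) is carried out for an arbitrary
forcing `P` that is strongly proper for stationarily many models and has no atoms.
-/

namespace Pool.Agent.L0h78.MengerGen

set_option linter.unusedSectionVars false

open Pool.Agent.Helper669.Forcing
open Pool.Agent.V11244.CohGame
open Set TopologicalSpace

universe u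

/-- The Cantor space. -/
abbrev Can : Type := ℕ → Bool

/-- Every condition has two incompatible extensions. -/
def Atomless (P : Type u) [Preorder P] : Prop :=
  ∀ p : P, ∃ q ≤ p, ∃ r ≤ p, ∀ s ≤ q, ¬ s ≤ r

theorem polish_can : PolishSpace Can :=
  { (inferInstance : SecondCountableTopology Can), (inferInstance : IsCompletelyMetrizableSpace Can)
    with }

/-- A closed set of possible values of a new real is attached to each condition. -/
structure ConeSystem {P : Type u} [Preorder P] (q₀ : P) (cone : P → Set Can) : Prop where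
  closed : ∀ r, IsClosed (cone r)
  nonempty : ∀ r, (cone r).Nonempty
  anti : ∀ s t, s ≤ t → cone s ⊆ cone t
  avoid : ∀ r ≤ q₀, ∀ c, ∃ r' ≤ r, c ∉ cone r'

/-! ### The new real -/

section real

variable {P : Type u} [Preorder P] (g : ℕ → P)

/-- The possible values of the set of all `n` with `g n` in the generic filter. -/
def gcone (r : P) : Set Can :=
  {x | ∀ n : ℕ, ∃ r' ≤ r, ∀ i : Fin n,
    (x i = true → r' ≤ g i) ∧ (x i = false → ∀ t ≤ r', ¬ t ≤ g i)}

theorem isClosed_gcone (r : P) : IsClosed (gcone g r) := by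
  have h1 : gcone g r = ⋂ n : ℕ, (fun (x : Can) (i : Fin n) => x i) ⁻¹'
      {y : Fin n → Bool | ∃ r' ≤ r, ∀ i : Fin n,
        (y i = true → r' ≤ g i) ∧ (y i = false → ∀ t ≤ r', ¬ t ≤ g i)} := by
    ext x
    simp only [gcone, mem_ofPred_eq, mem_iInter, mem_preimage]
  rw [h1]
  refine isClosed_iInter fun n => (isClosed_discrete _).preimage ?_
  exact continuous_pi fun i => continuous_apply _

theorem gcone_anti (s t : P) (h : s ≤ t) : gcone g s ⊆ gcone g t := by
  intro x hx n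
  obtain ⟨r', hr', h1⟩ := hx n
  exact ⟨r', hr'.trans h, h1⟩

open Classical in
/-- Deciding the membership of `g 0, g 1, …` in the generic filter. -/
noncomputable def dseq (r : P) : ℕ → P
  | 0 => r
  | n + 1 => if h : ∃ t : P, t ≤ dseq r n ∧ t ≤ g n then h.choose else dseq r n

theorem gcone_nonempty (r : P) : (gcone g r).Nonempty := by
  classical
  obtain ⟨R, hR0⟩ : ∃ R, R = dseq g r := ⟨_, rfl⟩
  have hR : ∀ n : ℕ, (∃ t : P, t ≤ R n ∧ t ≤ g n) → R (n + 1) ≤ R n ∧ R (n + 1) ≤ g n := by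
    intro n h
    subst hR0
    rw [dseq, dif_pos h]
    exact h.choose_spec
  have h1 : ∀ n, R (n + 1) ≤ R n := by
    intro n
    by_cases h : ∃ t : P, t ≤ R n ∧ t ≤ g n
    · exact (hR n h).1
    · subst hR0
      rw [dseq, dif_neg h]
  have hr0 : R 0 = r := by
    subst hR0
    rfl
  have h2 : ∀ {m n}, m ≤ n → R n ≤ R m := by
    intro m n h
    induction n, h using Nat.le_induction with
    | base => exact le_rfl
    | succ n _ ih => exact (h1 n).trans ih
  refine ⟨fun i => decide (∃ t : P, t ≤ R i ∧ t ≤ g i), fun n =>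
    ⟨R n, (h2 (Nat.zero_le n)).trans hr0.le, fun i => ⟨?_, ?_⟩⟩⟩
  · intro h
    have h3 : ∃ t : P, t ≤ R i ∧ t ≤ g i := by simpa using h
    have h4 : R ((i : ℕ) + 1) ≤ g i := (hR i h3).2
    exact (h2 i.2).trans h4
  · intro h t ht h3
    have h4 : ¬ ∃ t : P, t ≤ R i ∧ t ≤ g i := by simpa using h
    exact h4 ⟨t, ht.trans (h2 i.2.le), h3⟩

end real

/-- Strongly proper forcing without atoms adds a new real. -/
theorem exists_coneSystem {P : Type u} [Preorder P] (hP : StronglyProper P) (hat : Atomless P)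
    (p : P) : ∃ q ≤ p, ∃ cone : P → Set Can, ConeSystem q cone := by
  choose L hL R hR hLR using hat
  obtain ⟨M, hM, hcl, hgen⟩ := hP P id
    (fun l => match l with
      | [] => p
      | [a] => L a
      | a :: _ :: _ => R a) Function.injective_id
  have hp : p ∈ M := hcl [] (by simp)
  have hLM : ∀ a ∈ M, L a ∈ M := fun a ha => hcl [a] (by simpa using ha)
  have hRM : ∀ a ∈ M, R a ∈ M := fun a ha => hcl [a, a] (by simpa using ha)
  obtain ⟨q, hq, hsg⟩ := hgen p hp
  obtain ⟨g, hg⟩ := hM.exists_eq_range ⟨p, hp⟩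
  refine ⟨q, hq, gcone g, isClosed_gcone g, gcone_nonempty g, gcone_anti g, ?_⟩
  intro r hr x
  obtain ⟨r0, hr0, h1⟩ := hsg r hr
  have hr0' : r0 ∈ M := hr0
  obtain ⟨i, hi⟩ : ∃ i, g i = L r0 := by
    have := hLM r0 hr0'
    rwa [hg] at this
  obtain ⟨j, hj⟩ : ∃ j, g j = R r0 := by
    have := hRM r0 hr0'
    rwa [hg] at this
  have key : ∀ k, g k ∈ M → g k ≤ r0 → x k = false → ∃ r' ≤ r, x ∉ gcone g r' := by
    intro k hk hkr hx
    obtain ⟨t, ht, htr⟩ := h1 (g k) hk hkr
    refine ⟨t, htr, fun h2 => ?_⟩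
    obtain ⟨r', hr', h3⟩ := h2 (k + 1)
    exact (h3 ⟨k, Nat.lt_succ_self k⟩).2 hx r' le_rfl (hr'.trans ht)
  cases hxi : x i with
  | false => exact key i (hi ▸ hLM r0 hr0') (hi ▸ hL r0) hxi
  | true =>
    cases hxj : x j with
    | false => exact key j (hj ▸ hRM r0 hr0') (hj ▸ hR r0) hxj
    | true =>
      refine ⟨r, le_rfl, fun h2 => ?_⟩
      obtain ⟨r', hr', h3⟩ := h2 (max i j + 1)
      have h4 := (h3 ⟨i, by omega⟩).1 hxi
      have h5 := (h3 ⟨j, by omega⟩).1 hxj
      simp only [hi] at h4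
      simp only [hj] at h5
      exact hLR r0 r' h4 h5

/-! ### The strategy -/

section

variable {P : Type u} [Preorder P]

/-- Names for families of subsets of the Cantor space. -/
abbrev Nm (P : Type u) : Type u := Set Can → Set P

/-- Legal moves: names that are forced by `q₀` to be open covers and consist of clopen sets. -/
def Legal (q₀ : P) (A : Nm P) : Prop :=
  (∀ p ≤ q₀, p ∈ fOpenCover A) ∧ ∀ O, (A O).Nonempty → IsClopen O

/-- What we need from a strategy. -/
structure Strat (q₀ : P) (S : (n : ℕ) → (Fin (n + 1) → Nm P) → Nm P) : Prop where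
  ext : ∀ n (A B : Fin (n + 1) → Nm P), ∀ q ≤ q₀, (∀ i, q ∈ fSame (A i) (B i)) →
    ∃ r ≤ q, r ∈ fSame (S n A) (S n B)
  ans : ∀ n (A : Fin (n + 1) → Nm P), (∀ i, ∀ p ≤ q₀, p ∈ fOpenCover (A i)) → ∀ q ≤ q₀,
    ∃ r ≤ q, ∃ F : Finset (Set Can),
      (∀ O, ∀ r' ≤ r, r' ∈ meets (S n A O) → O ∈ F ∧ ∃ r'' ≤ r', r'' ∈ meets (A (Fin.last n) O))
  cov : ∀ A : ℕ → Nm P, (∀ n, ∀ p ≤ q₀, p ∈ fOpenCover (A n)) → ∀ x, ∀ q ≤ q₀,
    ∃ r ≤ q, ∃ n O, x ∈ O ∧ r ∈ meets (S n (fun i => A i) O)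

theorem meets_of_dense {N : Set P} {p : P} (h : ∀ q ≤ p, ∃ r ≤ q, r ∈ meets N) :
    p ∈ meets N := by
  intro q hq
  obtain ⟨r, hr, h1⟩ := h q hq
  obtain ⟨r', hr', s, hs, h2⟩ := h1 r le_rfl
  exact ⟨r', hr'.trans hr, s, hs, h2⟩

/-- Deciding finitely many statements. -/
theorem decide_fin (N : Nm P) (G : Finset (Set Can)) (q : P) :
    ∃ r ≤ q, ∀ O ∈ G, r ∈ meets (N O) ∨ ∀ r' ≤ r, r' ∉ meets (N O) := by
  classical
  induction G using Finset.induction_on with
  | empty => exact ⟨q, le_rfl, by simp⟩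
  | insert O G _ ih =>
    obtain ⟨r, hr, h⟩ := ih
    by_cases h1 : ∃ r' ≤ r, r' ∈ meets (N O)
    · obtain ⟨r', hr', h2⟩ := h1
      refine ⟨r', hr'.trans hr, fun O' hO' => ?_⟩
      rcases Finset.mem_insert.1 hO' with rfl | hO'
      · exact Or.inl h2
      · rcases h O' hO' with h3 | h3
        · exact Or.inl (down_meets _ _ h3 _ hr')
        · exact Or.inr fun r'' hr'' => h3 r'' (hr''.trans hr')
    · push Not at h1
      refine ⟨r, hr, fun O' hO' => ?_⟩
      rcases Finset.mem_insert.1 hO' with rfl | hO'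
      · exact Or.inr h1
      · exact h O' hO'

variable {q₀ : P} {S : (n : ℕ) → (Fin (n + 1) → Nm P) → Nm P} (hS : Strat q₀ S)

/-- The answer to the move `U` after the moves in the list `l` (latest first). -/
def ans (S : (n : ℕ) → (Fin (n + 1) → Nm P) → Nm P) (l : List (Nm P)) (U : Nm P) : Nm P :=
  S l.length (fun i => (U :: l)[l.length - i]'(by simp only [List.length_cons]; omega))

/-- `r` decides the answer to be the finite set `G`. -/
def Dec (S : (n : ℕ) → (Fin (n + 1) → Nm P) → Nm P) (l : List (Nm P)) (U : Nm P) (r : P)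
    (G : Finset {W : Set Can // IsClopen W}) : Prop :=
  (∀ O, ∀ r' ≤ r, r' ∈ meets (ans S l U O) → ∃ W ∈ G, W.1 = O) ∧
    ∀ W ∈ G, r ∈ meets (ans S l U W.1)

include hS

theorem exists_dec {l : List (Nm P)} (hl : ∀ A ∈ l, Legal q₀ A) {U : Nm P} (hU : Legal q₀ U)
    {q : P} (hq : q ≤ q₀) : ∃ r ≤ q, ∃ G, Dec S l U r G ∧ ∀ W ∈ G, r ∈ meets (U W.1) := by
  classical
  obtain ⟨r, hr, F, h1⟩ := hS.ans l.length
    (fun i => (U :: l)[l.length - i]'(by simp only [List.length_cons]; omega)) (by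
      intro i
      have : (U :: l)[l.length - (i : ℕ)]'(by simp only [List.length_cons]; omega) ∈ U :: l :=
        List.getElem_mem _
      rcases List.mem_cons.1 this with h | h
      · rw [h]
        exact hU.1
      · exact (hl _ h).1) q hq
  have hlast : (U :: l)[l.length - ((Fin.last l.length : Fin (l.length + 1)) : ℕ)]'(by
      simp only [List.length_cons]; omega) = U := by simp
  simp only [hlast] at h1
  obtain ⟨r2, hr2, h2⟩ := decide_fin (ans S l U) F r
  obtain ⟨r3, hr3, h3⟩ := decide_fin U F r2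
  have hcl : ∀ O, ∀ r' ≤ r3, r' ∈ meets (ans S l U O) → IsClopen O := by
    intro O r' hr' h4
    obtain ⟨-, r'', hr'', h5⟩ := h1 O r' (hr'.trans (hr3.trans hr2)) h4
    obtain ⟨-, -, s, hs, -⟩ := h5 r'' le_rfl
    exact hU.2 O ⟨s, hs⟩
  refine ⟨r3, hr3.trans (hr2.trans hr), (F.filter fun O => r3 ∈ meets (ans S l U O)).subtype
    IsClopen, ⟨fun O r' hr' h4 => ?_, fun W hW => ?_⟩, fun W hW => ?_⟩
  · have h5 := (h1 O r' (hr'.trans (hr3.trans hr2)) h4).1
    refine ⟨⟨O, hcl O r' hr' h4⟩, ?_, rfl⟩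
    rw [Finset.mem_subtype, Finset.mem_filter]
    refine ⟨h5, ?_⟩
    rcases h2 O h5 with h6 | h6
    · exact down_meets _ _ h6 _ hr3
    · exact absurd h4 (h6 r' (hr'.trans hr3))
  · rw [Finset.mem_subtype, Finset.mem_filter] at hW
    exact hW.2
  · rw [Finset.mem_subtype, Finset.mem_filter] at hW
    obtain ⟨-, r'', hr'', h5⟩ := h1 W.1 r3 (hr3.trans hr2) hW.2
    rcases h3 W.1 hW.1 with h6 | h6
    · exact h6
    · exact absurd h5 (h6 r'' hr'')

omit hS in
/-- The points which are always covered. -/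
def KK (q₀ : P) (S : (n : ℕ) → (Fin (n + 1) → Nm P) → Nm P) (l : List (Nm P)) (q : P) : Set Can :=
  {x | ∀ U, Legal q₀ U → ∀ q' ≤ q, ∃ r ≤ q', ∃ O, x ∈ O ∧ r ∈ meets (ans S l U O)}

omit hS in
/-- The cover avoiding the image of the new real. -/
def avoid (q₀ : P) (cone : P → Set Can) (φ : Can → Can) : Nm P := fun O =>
  {r | r ≤ q₀ ∧ IsClopen O ∧ Disjoint O (φ '' cone r)}

variable {cone : P → Set Can} (hc : ConeSystem q₀ cone)

omit hS in
include hc in
theorem down_avoid (φ : Can → Can) (O : Set Can) : Down (avoid q₀ cone φ O) := fun r hr q hq =>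
  ⟨hq.trans hr.1, hr.2.1, hr.2.2.mono_right (image_mono (hc.anti _ _ hq))⟩

omit hS in
include hc in
theorem legal_avoid {φ : Can → Can} (hφ : Continuous φ) (hi : Function.Injective φ) :
    Legal q₀ (avoid q₀ cone φ) := by
  refine ⟨fun p hp => ⟨fun O => mem_fimp.2 fun q _ h => ?_, fun x => mem_fex.2 fun q hq => ?_⟩,
    fun O ⟨r, hr⟩ => hr.2.1⟩
  · obtain ⟨r, hr, h1⟩ := exists_of_meets (down_avoid hc φ O) h
    exact ⟨r, hr, h1.2.1.isOpen⟩
  · obtain ⟨r, hr, h1⟩ : ∃ r ≤ q, x ∉ φ '' cone r := by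
      by_cases hx : ∃ c, φ c = x
      · obtain ⟨c, rfl⟩ := hx
        obtain ⟨r, hr, h1⟩ := hc.avoid q (hq.trans hp) c
        refine ⟨r, hr, ?_⟩
        rintro ⟨c', h2, h3⟩
        exact h1 (hi h3 ▸ h2)
      · exact ⟨q, le_rfl, fun ⟨c, _, h2⟩ => hx ⟨c, h2⟩⟩
    have h2 : IsClosed (φ '' cone r) := ((hc.closed r).isCompact.image hφ).isClosed
    obtain ⟨O, hO, hxO, h3⟩ := compact_exists_isClopen_in_isOpen h2.isOpen_compl h1
    refine ⟨r, hr, O, mem_fex_of_mem hxO (down_meets _) (meets_of_mem ⟨hr.trans (hq.trans hp),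
      hO, ?_⟩)⟩
    exact disjoint_left.2 fun y hy hy' => h3 hy hy'

include hc in
theorem countable_KK {l : List (Nm P)} (hl : ∀ A ∈ l, Legal q₀ A) {q : P} (hq : q ≤ q₀) :
    (KK q₀ S l q).Countable := by
  by_contra hunc
  have hunc' : ¬ (closure (KK q₀ S l q)).Countable := fun h => hunc (h.mono subset_closure)
  have := polish_can
  obtain ⟨φ, hφ1, hφ2, hφ3⟩ := isClosed_closure.exists_nat_bool_injection_of_not_countable hunc'
  have hU : Legal q₀ (avoid q₀ cone φ) := legal_avoid hc hφ2 hφ3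
  obtain ⟨r, hr, G, ⟨h1, h2⟩, h3⟩ := exists_dec hS hl hU hq
  obtain ⟨r1, hr1, h4⟩ : ∃ r1 ≤ r, ∀ W ∈ G, r1 ∈ avoid q₀ cone φ W.1 := by
    classical
    clear h1 h2
    induction G using Finset.induction_on with
    | empty => exact ⟨r, le_rfl, by simp⟩
    | insert W G _ ih =>
      obtain ⟨r1, hr1, h4⟩ := ih fun W' hW' => h3 W' (Finset.mem_insert_of_mem hW')
      obtain ⟨r2, hr2, h5⟩ := exists_of_meets (down_avoid hc φ W.1)
        (down_meets _ _ (h3 W (Finset.mem_insert_self _ _)) _ hr1)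
      refine ⟨r2, hr2.trans hr1, fun W' hW' => ?_⟩
      rcases Finset.mem_insert.1 hW' with rfl | hW'
      · exact h5
      · exact down_avoid hc φ _ _ (h4 W' hW') _ hr2
  have hKW : closure (KK q₀ S l q) ⊆ ⋃ W ∈ G, W.1 := by
    refine closure_minimal (fun x hx => ?_) (isClosed_biUnion_finset fun W _ => W.2.isClosed)
    obtain ⟨r2, hr2, O, hxO, h5⟩ := hx _ hU r1 (hr1.trans hr)
    obtain ⟨W, hW, rfl⟩ := h1 O r2 (hr2.trans hr1) h5
    exact mem_iUnion₂.2 ⟨W, hW, hxO⟩
  obtain ⟨c, hcc⟩ := hc.nonempty r1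
  obtain ⟨W, hW, h5⟩ := mem_iUnion₂.1 (hKW (hφ1 (mem_range_self c)))
  exact disjoint_left.1 (h4 W hW).2.2 h5 (mem_image_of_mem φ hcc)

end

/-! ### The play -/

theorem countable_clopens : Countable {W : Set Can // IsClopen W} := by
  have h1 : Countable (Clopens Can) := (Clopens.countable_iff_secondCountable (X := Can)).2
    inferInstance
  refine Function.Injective.countable (f := fun W => (⟨W.1, W.2⟩ : Clopens Can)) ?_
  intro W W' h
  exact Subtype.ext (congrArg (fun C : Clopens Can => (C : Set Can)) h)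

section

variable {P : Type u} [Preorder P]
variable (gen : ℕ → Finset {W : Set Can // IsClopen W})
variable (q₀ : P) (S : (n : ℕ) → (Fin (n + 1) → Nm P) → Nm P) (cone : P → Set Can)

/-- There are a move and a condition as described by the index. -/
def Sel (l : List (Nm P)) (d : P × ℕ) : Prop :=
  ∃ U : Nm P, Legal q₀ U ∧ ∃ r ≤ d.1, Dec S l U r (gen d.2)

open Classical in
/-- The chosen move. -/
noncomputable def Uo (l : List (Nm P)) (d : P × ℕ) : Nm P :=
  if h : Sel gen q₀ S l d then h.choose else avoid q₀ cone id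

open Classical in
/-- The chosen condition. -/
noncomputable def ro (l : List (Nm P)) (d : P × ℕ) : P :=
  if h : Sel gen q₀ S l d then h.choose_spec.2.choose else q₀

theorem legal_Uo (hc : ConeSystem q₀ cone) (l : List (Nm P)) (d : P × ℕ) :
    Legal q₀ (Uo gen q₀ S cone l d) := by
  unfold Uo
  split_ifs with h
  · exact h.choose_spec.1
  · exact legal_avoid hc continuous_id Function.injective_id

theorem ro_spec {l : List (Nm P)} {d : P × ℕ} (h : Sel gen q₀ S l d) :
    ro gen q₀ S l d ≤ d.1 ∧ Dec S l (Uo gen q₀ S cone l d) (ro gen q₀ S l d) (gen d.2) := by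
  unfold Uo ro
  rw [dif_pos h, dif_pos h]
  exact h.choose_spec.2.choose_spec

/-- The positions (latest move first). -/
noncomputable def pos : List (P × ℕ) → List (Nm P)
  | [] => []
  | d :: m => Uo gen q₀ S cone (pos m) d :: pos m

theorem length_pos (m : List (P × ℕ)) : (pos gen q₀ S cone m).length = m.length := by
  induction m with
  | nil => rfl
  | cons d m ih => simp [pos, ih]

theorem legal_pos (hc : ConeSystem q₀ cone) (m : List (P × ℕ)) :
    ∀ A ∈ pos gen q₀ S cone m, Legal q₀ A := by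
  induction m with
  | nil => intro A hA; simp [pos] at hA
  | cons d m ih =>
    intro A hA
    rcases List.mem_cons.1 hA with rfl | hA
    · exact legal_Uo gen q₀ S cone hc _ d
    · exact ih A hA

variable (x : Can) (MP : Set P)

/-- The index gives an answer not containing `x`. -/
def Good (m : List (P × ℕ)) (d : P × ℕ) : Prop :=
  d.1 ∈ MP ∧ Sel gen q₀ S (pos gen q₀ S cone m) d ∧ ∀ W ∈ gen d.2, x ∉ W.1

variable (en : P × ℕ → ℕ)

/-- The conditions forcing that `d` is chosen after `m`. -/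
def Ch (m : List (P × ℕ)) (d : P × ℕ) : Set P :=
  {r | Good gen q₀ S cone x MP m d ∧ r ≤ ro gen q₀ S (pos gen q₀ S cone m) d ∧
    ∀ d', en d' < en d → Good gen q₀ S cone x MP m d' →
      ∀ r' ≤ r, ¬ r' ≤ ro gen q₀ S (pos gen q₀ S cone m) d'}

/-- The conditions forcing that the list of the chosen indices is `m` (latest first). -/
def EE : List (P × ℕ) → Set P
  | [] => univ
  | d :: m => EE m ∩ Ch gen q₀ S cone x MP en m d

/-- The play. -/
def play (n : ℕ) : Nm P := fun O =>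
  {r | ∃ m d, m.length = n ∧ r ∈ EE gen q₀ S cone x MP en (d :: m) ∧
    r ∈ meets (Uo gen q₀ S cone (pos gen q₀ S cone m) d O)}

variable {gen q₀ S cone x MP en}

theorem down_Ch (m : List (P × ℕ)) (d : P × ℕ) : Down (Ch gen q₀ S cone x MP en m d) :=
  fun _ hr _ hq => ⟨hr.1, hq.trans hr.2.1, fun d' h1 h2 r' hr' => hr.2.2 d' h1 h2 r' (hr'.trans hq)⟩

theorem down_EE (m : List (P × ℕ)) : Down (EE gen q₀ S cone x MP en m) := by
  induction m with
  | nil => exact fun _ _ _ _ => trivial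
  | cons d m ih => exact fun r hr q hq => ⟨ih r hr.1 q hq, down_Ch m d r hr.2 q hq⟩

theorem Ch_unique (hen : InjOn en {d | d.1 ∈ MP}) {m : List (P × ℕ)} {d d' : P × ℕ} {r : P}
    (h : r ∈ Ch gen q₀ S cone x MP en m d) (h' : r ∈ Ch gen q₀ S cone x MP en m d') : d = d' := by
  rcases lt_trichotomy (en d) (en d') with h1 | h1 | h1
  · exact absurd h.2.1 (h'.2.2 d h1 h.1 r le_rfl)
  · exact hen h.1.1 h'.1.1 h1
  · exact absurd h'.2.1 (h.2.2 d' h1 h'.1 r le_rfl)

theorem EE_unique (hen : InjOn en {d | d.1 ∈ MP}) {r : P} : ∀ {m m' : List (P × ℕ)},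
    m.length = m'.length → r ∈ EE gen q₀ S cone x MP en m → r ∈ EE gen q₀ S cone x MP en m' →
      m = m'
  | [], [], _, _, _ => rfl
  | [], _ :: _, h, _, _ => by simp at h
  | _ :: _, [], h, _, _ => by simp at h
  | d :: m, d' :: m', h, h1, h2 => by
    have h3 : m = m' := EE_unique hen (by simpa using h) h1.1 h2.1
    subst h3
    rw [Ch_unique hen h1.2 h2.2]

theorem EE_mem {r : P} : ∀ {m : List (P × ℕ)}, r ∈ EE gen q₀ S cone x MP en m →
    ∀ d ∈ m, d.1 ∈ MP
  | [], _, d, hd => by simp at hd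
  | d' :: m, h, d, hd => by
    rcases List.mem_cons.1 hd with rfl | hd
    · exact h.2.1.1
    · exact EE_mem h.1 d hd

/-- The properties of the countable set of conditions. -/
structure Sub (gen : ℕ → Finset {W : Set Can // IsClopen W}) (q₀ : P)
    (S : (n : ℕ) → (Fin (n + 1) → Nm P) → Nm P) (cone : P → Set Can) (MP : Set P) (q₁ : P) :
    Prop where
  le : q₁ ≤ q₀
  ro_mem : ∀ m d, (∀ d' ∈ m, d'.1 ∈ MP) → d.1 ∈ MP → ro gen q₀ S (pos gen q₀ S cone m) d ∈ MP
  res : ∀ r ≤ q₁, ∃ r' ∈ MP, r' ≤ q₀ ∧ ∀ s ∈ MP, s ≤ r' → ∃ t, t ≤ s ∧ t ≤ r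

variable {q₁ : P}

theorem exists_Ch (hS : Strat q₀ S) (hc : ConeSystem q₀ cone) (hgen : Function.Surjective gen)
    (hM : Sub gen q₀ S cone MP q₁)
    (hx : ∀ m, (∀ d ∈ m, d.1 ∈ MP) → ∀ q ∈ MP, q ≤ q₀ → x ∉ KK q₀ S (pos gen q₀ S cone m) q)
    (m : List (P × ℕ)) (hm : ∀ d ∈ m, d.1 ∈ MP) {q : P} (hq : q ≤ q₁) :
    ∃ r ≤ q, ∃ d, r ∈ Ch gen q₀ S cone x MP en m d := by
  classical
  -- a good index with a compatible condition
  have h2 : ∃ k, ∃ d, en d = k ∧ Good gen q₀ S cone x MP m d ∧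
      ∃ r ≤ q, r ≤ ro gen q₀ S (pos gen q₀ S cone m) d := by
    obtain ⟨q2, hq2, hq2', hres⟩ := hM.res q hq
    have h2 := hx m hm q2 hq2 hq2'
    simp only [KK, mem_ofPred_eq, not_forall] at h2
    obtain ⟨U, hU, q', hq', h3⟩ := h2
    push Not at h3
    obtain ⟨r, hr, G, h4, -⟩ := exists_dec hS (legal_pos gen q₀ S cone hc m) hU (hq'.trans hq2')
    obtain ⟨k, rfl⟩ := hgen G
    have h5 : Sel gen q₀ S (pos gen q₀ S cone m) (q2, k) := ⟨U, hU, r, hr.trans hq', h4⟩
    obtain ⟨t, ht1, ht2⟩ := hres _ (hM.ro_mem m (q2, k) hm hq2) (ro_spec gen q₀ S cone h5).1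
    exact ⟨_, (q2, k), rfl, ⟨hq2, h5, fun W hW hxW => h3 r hr W.1 hxW (h4.2 W hW)⟩, t, ht2, ht1⟩
  obtain ⟨d, h3, h4, r, h5, h6⟩ := Nat.find_spec h2
  refine ⟨r, h5, d, h4, h6, fun d' h7 h8 r' hr' h9 => ?_⟩
  rw [h3] at h7
  exact Nat.find_min h2 h7 ⟨d', rfl, h8, r', hr'.trans h5, h9⟩

theorem exists_EE (hS : Strat q₀ S) (hc : ConeSystem q₀ cone) (hgen : Function.Surjective gen)
    (hM : Sub gen q₀ S cone MP q₁)
    (hx : ∀ m, (∀ d ∈ m, d.1 ∈ MP) → ∀ q ∈ MP, q ≤ q₀ → x ∉ KK q₀ S (pos gen q₀ S cone m) q)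
    (n : ℕ) {q : P} (hq : q ≤ q₁) :
    ∃ r ≤ q, ∃ m, m.length = n ∧ r ∈ EE gen q₀ S cone x MP en m := by
  induction n with
  | zero => exact ⟨q, le_rfl, [], rfl, trivial⟩
  | succ n ih =>
    obtain ⟨r, hr, m, hm, h1⟩ := ih
    obtain ⟨r', hr', d, h2⟩ := exists_Ch (en := en) hS hc hgen hM hx m (EE_mem h1) (hr.trans hq)
    exact ⟨r', hr'.trans hr, d :: m, by simp [hm], down_EE m _ h1 _ hr', h2⟩

theorem meets_play (hen : InjOn en {d | d.1 ∈ MP}) {m : List (P × ℕ)} {d : P × ℕ} {r : P}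
    (h : r ∈ EE gen q₀ S cone x MP en (d :: m)) (O : Set Can) :
    r ∈ meets (play gen q₀ S cone x MP en m.length O) ↔
      r ∈ meets (Uo gen q₀ S cone (pos gen q₀ S cone m) d O) := by
  constructor
  · intro h1
    refine meets_of_dense fun q hq => ?_
    obtain ⟨r', hr', s, ⟨m', d', h2, h3, h4⟩, h5⟩ := h1 q hq
    have h6 : d' :: m' = d :: m := EE_unique hen (by simp [h2]) (down_EE _ _ h3 _ h5)
      (down_EE _ _ h _ (hr'.trans hq))
    obtain ⟨rfl, rfl⟩ := List.cons.inj h6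
    exact ⟨r', hr', down_meets _ _ h4 _ h5⟩
  · intro h1
    exact meets_of_mem ⟨m, d, rfl, h, h1⟩

theorem legal_play (hen : InjOn en {d | d.1 ∈ MP}) (hS : Strat q₀ S) (hc : ConeSystem q₀ cone)
    (hgen : Function.Surjective gen) (hM : Sub gen q₀ S cone MP q₁)
    (hx : ∀ m, (∀ d ∈ m, d.1 ∈ MP) → ∀ q ∈ MP, q ≤ q₀ → x ∉ KK q₀ S (pos gen q₀ S cone m) q)
    (n : ℕ) : ∀ p ≤ q₁, p ∈ fOpenCover (play gen q₀ S cone x MP en n) := by
  intro p hp
  -- below `p` the play agrees with a legal move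
  have key : ∀ q ≤ p, ∃ r ≤ q, ∃ U : Nm P, Legal q₀ U ∧ ∀ r' ≤ r, ∀ O,
      (r' ∈ meets (play gen q₀ S cone x MP en n O) ↔ r' ∈ meets (U O)) := by
    intro q hq
    obtain ⟨r, hr, m, hm, h1⟩ := exists_EE (en := en) hS hc hgen hM hx (n + 1) (hq.trans hp)
    cases m with
    | nil => simp at hm
    | cons d m =>
      have hm' : m.length = n := by simpa using hm
      subst hm'
      exact ⟨r, hr, _, legal_Uo gen q₀ S cone hc (pos gen q₀ S cone m) d, fun r' hr' O =>
        meets_play hen (down_EE _ _ h1 _ hr') O⟩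
  refine ⟨fun O => mem_fimp.2 fun q hq h => ?_, fun y => mem_fex.2 fun q hq => ?_⟩
  · obtain ⟨r, hr, U, hU, h1⟩ := key q hq
    have h2 := (h1 r le_rfl O).1 (down_meets _ _ h _ hr)
    obtain ⟨r', hr', h3⟩ := mem_fimp.1 ((hU.1 r (hr.trans (hq.trans (hp.trans hM.le)))).1 O) r
      le_rfl h2
    exact ⟨r', hr'.trans hr, h3⟩
  · obtain ⟨r, hr, U, hU, h1⟩ := key q hq
    obtain ⟨r', hr', O, h2⟩ := mem_fex.1 ((hU.1 r (hr.trans (hq.trans (hp.trans hM.le)))).2 y) r
      le_rfl
    obtain ⟨r'', hr'', hyO, h3⟩ := mem_fex.1 h2 r' le_rfl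
    exact ⟨r'', hr''.trans (hr'.trans hr), O, mem_fex_of_mem hyO (down_meets _)
      ((h1 r'' (hr''.trans hr') O).2 h3)⟩

theorem same_play (hen : InjOn en {d | d.1 ∈ MP}) : ∀ (m : List (P × ℕ)) {r : P},
    r ∈ EE gen q₀ S cone x MP en m → ∀ (i : ℕ)
      (h : m.length - 1 - i < (pos gen q₀ S cone m).length), i < m.length →
      r ∈ fSame (play gen q₀ S cone x MP en i) ((pos gen q₀ S cone m)[m.length - 1 - i])
  | [], _, _, i, _, hi => by simp at hi
  | d :: m, r, hr, i, h, hi => by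
    rcases Nat.lt_succ_iff_lt_or_eq.1 hi with h1 | h1
    · have h2 := same_play hen m hr.1 i (by rw [length_pos]; omega) h1
      have h3 : (d :: m).length - 1 - i = (m.length - 1 - i) + 1 := by
        simp only [List.length_cons]
        omega
      have h4 : (pos gen q₀ S cone (d :: m))[(d :: m).length - 1 - i] =
          (pos gen q₀ S cone m)[m.length - 1 - i]'(by rw [length_pos]; omega) := by
        simp only [h3, pos, List.getElem_cons_succ]
      rw [h4]
      exact h2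
    · subst h1
      have h4 : (pos gen q₀ S cone (d :: m))[(d :: m).length - 1 - m.length] =
          Uo gen q₀ S cone (pos gen q₀ S cone m) d := by
        simp [pos]
      rw [h4]
      intro O
      refine ⟨mem_fimp.2 fun q hq h5 => ⟨q, le_rfl, ?_⟩, mem_fimp.2 fun q hq h5 =>
        ⟨q, le_rfl, ?_⟩⟩
      · exact (meets_play hen (down_EE _ _ hr _ hq) O).1 h5
      · exact (meets_play hen (down_EE _ _ hr _ hq) O).2 h5

/-- The sequence of indices coded by a list. -/
def dc : List (P ⊕ ℕ) → List (P × ℕ)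
  | Sum.inl q :: Sum.inr n :: l => (q, n) :: dc l
  | _ => []

/-- The code of a sequence of indices. -/
def enc : List (P × ℕ) → List (P ⊕ ℕ)
  | [] => []
  | d :: m => Sum.inl d.1 :: Sum.inr d.2 :: enc m

theorem dc_enc : ∀ m : List (P × ℕ), dc (enc m) = m
  | [] => rfl
  | d :: m => by simp [enc, dc, dc_enc m]

theorem exists_sub (hP : StronglyProper P) (gen : ℕ → Finset {W : Set Can // IsClopen W}) (q₀ : P)
    (S : (n : ℕ) → (Fin (n + 1) → Nm P) → Nm P) (cone : P → Set Can) :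
    ∃ MP : Set P, MP.Countable ∧ ∃ q₁, Sub gen q₀ S cone MP q₁ := by
  classical
  let com : P → P → P := fun a b => if h : ∃ s, s ≤ a ∧ s ≤ b then h.choose else q₀
  have hcom : ∀ a b, (∃ s, s ≤ a ∧ s ≤ b) → com a b ≤ a ∧ com a b ≤ b := by
    intro a b h
    simp only [com, dif_pos h]
    exact h.choose_spec
  let F : List (P ⊕ ℕ) → P ⊕ ℕ := fun l => match l with
    | [] => Sum.inl q₀
    | [Sum.inl _] => Sum.inr 0
    | [Sum.inr n] => Sum.inr (n + 1)
    | Sum.inl a :: Sum.inl b :: _ => Sum.inl (com a b)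
    | a :: b :: l => match dc (a :: b :: l) with
      | [] => Sum.inl q₀
      | d :: m => Sum.inl (ro gen q₀ S (pos gen q₀ S cone m) d)
  obtain ⟨M, hM, hcl, hg⟩ := hP (P ⊕ ℕ) Sum.inl F Sum.inl_injective
  have h0 : Sum.inl q₀ ∈ M := hcl [] (by simp)
  have hn : ∀ n : ℕ, Sum.inr n ∈ M := by
    intro n
    induction n with
    | zero => exact hcl [Sum.inl q₀] (by simpa using h0)
    | succ n ih => exact hcl [Sum.inr n] (by simpa using ih)
  obtain ⟨q₁, hq₁, hsg⟩ := hg q₀ h0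
  refine ⟨{p | Sum.inl p ∈ M}, hM.preimage Sum.inl_injective, q₁, hq₁, ?_, ?_⟩
  · intro m d hm hd
    have h1 : ∀ m : List (P × ℕ), (∀ d' ∈ m, Sum.inl d'.1 ∈ M) → ∀ z ∈ enc m, z ∈ M := by
      intro m
      induction m with
      | nil => intro _ z hz; simp [enc] at hz
      | cons d m ih =>
        intro hm z hz
        simp only [enc, List.mem_cons] at hz
        rcases hz with rfl | rfl | hz
        · exact hm d List.mem_cons_self
        · exact hn d.2
        · exact ih (fun d' hd' => hm d' (List.mem_cons_of_mem _ hd')) z hz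
    have h2 := hcl (enc (d :: m)) (h1 (d :: m) (by
      intro d' hd'
      rcases List.mem_cons.1 hd' with rfl | hd'
      · exact hd
      · exact hm d' hd'))
    have h3 : F (enc (d :: m)) = Sum.inl (ro gen q₀ S (pos gen q₀ S cone m) d) := by
      show (match dc (enc (d :: m)) with
        | [] => Sum.inl q₀
        | d :: m => Sum.inl (ro gen q₀ S (pos gen q₀ S cone m) d)) = _
      rw [dc_enc]
    rw [h3] at h2
    exact h2
  · intro r hr
    obtain ⟨r', hr', h1⟩ := hsg r hr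
    obtain ⟨t, ht1, ht2⟩ := h1 r' hr' le_rfl
    have h2 := hcom r' q₀ ⟨t, ht1, ht2.trans (hr.trans hq₁)⟩
    refine ⟨com r' q₀, ?_, h2.2, fun s hs hsr => h1 s hs (hsr.trans h2.1)⟩
    exact hcl [Sum.inl r', Sum.inl q₀] (by
      intro z hz
      simp only [List.mem_cons, List.not_mem_nil, or_false] at hz
      rcases hz with rfl | rfl
      · exact hr'
      · exact h0)

end

/-- There is no winning strategy. -/
theorem no_strat {P : Type u} [Preorder P] (hP : StronglyProper P) {q₀ : P}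
    {S : (n : ℕ) → (Fin (n + 1) → Nm P) → Nm P} (hS : ∀ q ≤ q₀, Strat q S)
    {cone : P → Set Can} (hc : ConeSystem q₀ cone) : False := by
  have hcount := countable_clopens
  obtain ⟨gen, hgen⟩ := exists_surjective_nat (Finset {W : Set Can // IsClopen W})
  obtain ⟨MP, hMP, q₁, hM⟩ := exists_sub hP gen q₀ S cone
  have : Countable MP := hMP.to_subtype
  obtain ⟨en, hen⟩ : ∃ en : P × ℕ → ℕ, InjOn en {d | d.1 ∈ MP} := by
    have h1 : ({d : P × ℕ | d.1 ∈ MP}).Countable := by
      have h2 : {d : P × ℕ | d.1 ∈ MP} = MP ×ˢ (univ : Set ℕ) := by ext d; simp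
      rw [h2]
      exact hMP.prod countable_univ
    exact countable_iff_exists_injOn.1 h1
  have hS0 := hS q₀ le_rfl
  have hS1 := hS q₁ hM.le
  -- the point
  have h1 : (⋃ (m : List (MP × ℕ)) (q : {q : MP // q.1 ≤ q₀}),
      KK q₀ S (pos gen q₀ S cone (m.map fun d => (d.1.1, d.2))) q.1.1).Countable := by
    refine countable_iUnion fun m => countable_iUnion fun q => ?_
    exact countable_KK hS0 hc (legal_pos gen q₀ S cone hc _) q.2
  obtain ⟨x, hx⟩ : ∃ x, x ∉ ⋃ (m : List (MP × ℕ)) (q : {q : MP // q.1 ≤ q₀}),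
      KK q₀ S (pos gen q₀ S cone (m.map fun d => (d.1.1, d.2))) q.1.1 := by
    by_contra hcon
    push Not at hcon
    rw [← eq_univ_iff_forall] at hcon
    rw [hcon] at h1
    have h2 : Countable Can := countable_univ_iff.1 h1
    obtain ⟨g, hg⟩ := (countable_iff_exists_surjective (α := Can)).1 h2
    obtain ⟨k, hk⟩ := hg fun k => !(g k k)
    have := congrFun hk k
    simp at this
  have hx' : ∀ m, (∀ d ∈ m, d.1 ∈ MP) → ∀ q ∈ MP, q ≤ q₀ →
      x ∉ KK q₀ S (pos gen q₀ S cone m) q := by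
    intro m hm q hq hq' h
    refine hx (mem_iUnion₂.2 ⟨m.attach.map fun d => (⟨d.1.1, hm d.1 d.2⟩, d.1.2), ⟨⟨q, hq⟩, hq'⟩, ?_⟩)
    have h2 : (m.attach.map fun d => ((⟨d.1.1, hm d.1 d.2⟩, d.1.2) : MP × ℕ)).map
        (fun d => (d.1.1, d.2)) = m := by
      rw [List.map_map]
      exact List.attach_map_subtype_val m
    rw [h2]
    exact h
  obtain ⟨r, hr, n, O, hxO, h2⟩ := hS1.cov (play gen q₀ S cone x MP en)
    (legal_play hen hS0 hc hgen hM hx') x q₁ le_rfl
  obtain ⟨r1, hr1, m', hm', h3⟩ := exists_EE (en := en) hS0 hc hgen hM hx' (n + 1) hr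
  cases m' with
  | nil => simp at hm'
  | cons d m =>
    have hn : m.length = n := by simpa using hm'
    rw [← length_pos gen q₀ S cone m] at hn
    subst hn
    obtain ⟨r2, hr2, h4⟩ := hS1.ext (pos gen q₀ S cone m).length
      (fun i => play gen q₀ S cone x MP en i)
      (fun i => (Uo gen q₀ S cone (pos gen q₀ S cone m) d ::
        pos gen q₀ S cone m)[(pos gen q₀ S cone m).length - i]'(by
        simp only [List.length_cons]; omega)) r1 (hr1.trans hr) (by
        intro i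
        have hL := length_pos gen q₀ S cone m
        have hL' := length_pos gen q₀ S cone (d :: m)
        have hi : (i : ℕ) < (pos gen q₀ S cone m).length + 1 := i.2
        obtain ⟨k, hk⟩ : ∃ k : ℕ, k = (i : ℕ) := ⟨_, rfl⟩
        have h5 := same_play hen (d :: m) h3 k (by
          rw [hL']
          simp only [List.length_cons]
          omega) (by
          simp only [List.length_cons]
          omega)
        have h6 : (d :: m).length - 1 - k = (pos gen q₀ S cone m).length - k := by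
          simp only [List.length_cons]
          omega
        simp only [h6] at h5
        subst hk
        exact h5)
    obtain ⟨r3, hr3, h5⟩ := mem_fimp.1 (h4 O).1 r2 le_rfl
      (down_meets _ _ h2 _ (hr2.trans hr1))
    have h6 := h3.2
    obtain ⟨W, hW, h7⟩ := ((ro_spec gen q₀ S cone h6.1.2.1).2.1 O r3
      ((hr3.trans hr2).trans h6.2.1)) h5
    exact h6.1.2.2 W hW (h7 ▸ hxO)

/-! ### The Menger game -/

theorem strat_of_winning {P : Type u} [Preorder P] {q₀ : P}
    {S : (n : ℕ) → (Fin (n + 1) → Nm P) → Nm P}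
    (h : q₀ ∈ fWinning fOpenCover fFinite fOpenCover S) : Strat q₀ S where
  ext := fun n A B q hq hAB => mem_fimp.1 (h.1 n A B) q hq hAB
  ans := by
    intro n A hAl q hq
    obtain ⟨r, hr, h1, h2⟩ := mem_fimp.1 (h.2.1 n A) q hq fun i => hAl i q hq
    obtain ⟨r1, hr1, F, h3⟩ := mem_fex.1 h1 r le_rfl
    refine ⟨r1, hr1.trans hr, F, fun O r' hr' h4 => ⟨?_, ?_⟩⟩
    · obtain ⟨_, _, h5⟩ := mem_fimp.1 (h3 O) r' hr' h4
      exact h5
    · exact mem_fimp.1 (h2 O) r' (hr'.trans hr1) h4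
  cov := by
    intro A hAl x q hq
    obtain ⟨r, hr, h1⟩ := mem_fimp.1 (h.2.2 A) q hq fun n => hAl n q hq
    obtain ⟨r1, hr1, O, h2⟩ := mem_fex.1 (h1.2 x) r le_rfl
    obtain ⟨r2, hr2, hxO, h3⟩ := mem_fex.1 h2 r1 le_rfl
    obtain ⟨r3, hr3, s, hs, h4⟩ := h3 r2 le_rfl
    obtain ⟨n, hn⟩ := mem_iUnion.1 hs
    exact ⟨r3, hr3.trans (hr2.trans (hr1.trans hr)), n, O, hxO, meets_of_le hn h4⟩

theorem down_winning {P : Type u} [Preorder P] (𝒜 𝒞 ℬ : Nm P → Set P)
    (S : (n : ℕ) → (Fin (n + 1) → Nm P) → Nm P) : Down (fWinning 𝒜 𝒞 ℬ S) :=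
  down_fand (down_fall fun _ => down_fall fun _ => down_fall fun _ => down_fimp _ _)
    (down_fand (down_fall fun _ => down_fall fun _ => down_fimp _ _)
      (down_fall fun _ => down_fimp _ _))

/-- Strongly proper forcing without atoms destroys the winning strategies of II in the Menger
game on the Cantor space. -/
theorem no_menger {P : Type u} [Preorder P] (hP : StronglyProper P) (hat : Atomless P) (p : P) :
    p ∈ fnot (fIIWinsFin (P := P) (X := Can) fOpenCover fOpenCover) := by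
  intro q _ hq
  obtain ⟨r, _, S, hS⟩ := mem_fex.1 hq q le_rfl
  obtain ⟨q₀, hq₀, cone, hc⟩ := exists_coneSystem hP hat r
  exact no_strat hP (fun q' hq' => strat_of_winning
    (down_winning _ _ _ S _ hS _ (hq'.trans hq₀))) hc

end Pool.Agent.L0h78.MengerGen
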