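import Pool.Agent.L0h78.QShort
import Pool.Agent.H643R2.RunLem

set_option autoImplicit false

/-!
# From the language `Lang` to nested words of a fixed level
-/

namespace Pool.Agent.L0h78.Q

open Pool.Agent.Helper288.Cone

/-- Brackets with levels. -/
abbrev Ga := Br × ℕ

/-- Nested words of level `m`. -/
inductive Ne : ℕ → List Ga → Prop
  | leaf (m : ℕ) : Ne m [(.e, m)]
  | heavy (t : Bool) (m : ℕ) (w : List Ga) : Ne m w → Ne m ((.h t, m) :: (w ++ [(.g t, m)]))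
  | left (m : ℕ) (u w : List Ga) : Ne m u → Ne (m + 1) w →
      Ne (m + 1) ((.l, m + 1) :: (u ++ (.r, m + 1) :: w))
  | right (m : ℕ) (w u : List Ga) : Ne (m + 1) w → Ne m u →
      Ne (m + 1) (w ++ (.l, m + 1) :: (u ++ [(.r, m + 1)]))

/-- The label of a level. -/
def lam : ℕ → ℕ
  | 0 => 0
  | k + 1 => 2 * lam k + 1

theorem lam_lt (k : ℕ) : lam k < 2 ^ k := by
  induction k with
  | zero => simp [lam]
  | succ k ih => rw [lam, pow_succ]; omega

theorem lam_mono {k m : ℕ} (h : k ≤ m) : lam k ≤ lam m := by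
  induction h with
  | refl => exact le_refl _
  | step _ ih => rw [lam]; omega

/-- The bracket `γ` leads from level `k` to level `k'`. -/
def Adm (k : ℕ) (γ : Ga) (k' : ℕ) : Prop :=
  match γ.1 with
  | .l => γ.2 = k ∧ k = k' + 1
  | .r => γ.2 = k' ∧ k' = k + 1
  | _ => γ.2 = k ∧ k' = k

theorem Adm_ok {k k' n : ℕ} {b : Br} (h : Adm k (b, n) k') : ok b (lam k) (lam k') := by
  cases b <;> simp only [Adm] at h <;> obtain ⟨h1, h2⟩ := h <;> subst h2 <;> simp [ok, lam]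

/-- `Lab M k v k' u`: the word `u` is the word `v` with the labels of the levels; the levels are at
most `M`, the first one is `k` and the last one is `k'`. -/
inductive Lab (M : ℕ) : ℕ → List Ga → ℕ → List Sg → Prop
  | nil (k : ℕ) : k ≤ M → Lab M k [] k (X (lam k))
  | cons (k : ℕ) (γ : Ga) (k1 : ℕ) (v : List Ga) (k' : ℕ) (u : List Sg) : k ≤ M → Adm k γ k1 →
      Lab M k1 v k' u → Lab M k (γ :: v) k' (X (lam k) ++ some γ.1 :: u)

theorem Lab_append {M k k1 : ℕ} {v1 : List Ga} {u1 : List Sg} (h : Lab M k v1 k1 u1) :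
    ∀ {γ : Ga} {k2 k' : ℕ} {v2 : List Ga} {u2 : List Sg}, Adm k1 γ k2 → Lab M k2 v2 k' u2 →
      Lab M k (v1 ++ γ :: v2) k' (u1 ++ some γ.1 :: u2) := by
  induction h with
  | nil k hk => intro γ k2 k' v2 u2 h1 h2; exact .cons k γ k2 v2 k' u2 hk h1 h2
  | cons k γ' k1' v k1 u hk ha _ ih =>
    intro γ k2 k' v2 u2 h1 h2
    have := Lab.cons k γ' k1' _ k' _ hk ha (ih h1 h2)
    simpa using this

theorem Ne_D {m : ℕ} {v : List Ga} (h : Ne m v) : ∀ M, m ≤ M → ∃ u, D u ∧ Lab M m v m u := by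
  induction h with
  | leaf m =>
    intro M hM
    exact ⟨_, .leaf (lam m) (lam m), .cons m (.e, m) m [] m _ hM ⟨rfl, rfl⟩ (.nil m hM)⟩
  | heavy t m w _ ih =>
    intro M hM
    obtain ⟨u, h1, h2⟩ := ih M hM
    refine ⟨_, .heavy t (lam m) (lam m) u h1, ?_⟩
    exact .cons m (.h t, m) m _ m _ hM ⟨rfl, rfl⟩
      (Lab_append h2 (γ := (.g t, m)) ⟨rfl, rfl⟩ (.nil m hM))
  | left m u w _ _ ih1 ih2 =>
    intro M hM
    obtain ⟨u1, h1, h2⟩ := ih1 M (by omega)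
    obtain ⟨w1, h3, h4⟩ := ih2 M hM
    refine ⟨_, .left (lam (m + 1)) u1 w1 h1 h3, ?_⟩
    exact .cons (m + 1) (.l, m + 1) m _ (m + 1) _ hM ⟨rfl, rfl⟩
      (Lab_append h2 (γ := (.r, m + 1)) ⟨rfl, rfl⟩ h4)
  | right m w u _ _ ih1 ih2 =>
    intro M hM
    obtain ⟨w1, h1, h2⟩ := ih1 M hM
    obtain ⟨u1, h3, h4⟩ := ih2 M (by omega)
    refine ⟨_, .right (lam (m + 1)) w1 u1 h1 h3, ?_⟩
    exact Lab_append h2 (γ := (.l, m + 1)) ⟨rfl, rfl⟩
      (Lab_append h4 (γ := (.r, m + 1)) ⟨rfl, rfl⟩ (.nil (m + 1) hM))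

theorem Lab_split {M k k' : ℕ} {v : List Ga} {u : List Sg} (h : Lab M k v k' u) :
    ∀ {u1 : List Sg} {b : Br} {u2 : List Sg}, u = u1 ++ some b :: u2 →
      ∃ v1 n k1 k2 v2, v = v1 ++ (b, n) :: v2 ∧ Lab M k v1 k1 u1 ∧ Adm k1 (b, n) k2 ∧
        Lab M k2 v2 k' u2 := by
  induction h with
  | nil k hk =>
    intro u1 b u2 h
    have : some b ∈ X (lam k) := by rw [h]; simp
    rw [List.mem_replicate] at this
    exact absurd this.2 (by simp)
  | cons k γ k1 v k' u hk ha hl ih =>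
    intro u1 b u2 h
    have hfin : u1 = X (lam k) → some γ.1 :: u = some b :: u2 →
        ∃ v1 n k1 k2 v2, γ :: v = v1 ++ (b, n) :: v2 ∧ Lab M k v1 k1 u1 ∧ Adm k1 (b, n) k2 ∧
        Lab M k2 v2 k' u2 := by
      rintro rfl h2
      rw [List.cons.injEq, Option.some.injEq] at h2
      obtain ⟨rfl, rfl⟩ := h2
      exact ⟨[], γ.2, k, k1, v, rfl, .nil k hk, ha, hl⟩
    rcases List.append_eq_append_iff.1 h with ⟨a, h1, h2⟩ | ⟨c, h1, h2⟩
    · cases a with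
      | nil => exact hfin (by simpa using h1) (by simpa using h2)
      | cons x a =>
        rw [List.cons_append, List.cons.injEq] at h2
        obtain ⟨rfl, h2⟩ := h2
        obtain ⟨v1, n, k3, k4, v2, rfl, h3, h4, h5⟩ := ih h2
        refine ⟨γ :: v1, n, k3, k4, v2, rfl, ?_, h4, h5⟩
        rw [h1]
        exact .cons k γ k1 v1 k3 a hk ha h3
    · cases c with
      | nil => exact hfin (by simpa using h1.symm) (by simpa using h2.symm)
      | cons x c =>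
        rw [List.cons_append, List.cons.injEq] at h2
        obtain ⟨rfl, h2⟩ := h2
        have : some b ∈ X (lam k) := by rw [h1]; simp
        rw [List.mem_replicate] at this
        exact absurd this.2 (by simp)

theorem Lab_X {M k k' i : ℕ} {v : List Ga} (h : Lab M k v k' (X i)) :
    v = [] ∧ k' = k ∧ i = lam k := by
  generalize hu : X i = u at h
  cases h with
  | nil k hk =>
    have := congrArg List.length hu
    simp only [List.length_replicate] at this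
    exact ⟨rfl, rfl, this⟩
  | cons k γ k1 v k' u hk ha hl =>
    have : some γ.1 ∈ X i := by rw [hu]; simp
    rw [List.mem_replicate] at this
    exact absurd this.2 (by simp)

theorem Lab_D {u : List Sg} (h : D u) : ∀ {M k k' : ℕ} {v : List Ga}, Lab M k v k' u →
    k' = k ∧ Ne k v := by
  induction h with
  | leaf i j =>
    intro M k k' v h
    obtain ⟨v1, n, k1, k2, v2, rfl, h1, h2, h3⟩ := Lab_split h rfl
    obtain ⟨rfl, rfl, _⟩ := Lab_X h1
    obtain ⟨rfl, rfl⟩ := h2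
    obtain ⟨rfl, rfl, _⟩ := Lab_X h3
    exact ⟨rfl, .leaf _⟩
  | heavy t i j w _ ih =>
    intro M k k' v h
    obtain ⟨v1, n, k1, k2, v2, rfl, h1, h2, h3⟩ := Lab_split h rfl
    obtain ⟨rfl, rfl, _⟩ := Lab_X h1
    obtain ⟨rfl, rfl⟩ := h2
    obtain ⟨v3, n, k3, k4, v4, rfl, h4, h5, h6⟩ := Lab_split h3 rfl
    obtain ⟨rfl, h7⟩ := ih h4
    obtain ⟨rfl, rfl⟩ := h5
    obtain ⟨rfl, rfl, _⟩ := Lab_X h6
    exact ⟨rfl, .heavy t _ _ h7⟩
  | left i u w _ _ ih1 ih2 =>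
    intro M k k' v h
    obtain ⟨v1, n, k1, k2, v2, rfl, h1, h2, h3⟩ := Lab_split h rfl
    obtain ⟨rfl, rfl, _⟩ := Lab_X h1
    obtain ⟨rfl, h2'⟩ := h2
    obtain ⟨v3, n, k3, k4, v4, rfl, h4, h5, h6⟩ := Lab_split h3 rfl
    obtain ⟨rfl, h7⟩ := ih1 h4
    obtain ⟨rfl, h5'⟩ := h5
    obtain ⟨rfl, h8⟩ := ih2 h6
    simp only at h2' h5'
    subst h5'
    subst h2'
    exact ⟨rfl, .left _ _ _ h7 h8⟩
  | right j w u _ _ ih2 ih1 =>
    intro M k k' v h
    obtain ⟨v1, n, k1, k2, v2, rfl, h1, h2, h3⟩ := Lab_split h rfl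
    obtain ⟨rfl, h1'⟩ := ih2 h1
    obtain ⟨rfl, h2'⟩ := h2
    obtain ⟨v3, n, k3, k4, v4, rfl, h4, h5, h6⟩ := Lab_split h3 rfl
    obtain ⟨rfl, h7⟩ := ih1 h4
    obtain ⟨rfl, h5'⟩ := h5
    obtain ⟨rfl, rfl, _⟩ := Lab_X h6
    simp only at h2' h5'
    subst h5'
    subst h2'
    exact ⟨rfl, .right _ _ _ h1' h7⟩

theorem Lab_V {M k k' : ℕ} {v : List Ga} {u : List Sg} (h : Lab M k v k' u) : ¬ V u := by
  rintro ⟨α, i, b, j, β, rfl, hα, hβ, hok⟩
  obtain ⟨v1, n, k1, k2, v2, rfl, h1, h2, h3⟩ :=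
    Lab_split (u1 := α ++ X i) (b := b) (u2 := X j ++ β) h (by simp)
  have hi : i = lam k1 := by
    rcases AL_cases hα with rfl | ⟨a, c, rfl⟩
    · obtain ⟨_, rfl, rfl⟩ := Lab_X (by simpa using h1)
      rfl
    · obtain ⟨v3, n, k3, k4, v4, rfl, _, _, h6⟩ :=
        Lab_split (u1 := a) (b := c) (u2 := X i) h1 (by simp)
      obtain ⟨_, rfl, rfl⟩ := Lab_X h6
      rfl
  have hj : j = lam k2 := by
    rcases BR_cases hβ with rfl | ⟨c, b', rfl⟩
    · obtain ⟨_, _, rfl⟩ := Lab_X (by simpa using h3)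
      rfl
    · obtain ⟨v3, n, k3, k4, v4, rfl, h6, _, _⟩ :=
        Lab_split (u1 := X j) (b := c) (u2 := b') h3 rfl
      obtain ⟨_, _, rfl⟩ := Lab_X h6
      rfl
  apply hok
  rw [hi, hj]
  exact Adm_ok h2

/-! ### the transducer -/

/-- The transducer which reads a word with fitting labels and writes the levels. -/
def ET (M : ℕ) : Tr Sg Ga where
  σ := Fin (M + 1) × Fin (2 ^ M)
  fin := inferInstance
  step := fun p x y q =>
    (x = some none ∧ y = none ∧ q.1 = p.1 ∧ (q.2 : ℕ) = p.2 + 1 ∧ (q.2 : ℕ) ≤ lam p.1) ∨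
    (∃ (b : Br) (n : ℕ), x = some (some b) ∧ y = some (b, n) ∧ (p.2 : ℕ) = lam p.1 ∧
      Adm p.1 (b, n) q.1 ∧ (q.2 : ℕ) = 0)
  start := fun p => (p.1 : ℕ) = M ∧ (p.2 : ℕ) = 0
  acc := fun p => (p.1 : ℕ) = M ∧ (p.2 : ℕ) = lam M

theorem Lab_of_run {M : ℕ} {p q : (ET M).σ} {u : List Sg} {v : List Ga}
    (h : (ET M).Run p u v q) : (ET M).acc q → (p.2 : ℕ) ≤ lam p.1 →
      Lab M p.1 v M (X p.2 ++ u) := by
  induction h with
  | nil p =>
    rintro ⟨h1, h2⟩ _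
    rw [h2, h1, List.append_nil]
    exact .nil M (le_refl _)
  | @cons p q r x y u v hs hr ih =>
    intro hacc hp
    rcases hs with ⟨rfl, rfl, h1, h2, h3⟩ | ⟨b, n, rfl, rfl, h1, h2, h3⟩
    · have h4 := ih hacc (by rw [h1]; exact h3)
      rw [h2, h1, X_succ'] at h4
      simpa using h4
    · have h4 := ih hacc (by rw [h3]; exact Nat.zero_le _)
      rw [h3] at h4
      rw [h1]
      exact .cons p.1 (b, n) q.1 v M u (Nat.lt_succ_iff.mp p.1.isLt) h2 (by simpa using h4)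

theorem run_X {M : ℕ} (c : ℕ) : ∀ (p : (ET M).σ), (p.2 : ℕ) + c ≤ lam p.1 →
    ∃ q : (ET M).σ, q.1 = p.1 ∧ (q.2 : ℕ) = p.2 + c ∧ (ET M).Run p (X c) [] q := by
  induction c with
  | zero => intro p _; exact ⟨p, rfl, rfl, Tr.Run.nil _⟩
  | succ c ih =>
    rintro ⟨k, c0⟩ h
    simp only at h
    have hlt : (c0 : ℕ) + 1 < 2 ^ M :=
      lt_of_le_of_lt (by omega) (lt_of_le_of_lt (lam_mono (Nat.lt_succ_iff.mp k.isLt)) (lam_lt M))
    obtain ⟨q, h1, h2, h3⟩ := ih (k, ⟨c0 + 1, hlt⟩) (by simp only; omega)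
    refine ⟨q, h1, by rw [h2]; simp only; omega, ?_⟩
    have h4 := Tr.Run.cons (T := ET M) (x := some none) (y := none) (p := (k, c0))
      (q := (k, ⟨c0 + 1, hlt⟩)) (Or.inl ⟨rfl, rfl, rfl, rfl, by simp only; omega⟩) h3
    exact h4

theorem run_of_Lab {M k k' : ℕ} {v : List Ga} {u : List Sg} (h : Lab M k v k' u) :
    ∀ (p : (ET M).σ), (p.1 : ℕ) = k → (p.2 : ℕ) = 0 →
      ∃ q : (ET M).σ, (q.1 : ℕ) = k' ∧ (q.2 : ℕ) = lam k' ∧ (ET M).Run p u v q := by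
  induction h with
  | nil k hk =>
    intro p h1 h2
    obtain ⟨q, h3, h4, h5⟩ := run_X (lam k) p (by rw [h1, h2]; omega)
    exact ⟨q, by rw [h3]; exact h1, by rw [h4, h2]; omega, h5⟩
  | cons k γ k1 v k' u hk ha hl ih =>
    intro p h1 h2
    have hk1 : k1 ≤ M := by
      cases hl with
      | nil _ h => exact h
      | cons _ _ _ _ _ _ h _ _ => exact h
    obtain ⟨q0, h6, h7, h8⟩ := run_X (lam k) p (by rw [h1, h2]; omega)
    obtain ⟨q, h3, h4, h5⟩ := ih (⟨k1, by omega⟩, ⟨0, by positivity⟩) rfl rfl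
    refine ⟨q, h3, h4, ?_⟩
    have h9 := h8.trans (Tr.Run.cons (T := ET M) (x := some (some γ.1)) (y := some γ)
      (q := (⟨k1, by omega⟩, ⟨0, by positivity⟩))
      (Or.inr ⟨γ.1, γ.2, rfl, rfl, by rw [h6, h7, h1, h2]; omega,
        by rw [h6, h1]; exact ha, rfl⟩) h5)
    simpa using h9

theorem ET_rel (M : ℕ) (u : List Sg) (v : List Ga) : (ET M).rel u v ↔ Lab M M v M u := by
  constructor
  · rintro ⟨p, q, hp, hq, h⟩
    have h1 := Lab_of_run h hq (by rw [hp.2]; exact Nat.zero_le _)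
    rw [hp.1, hp.2] at h1
    simpa using h1
  · intro h
    obtain ⟨q, h1, h2, h3⟩ := run_of_Lab h (⟨M, by omega⟩, ⟨0, by positivity⟩) rfl rfl
    exact ⟨_, q, ⟨rfl, rfl⟩, ⟨h1, h2⟩, h3⟩

/-- Every image of the nested words of a level under a rational transduction is an image of
`Lang`. -/
theorem inCone_of_Ne {Y : Type} [Fintype Y] (M : ℕ) (T : Tr Ga Y) (A : Language Y)
    (hA : ∀ v, v ∈ A ↔ ∃ u, Ne M u ∧ T.rel u v) : InCone Lang A := by
  apply InCone_of_tr Lang ((ET M).comp T) A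
  intro v
  rw [hA]
  constructor
  · rintro ⟨w, hw, hr⟩
    obtain ⟨u, h1, h2⟩ := Ne_D hw M (le_refl _)
    exact ⟨u, Or.inl h1, (Tr.comp_rel _ _ _ _).2 ⟨w, (ET_rel M u w).2 h2, hr⟩⟩
  · rintro ⟨u, hu, hr⟩
    obtain ⟨w, h1, h2⟩ := (Tr.comp_rel _ _ _ _).1 hr
    have h3 := (ET_rel M u w).1 h1
    refine ⟨w, ?_, h2⟩
    rcases hu with hu | hu
    · exact (Lab_D hu h3).2
    · exact absurd hu (Lab_V h3)

end Pool.Agent.L0h78.Q
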