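import Pool.Agent.L0h78.QLin
import Pool.Agent.H643R2.TrOps

set_option autoImplicit false

/-!
# Every quasi-rational language is in the cone of `Lang`
-/

namespace Pool.Agent.L0h78.Q

open Pool.Agent.Helper288.Cone
open Pool.Agent.Helper336.CF

/-- The image of `L` under the substitution which replaces the letter `x` by the words of `s x`. -/
def subst {X Y : Type} (L : Language X) (s : X → Language Y) : Language Y :=
  {w | ∃ u ∈ L, w ∈ (u.map s).prod}

theorem mem_subst {X Y : Type} {L : Language X} {s : X → Language Y} {w : List Y} :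
    w ∈ subst L s ↔ ∃ u ∈ L, w ∈ (u.map s).prod := Iff.rfl

theorem subst_subst_aux {X Y Z : Type} (s : X → Language Y) (r : Y → Language Z) (a : List X) :
    ∀ w : List Z, (∃ u ∈ (a.map s).prod, w ∈ (u.map r).prod) ↔
      w ∈ (a.map (fun x => subst (s x) r)).prod := by
  induction a with
  | nil =>
    intro w
    constructor
    · rintro ⟨u, hu, hw⟩
      have hu' : u = [] := by simpa using hu
      subst hu'
      simpa using hw
    · intro hw
      exact ⟨[], by simp, by simpa using hw⟩
  | cons x a ih =>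
    intro w
    rw [List.map_cons, List.prod_cons, List.map_cons, List.prod_cons, Language.mem_mul]
    constructor
    · rintro ⟨u, hu, hw⟩
      rw [Language.mem_mul] at hu
      obtain ⟨u1, h1, u2, h2, rfl⟩ := hu
      rw [List.map_append, List.prod_append, Language.mem_mul] at hw
      obtain ⟨w1, h3, w2, h4, rfl⟩ := hw
      exact ⟨w1, ⟨u1, h1, h3⟩, w2, (ih w2).1 ⟨u2, h2, h4⟩, rfl⟩
    · rintro ⟨w1, ⟨u1, h1, h3⟩, w2, h2, rfl⟩
      obtain ⟨u2, h4, h5⟩ := (ih w2).2 h2
      refine ⟨u1 ++ u2, ?_, ?_⟩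
      · rw [Language.mem_mul]
        exact ⟨u1, h1, u2, h4, rfl⟩
      · rw [List.map_append, List.prod_append, Language.mem_mul]
        exact ⟨w1, h3, w2, h5, rfl⟩

theorem subst_subst {X Y Z : Type} (L : Language X) (s : X → Language Y) (r : Y → Language Z) :
    subst (subst L s) r = subst L (fun x => subst (s x) r) := by
  ext w
  constructor
  · rintro ⟨u, ⟨a, ha, hu⟩, hw⟩
    exact ⟨a, ha, (subst_subst_aux s r a w).1 ⟨u, hu, hw⟩⟩
  · rintro ⟨a, ha, hw⟩
    obtain ⟨u, hu, hw'⟩ := (subst_subst_aux s r a w).2 hw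
    exact ⟨u, ⟨a, ha, hu⟩, hw'⟩

theorem prod_letters {X : Type} (a : List X) : ∀ w : List X,
    w ∈ (a.map (fun x => ({[x]} : Language X))).prod ↔ w = a := by
  induction a with
  | nil => intro w; simp
  | cons x a ih =>
    intro w
    rw [List.map_cons, List.prod_cons, Language.mem_mul]
    constructor
    · rintro ⟨w1, h1, w2, h2, rfl⟩
      have h1' : w1 = [x] := h1
      rw [h1', (ih w2).1 h2]
      rfl
    · rintro rfl
      exact ⟨[x], rfl, a, (ih a).2 rfl, rfl⟩

theorem subst_letters {X : Type} (L : Language X) :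
    subst L (fun x => ({[x]} : Language X)) = L := by
  ext w
  constructor
  · rintro ⟨u, hu, hw⟩
    rw [(prod_letters u w).1 hw]
    exact hu
  · intro hw
    exact ⟨w, hw, (prod_letters w w).2 rfl⟩

theorem subst_letter {X Y : Type} (x : X) (s : X → Language Y) : subst ({[x]} : Language X) s = s x := by
  ext w
  constructor
  · rintro ⟨u, hu, hw⟩
    have hu' : u = [x] := hu
    subst hu'
    simpa using hw
  · intro hw
    exact ⟨[x], rfl, by simpa using hw⟩

/-- Iterated substitutions of linear languages, bracketed to the right. -/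
inductive Gq : (Y : Type) → Language Y → Prop
  | letter (Y : Type) [Finite Y] (y : Y) : Gq Y {[y]}
  | lin (Z Y : Type) [Finite Z] [Finite Y] (A : Language Z) (s : Z → Language Y) :
      IsLinear A → (∀ z, Gq Y (s z)) → Gq Y (subst A s)

theorem Gq_of_linear {X : Type} [Finite X] {L : Language X} (h : IsLinear L) : Gq X L := by
  have := Gq.lin X X L (fun x => ({[x]} : Language X)) h fun x => Gq.letter X x
  rwa [subst_letters] at this

theorem Gq_subst {X : Type} {L : Language X} (h : Gq X L) : ∀ (Y : Type) [Finite Y]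
    (r : X → Language Y), (∀ x, Gq Y (r x)) → Gq Y (subst L r) := by
  induction h with
  | letter X x =>
    intro Y _ r hr
    rw [subst_letter]
    exact hr x
  | lin Z X A s hA _ ih =>
    intro Y _ r hr
    rw [subst_subst]
    exact Gq.lin Z Y A _ hA fun z => ih z Y r hr

/-- The language is an image of the nested words of level `m`. -/
def Lev (m : ℕ) {Y : Type} (A : Language Y) : Prop :=
  ∃ T : Tr Ga Y, ∀ v, v ∈ A ↔ ∃ u, Ne m u ∧ T.rel u v

theorem Lev_letter {Y : Type} (y : Y) : Lev 0 ({[y]} : Language Y) := by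
  refine ⟨Pool.Agent.H643R2.TrOps.one ((.e, 0) : Ga) (some y), fun v => ?_⟩
  constructor
  · intro hv
    have hv' : v = [y] := hv
    exact ⟨[(.e, 0)], .leaf 0, (Pool.Agent.H643R2.TrOps.one_rel _ _ _ _).2 ⟨rfl, hv'⟩⟩
  · rintro ⟨u, _, hr⟩
    exact ((Pool.Agent.H643R2.TrOps.one_rel _ _ _ _).1 hr).2

theorem Lev_lin {Z Y : Type} [Finite Z] (m : ℕ) {B : Language Z} (hB : IsLinear B)
    (s : Z → Language Y) (hs : ∀ z, Lev m (s z)) : Lev (m + 1) (subst B s) := by
  have := Fintype.ofFinite Z
  choose T hT using hs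
  obtain ⟨Q, _, st, fi, q0, hfun, hLD⟩ := linear_device hB
  have hSo : So T m = s := by
    funext z
    ext v
    exact (hT z v).symm
  refine ⟨TT T m st fi q0, fun v => ?_⟩
  rw [← TT_spec T m st fi q0 hfun v, hSo]
  constructor
  · rintro ⟨u, hu, hv⟩
    exact ⟨u, (hLD u).2 hu, hv⟩
  · rintro ⟨u, hu, hv⟩
    exact ⟨u, (hLD u).1 hu, hv⟩

theorem linear_unit : IsLinear ({[()]} : Language Unit) := by
  refine ⟨⟨Unit, (), {⟨(), [Symbol.terminal ()]⟩}⟩, ?_, ?_⟩
  · ext w
    refine (language_eq (⟨Unit, (), {⟨(), [Symbol.terminal ()]⟩}⟩ : ContextFreeGrammar Unit)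
      (fun _ => {w | w = [()]}) ?_ ?_ w)
    · intro r hr w hw
      have hr' : r = ⟨(), [Symbol.terminal ()]⟩ := by simpa using hr
      subst hr'
      obtain ⟨w', rfl, h⟩ := hw
      have h' : w' = [] := h
      subst h'
      rfl
    · intro w hw
      refine gen_of_rule _ (⟨(), [Symbol.terminal ()]⟩ : ContextFreeRule Unit Unit) ?_ w ?_
      · simp
      · exact ⟨[], hw, rfl⟩
  · intro r hr
    have hr' : r = ⟨(), [Symbol.terminal ()]⟩ := by simpa using hr
    subst hr'
    exact Or.inl ⟨[()], rfl⟩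

theorem Lev_succ {Y : Type} {m : ℕ} {A : Language Y} (h : Lev m A) : Lev (m + 1) A := by
  have := Lev_lin m linear_unit (fun _ => A) fun _ => h
  rwa [subst_letter] at this

theorem Lev_mono {Y : Type} {m M : ℕ} {A : Language Y} (h : Lev m A) (hM : m ≤ M) : Lev M A := by
  induction hM with
  | refl => exact h
  | step _ ih => exact Lev_succ ih

theorem Lev_of_Gq {Y : Type} {A : Language Y} (h : Gq Y A) : ∃ m, Lev m A := by
  induction h with
  | letter Y y => exact ⟨0, Lev_letter y⟩
  | lin Z Y A s hA _ ih =>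
    choose m hm using ih
    have := Fintype.ofFinite Z
    refine ⟨Finset.univ.sup m + 1, Lev_lin _ hA s fun z => Lev_mono (hm z) ?_⟩
    exact Finset.le_sup (Finset.mem_univ z)

/-- Every iterated substitution of linear languages is in the cone of `Lang`. -/
theorem inCone_of_Gq {Y : Type} [Finite Y] {A : Language Y} (h : Gq Y A) : InCone Lang A := by
  have := Fintype.ofFinite Y
  obtain ⟨m, T, hT⟩ := Lev_of_Gq h
  exact inCone_of_Ne m T A hT

end Pool.Agent.L0h78.Q
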