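import Pool.Agent.Helper336.CF
import Pool.Agent.Helper178.IdxUp

set_option autoImplicit false

/-!
# Nested words with labels which double from a light child to its parent

The letters are the label letter `none` and seven brackets. A word is a sequence of blocks
`none ^ i` (labels) and brackets. `D` is the language of the nested words without any condition on
the labels, `V` the language of the words with a pair of neighbouring labels which do not fit.
-/

namespace Pool.Agent.L0h78.Q

open Pool.Agent.Helper336.CF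

/-- Brackets: two pairs of heavy brackets `h t`, `g t`, the centre `e`, and the pair `l`, `r` of
light brackets. -/
inductive Br
  | h (t : Bool)
  | g (t : Bool)
  | e
  | l
  | r
  deriving DecidableEq, Fintype

/-- Letters. `none` is the label letter. -/
abbrev Sg := Option Br

/-- A label. -/
abbrev X (n : ℕ) : List Sg := List.replicate n none

/-- The condition on the labels before and after a bracket. -/
def ok : Br → ℕ → ℕ → Prop
  | .l, i, j => i = 2 * j + 1
  | .r, i, j => j = 2 * i + 1
  | _, i, j => i = j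

theorem ok_right {b : Br} {i j j' : ℕ} (h : ok b i j) (h' : ok b i j') : j = j' := by
  cases b <;> simp only [ok] at h h' <;> omega

theorem ok_left {b : Br} {i i' j : ℕ} (h : ok b i j) (h' : ok b i' j) : i = i' := by
  cases b <;> simp only [ok] at h h' <;> omega

/-- Nested words with arbitrary labels. -/
inductive D : List Sg → Prop
  | leaf (i j : ℕ) : D (X i ++ some .e :: X j)
  | heavy (t : Bool) (i j : ℕ) (w : List Sg) : D w →
      D (X i ++ some (.h t) :: (w ++ some (.g t) :: X j))
  | left (i : ℕ) (u w : List Sg) : D u → D w → D (X i ++ some .l :: (u ++ some .r :: w))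
  | right (j : ℕ) (w u : List Sg) : D w → D u → D (w ++ some .l :: (u ++ some .r :: X j))

/-- Nested words with fitting labels; `k` is the label at both ends. -/
inductive W : ℕ → List Sg → Prop
  | leaf (k : ℕ) : W k (X k ++ some .e :: X k)
  | heavy (t : Bool) (k : ℕ) (w : List Sg) : W k w →
      W k (X k ++ some (.h t) :: (w ++ some (.g t) :: X k))
  | left (j : ℕ) (u w : List Sg) : W j u → W (2 * j + 1) w →
      W (2 * j + 1) (X (2 * j + 1) ++ some .l :: (u ++ some .r :: w))
  | right (j : ℕ) (w u : List Sg) : W (2 * j + 1) w → W j u →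
      W (2 * j + 1) (w ++ some .l :: (u ++ some .r :: X (2 * j + 1)))

/-- The word does not end with the label letter. -/
def AL (α : List Sg) : Prop := ∀ a, α ≠ a ++ [none]

/-- The word does not start with the label letter. -/
def BR (β : List Sg) : Prop := ∀ b, β ≠ none :: b

/-- Words with two neighbouring labels which do not fit. -/
def V (w : List Sg) : Prop :=
  ∃ (α : List Sg) (i : ℕ) (b : Br) (j : ℕ) (β : List Sg),
    w = α ++ (X i ++ some b :: (X j ++ β)) ∧ AL α ∧ BR β ∧ ¬ ok b i j

/-- The language. -/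
def Lang : Language Sg := {w | D w ∨ V w}

theorem AL_nil : AL [] := by
  intro a h
  have := congrArg List.length h
  simp at this

theorem BR_nil : BR [] := by
  intro a h
  simp at h

theorem AL_append (α : List Sg) (c : Br) : AL (α ++ [some c]) := by
  intro a h
  have := List.append_inj' h rfl
  simp at this

theorem BR_cons (c : Br) (β : List Sg) : BR (some c :: β) := by
  intro a h
  simp at h

theorem AL_cases {α : List Sg} (h : AL α) : α = [] ∨ ∃ a c, α = a ++ [some c] := by
  rcases List.eq_nil_or_concat α with rfl | ⟨a, c, rfl⟩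
  · exact Or.inl rfl
  · right
    cases c with
    | none => exact absurd (List.concat_eq_append) (h a)
    | some c => exact ⟨a, c, List.concat_eq_append⟩

theorem BR_cases {β : List Sg} (h : BR β) : β = [] ∨ ∃ c b, β = some c :: b := by
  cases β with
  | nil => exact Or.inl rfl
  | cons c b =>
    right
    cases c with
    | none => exact absurd rfl (h b)
    | some c => exact ⟨c, b, rfl⟩

theorem AL_pre {α : List Sg} (γ : List Sg) (c : Br) (h : AL α) : AL (γ ++ some c :: α) := by
  rcases AL_cases h with rfl | ⟨a, d, rfl⟩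
  · exact AL_append γ c
  · have := AL_append (γ ++ some c :: a) d
    simpa using this

theorem BR_suf {β : List Sg} (c : Br) (δ : List Sg) (h : BR β) : BR (β ++ some c :: δ) := by
  rcases BR_cases h with rfl | ⟨d, b, rfl⟩
  · exact BR_cons c δ
  · exact BR_cons d _

theorem V.pre {w : List Sg} (h : V w) (γ : List Sg) (c : Br) : V (γ ++ some c :: w) := by
  obtain ⟨α, i, b, j, β, rfl, h1, h2, h3⟩ := h
  exact ⟨γ ++ some c :: α, i, b, j, β, by simp, AL_pre γ c h1, h2, h3⟩

theorem V.suf {w : List Sg} (h : V w) (c : Br) (δ : List Sg) : V (w ++ some c :: δ) := by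
  obtain ⟨α, i, b, j, β, rfl, h1, h2, h3⟩ := h
  exact ⟨α, i, b, j, β ++ some c :: δ, by simp, h1, BR_suf c δ h2, h3⟩

/-! ### the language is context-free -/

theorem cf_X : IsCF {w : List Sg | ∃ n : ℕ, w = X n} := cf_pow none

theorem cf_D : IsCF {w : List Sg | D w} := by
  classical
  obtain ⟨g₁, e₁⟩ := cf_X
  have e₁' : Gen g₁ g₁.initial = {w : List Sg | ∃ n : ℕ, w = X n} := e₁
  have hx : ∀ n, X n ∈ Gen g₁ g₁.initial := by
    intro n; rw [e₁']; exact ⟨n, rfl⟩
  have hx' : ∀ w, w ∈ Gen g₁ g₁.initial → ∃ n, w = X n := by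
    intro w hw; rw [e₁'] at hw; exact hw
  let g0 : ContextFreeGrammar Sg := ⟨PUnit, PUnit.unit, ∅⟩
  let x : Symbol Sg (Option (g₁.NT ⊕ g0.NT)) := Symbol.nonterminal (some (Sum.inl g₁.initial))
  let S : Symbol Sg (Option (g₁.NT ⊕ g0.NT)) := Symbol.nonterminal none
  refine ext_cf g₁ g0 {[x, Symbol.terminal (some .e), x],
    [x, Symbol.terminal (some (.h true)), S, Symbol.terminal (some (.g true)), x],
    [x, Symbol.terminal (some (.h false)), S, Symbol.terminal (some (.g false)), x],
    [x, Symbol.terminal (some .l), S, Symbol.terminal (some .r), S],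
    [S, Symbol.terminal (some .l), S, Symbol.terminal (some .r), x]} _ ?_ ?_
  · intro o ho w hw
    simp only [Finset.mem_insert, Finset.mem_singleton] at ho
    rcases ho with rfl | rfl | rfl | rfl | rfl
    · obtain ⟨w₁, _, rfl, h1, _, rfl, w₂, _, rfl, h2, rfl⟩ := hw
      obtain ⟨i, rfl⟩ := hx' _ h1
      obtain ⟨j, rfl⟩ := hx' _ h2
      simpa using D.leaf i j
    · obtain ⟨w₁, _, rfl, h1, _, rfl, w₂, _, rfl, h2, _, rfl, w₃, _, rfl, h3, rfl⟩ := hw
      obtain ⟨i, rfl⟩ := hx' _ h1
      obtain ⟨j, rfl⟩ := hx' _ h3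
      simpa using D.heavy true i j w₂ h2
    · obtain ⟨w₁, _, rfl, h1, _, rfl, w₂, _, rfl, h2, _, rfl, w₃, _, rfl, h3, rfl⟩ := hw
      obtain ⟨i, rfl⟩ := hx' _ h1
      obtain ⟨j, rfl⟩ := hx' _ h3
      simpa using D.heavy false i j w₂ h2
    · obtain ⟨w₁, _, rfl, h1, _, rfl, w₂, _, rfl, h2, _, rfl, w₃, _, rfl, h3, rfl⟩ := hw
      obtain ⟨i, rfl⟩ := hx' _ h1
      simpa using D.left i w₂ w₃ h2 h3
    · obtain ⟨w₁, _, rfl, h1, _, rfl, w₂, _, rfl, h2, _, rfl, w₃, _, rfl, h3, rfl⟩ := hw
      obtain ⟨j, rfl⟩ := hx' _ h3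
      simpa using D.right j w₁ w₂ h1 h2
  · rintro T h1 _ hS w hw
    replace hw : D w := hw
    induction hw with
    | leaf i j =>
      refine hS [x, Symbol.terminal (some .e), x] (by simp) _ ?_
      exact ⟨X i, _, rfl, h1 _ (hx i), _, rfl, X j, [], by simp, h1 _ (hx j), rfl⟩
    | heavy t i j w _ ih =>
      refine hS [x, Symbol.terminal (some (.h t)), S, Symbol.terminal (some (.g t)), x]
        (by cases t <;> simp) _ ?_
      exact ⟨X i, _, rfl, h1 _ (hx i), _, rfl, w, _, rfl, ih, _, rfl, X j, [], by simp,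
        h1 _ (hx j), rfl⟩
    | left i u w _ _ ih1 ih2 =>
      refine hS [x, Symbol.terminal (some .l), S, Symbol.terminal (some .r), S] (by simp) _ ?_
      exact ⟨X i, _, rfl, h1 _ (hx i), _, rfl, u, _, rfl, ih1, _, rfl, w, [], by simp, ih2, rfl⟩
    | right j w u _ _ ih1 ih2 =>
      refine hS [S, Symbol.terminal (some .l), S, Symbol.terminal (some .r), x] (by simp) _ ?_
      exact ⟨w, _, rfl, ih1, _, rfl, u, _, rfl, ih2, _, rfl, X j, [], by simp, h1 _ (hx j), rfl⟩

theorem cf_univ {T : Type} [Fintype T] : IsCF (Set.univ : Set (List T)) := by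
  classical
  let g0 : ContextFreeGrammar T := ⟨PUnit, PUnit.unit, ∅⟩
  refine ext_cf g0 g0 ({[]} ∪ (Finset.univ : Finset T).image
    (fun t => [Symbol.terminal t, Symbol.nonterminal none])) _ ?_ ?_
  · intro o _ w _
    trivial
  · rintro S _ _ hS w -
    induction w with
    | nil => exact hS [] (by simp) _ rfl
    | cons t w ih =>
      refine hS [Symbol.terminal t, Symbol.nonterminal none] (by simp) _ ?_
      exact ⟨w, rfl, w, [], by simp, ih, rfl⟩

theorem cf_someUnion {T : Type} (L : Br → Set (List T)) (h : ∀ b, IsCF (L b)) :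
    IsCF {w | ∃ b, w ∈ L b} := by
  have h1 := cf_iUnion (T := T) (Set.univ : Set Br) Set.finite_univ L (fun b _ => h b)
  convert h1 using 1
  ext w
  simp

theorem cf_AL : IsCF {α : List Sg | AL α} := by
  have h1 := cf_union (cf_singleton (T := Sg) [])
    (cf_someUnion (fun c => cat Set.univ {[some c]})
      (fun c => cf_cat cf_univ (cf_singleton [some c])))
  convert h1 using 1
  ext α
  constructor
  · intro h
    rcases AL_cases h with rfl | ⟨a, c, rfl⟩
    · exact Or.inl rfl
    · exact Or.inr ⟨c, a, trivial, [some c], rfl, rfl⟩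
  · rintro (h | ⟨c, a, -, _, rfl, rfl⟩)
    · have : α = [] := h
      subst this
      exact AL_nil
    · exact AL_append a c

theorem cf_BR : IsCF {β : List Sg | BR β} := by
  have h1 := cf_union (cf_singleton (T := Sg) [])
    (cf_someUnion (fun c => cat {[some c]} Set.univ)
      (fun c => cf_cat (cf_singleton [some c]) cf_univ))
  convert h1 using 1
  ext β
  constructor
  · intro h
    rcases BR_cases h with rfl | ⟨c, b, rfl⟩
    · exact Or.inl rfl
    · exact Or.inr ⟨c, [some c], rfl, b, trivial, rfl⟩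
  · rintro (h | ⟨c, _, rfl, b, -, rfl⟩)
    · have : β = [] := h
      subst this
      exact BR_nil
    · exact BR_cons c b

theorem X_succ (n : ℕ) : X (n + 1) = none :: X n := rfl

theorem X_succ' (n : ℕ) : X (n + 1) = X n ++ [none] := List.replicate_succ'

theorem cf_P (b : Br) : IsCF {w : List Sg | ∃ i j, ¬ ok b i j ∧ w = X i ++ some b :: X j} := by
  classical
  obtain ⟨g₁, e₁⟩ := cf_X
  have e₁' : Gen g₁ g₁.initial = {w : List Sg | ∃ n : ℕ, w = X n} := e₁
  have hx : ∀ n, X n ∈ Gen g₁ g₁.initial := by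
    intro n; rw [e₁']; exact ⟨n, rfl⟩
  have hx' : ∀ w, w ∈ Gen g₁ g₁.initial → ∃ n, w = X n := by
    intro w hw; rw [e₁'] at hw; exact hw
  let g0 : ContextFreeGrammar Sg := ⟨PUnit, PUnit.unit, ∅⟩
  let x : Symbol Sg (Option (g₁.NT ⊕ g0.NT)) := Symbol.nonterminal (some (Sum.inl g₁.initial))
  let S : Symbol Sg (Option (g₁.NT ⊕ g0.NT)) := Symbol.nonterminal none
  let n : Symbol Sg (Option (g₁.NT ⊕ g0.NT)) := Symbol.terminal none
  let B : Symbol Sg (Option (g₁.NT ⊕ g0.NT)) := Symbol.terminal (some b)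
  have main : (∀ i j, ok b i j ↔ i = j) →
      IsCF {w : List Sg | ∃ i j, ¬ ok b i j ∧ w = X i ++ some b :: X j} := by
    intro hb
    simp only [hb]
    refine ext_cf g₁ g0 {[n, x, B], [B, n, x], [n, S, n]} _ ?_ ?_
    · intro o ho w hw
      simp only [Finset.mem_insert, Finset.mem_singleton] at ho
      rcases ho with rfl | rfl | rfl
      · obtain ⟨_, rfl, w₁, _, rfl, h1, _, rfl, rfl⟩ := hw
        obtain ⟨i, rfl⟩ := hx' _ h1
        exact ⟨i + 1, 0, by omega, rfl⟩
      · obtain ⟨_, rfl, _, rfl, w₁, _, rfl, h1, rfl⟩ := hw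
        obtain ⟨i, rfl⟩ := hx' _ h1
        exact ⟨0, i + 1, by omega, by simp [List.replicate_succ]⟩
      · obtain ⟨_, rfl, w₁, _, rfl, ⟨i, j, hij, rfl⟩, _, rfl, rfl⟩ := hw
        refine ⟨i + 1, j + 1, by omega, ?_⟩
        rw [X_succ, X_succ' j]
        simp
    · rintro T h1 _ hS w ⟨i, j, hij, rfl⟩
      induction i generalizing j with
      | zero =>
        obtain ⟨j, rfl⟩ : ∃ j', j = j' + 1 := ⟨j - 1, by omega⟩
        refine hS [B, n, x] (by simp) _ ?_
        exact ⟨_, rfl, _, rfl, X j, [], by simp, h1 _ (hx j), rfl⟩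
      | succ i ih =>
        cases j with
        | zero =>
          refine hS [n, x, B] (by simp) _ ?_
          exact ⟨_, rfl, X i, _, rfl, h1 _ (hx i), _, rfl, rfl⟩
        | succ j =>
          refine hS [n, S, n] (by simp) _ ?_
          refine ⟨X i ++ some b :: X (j + 1), rfl, X i ++ some b :: X j, [none], ?_,
            ih j (by omega), _, rfl, rfl⟩
          rw [X_succ']
          simp
  cases b with
  | h t => exact main (fun i j => Iff.rfl)
  | g t => exact main (fun i j => Iff.rfl)
  | e => exact main (fun i j => Iff.rfl)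
  | l =>
    refine ext_cf g₁ g0 {[B, x], [n, B, n, x], [n, n, x, B], [n, n, S, n]} _ ?_ ?_
    · intro o ho w hw
      simp only [Finset.mem_insert, Finset.mem_singleton] at ho
      rcases ho with rfl | rfl | rfl | rfl
      · obtain ⟨_, rfl, w₁, _, rfl, h1, rfl⟩ := hw
        obtain ⟨j, rfl⟩ := hx' _ h1
        exact ⟨0, j, by simp [ok], by simp⟩
      · obtain ⟨_, rfl, _, rfl, _, rfl, w₁, _, rfl, h1, rfl⟩ := hw
        obtain ⟨j, rfl⟩ := hx' _ h1
        exact ⟨1, j + 1, by simp [ok], by simp [List.replicate_succ]⟩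
      · obtain ⟨_, rfl, _, rfl, w₁, _, rfl, h1, _, rfl, rfl⟩ := hw
        obtain ⟨i, rfl⟩ := hx' _ h1
        exact ⟨i + 2, 0, by simp [ok], by simp [List.replicate_succ]⟩
      · obtain ⟨_, rfl, _, rfl, w₁, _, rfl, ⟨i, j, hij, rfl⟩, _, rfl, rfl⟩ := hw
        simp only [ok] at hij
        refine ⟨i + 1 + 1, j + 1, by simp only [ok]; omega, ?_⟩
        rw [X_succ, X_succ, X_succ' j]
        simp
    · rintro T h1 _ hS w ⟨i, j, hij, rfl⟩
      simp only [ok] at hij
      induction j generalizing i with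
      | zero =>
        rcases Nat.lt_or_ge i 2 with hi | hi
        · obtain rfl : i = 0 := by omega
          refine hS [B, x] (by simp) _ ?_
          exact ⟨_, rfl, X 0, [], by simp, h1 _ (hx 0), rfl⟩
        · obtain ⟨i, rfl⟩ : ∃ i', i = i' + 1 + 1 := ⟨i - 2, by omega⟩
          refine hS [n, n, x, B] (by simp) _ ?_
          exact ⟨_, rfl, _, rfl, X i, _, rfl, h1 _ (hx i), _, rfl, rfl⟩
      | succ j ih =>
        rcases Nat.lt_or_ge i 2 with hi | hi
        · rcases Nat.lt_or_ge i 1 with hi' | hi'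
          · obtain rfl : i = 0 := by omega
            refine hS [B, x] (by simp) _ ?_
            exact ⟨_, rfl, X (j + 1), [], by simp, h1 _ (hx _), rfl⟩
          · obtain rfl : i = 1 := by omega
            refine hS [n, B, n, x] (by simp) _ ?_
            exact ⟨_, rfl, _, rfl, _, rfl, X j, [], by simp, h1 _ (hx j), rfl⟩
        · obtain ⟨i, rfl⟩ : ∃ i', i = i' + 1 + 1 := ⟨i - 2, by omega⟩
          refine hS [n, n, S, n] (by simp) _ ?_
          refine ⟨none :: (X i ++ some .l :: X (j + 1)), rfl, X i ++ some .l :: X (j + 1), rfl,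
            X i ++ some .l :: X j, [none], ?_, ih i (by omega), _, rfl, rfl⟩
          rw [X_succ']
          simp
  | r =>
    refine ext_cf g₁ g0 {[x, B], [n, x, B, n], [B, n, n, x], [n, S, n, n]} _ ?_ ?_
    · intro o ho w hw
      simp only [Finset.mem_insert, Finset.mem_singleton] at ho
      rcases ho with rfl | rfl | rfl | rfl
      · obtain ⟨w₁, _, rfl, h1, _, rfl, rfl⟩ := hw
        obtain ⟨i, rfl⟩ := hx' _ h1
        exact ⟨i, 0, by simp [ok], by simp⟩
      · obtain ⟨_, rfl, w₁, _, rfl, h1, _, rfl, _, rfl, rfl⟩ := hw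
        obtain ⟨i, rfl⟩ := hx' _ h1
        exact ⟨i + 1, 1, by simp [ok], by simp [List.replicate_succ]⟩
      · obtain ⟨_, rfl, _, rfl, _, rfl, w₁, _, rfl, h1, rfl⟩ := hw
        obtain ⟨j, rfl⟩ := hx' _ h1
        exact ⟨0, j + 2, by simp [ok], by simp [List.replicate_succ]⟩
      · obtain ⟨_, rfl, w₁, _, rfl, ⟨i, j, hij, rfl⟩, _, rfl, _, rfl, rfl⟩ := hw
        simp only [ok] at hij
        refine ⟨i + 1, j + 1 + 1, by simp only [ok]; omega, ?_⟩
        rw [X_succ, X_succ' (j + 1), X_succ' j]
        simp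
    · rintro T h1 _ hS w ⟨i, j, hij, rfl⟩
      simp only [ok] at hij
      induction i generalizing j with
      | zero =>
        rcases Nat.lt_or_ge j 2 with hj | hj
        · obtain rfl : j = 0 := by omega
          refine hS [x, B] (by simp) _ ?_
          exact ⟨X 0, _, rfl, h1 _ (hx 0), _, rfl, rfl⟩
        · obtain ⟨j, rfl⟩ : ∃ j', j = j' + 1 + 1 := ⟨j - 2, by omega⟩
          refine hS [B, n, n, x] (by simp) _ ?_
          exact ⟨_, rfl, _, rfl, _, rfl, X j, [], by simp, h1 _ (hx j), rfl⟩
      | succ i ih =>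
        rcases Nat.lt_or_ge j 2 with hj | hj
        · rcases Nat.lt_or_ge j 1 with hj' | hj'
          · obtain rfl : j = 0 := by omega
            refine hS [x, B] (by simp) _ ?_
            exact ⟨X (i + 1), _, rfl, h1 _ (hx _), _, rfl, rfl⟩
          · obtain rfl : j = 1 := by omega
            refine hS [n, x, B, n] (by simp) _ ?_
            exact ⟨_, rfl, X i, _, rfl, h1 _ (hx i), _, rfl, _, rfl, rfl⟩
        · obtain ⟨j, rfl⟩ : ∃ j', j = j' + 1 + 1 := ⟨j - 2, by omega⟩
          refine hS [n, S, n, n] (by simp) _ ?_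
          refine ⟨X i ++ some .r :: X (j + 1 + 1), rfl, X i ++ some .r :: X j, [none, none], ?_,
            ih j (by omega), _, rfl, _, rfl, rfl⟩
          rw [X_succ', X_succ']
          simp

theorem cf_V : IsCF {w : List Sg | V w} := by
  have h1 := cf_cat cf_AL (cf_cat (cf_someUnion _ cf_P) cf_BR)
  convert h1 using 1
  ext w
  constructor
  · rintro ⟨α, i, b, j, β, rfl, h1, h2, h3⟩
    exact ⟨α, h1, _, ⟨X i ++ some b :: X j, ⟨b, i, j, h3, rfl⟩, β, h2, rfl⟩, by simp⟩
  · rintro ⟨α, h1, _, ⟨_, ⟨b, i, j, h3, rfl⟩, β, h2, rfl⟩, rfl⟩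
    exact ⟨α, i, b, j, β, by simp, h1, h2, h3⟩

theorem cf_Lang : Lang.IsContextFree := cf_union cf_D cf_V

end Pool.Agent.L0h78.Q
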