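import Pool.Agent.L0h78.QSim

set_option autoImplicit false

/-!
# Linear grammars as deterministic linear devices
-/

namespace Pool.Agent.L0h78.Q

open Pool.Agent.Helper336.CF

/-- `L` is a linear language: it is generated by a context-free grammar in which every right-hand
side contains at most one nonterminal. -/
def IsLinear {X : Type} (L : Language X) : Prop :=
  ∃ g : ContextFreeGrammar.{0} X, g.language = L ∧ ∀ r ∈ g.rules,
    (∃ u : List X, r.output = u.map Symbol.terminal) ∨
    (∃ (u : List X) (A : g.NT) (v : List X),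
      r.output = u.map Symbol.terminal ++ Symbol.nonterminal A :: v.map Symbol.terminal)

/-- The states of the device. -/
inductive PS (X N : Type)
  | sel (B : N) (l : List (N × List X × Option N × List X))
  | gen (u : List X) (o : Option N) (v : List X)

section

variable {X N : Type} (rl : List (N × List X × Option N × List X))

/-- The steps of the device. -/
inductive PSt : PS X N → Bool → PS X N → Act X → Prop
  | take (B : N) (u : List X) (o : Option N) (v : List X)
      (l : List (N × List X × Option N × List X)) :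
      PSt (.sel B ((B, u, o, v) :: l)) true (.gen u o v) .E
  | skip (B : N) (r : N × List X × Option N × List X)
      (l : List (N × List X × Option N × List X)) : PSt (.sel B (r :: l)) false (.sel B l) .E
  | left (x : X) (u : List X) (o : Option N) (v : List X) :
      PSt (.gen (x :: u) o v) true (.gen u o v) (.L x)
  | right (x : X) (o : Option N) (v : List X) :
      PSt (.gen [] o (x :: v)) true (.gen [] o v) (.R x)
  | call (B : N) : PSt (.gen [] (some B) []) true (.sel B rl) .E

/-- The final state. -/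
def PFi (s : PS X N) : Prop := s = .gen [] none []

theorem PSt_fun {q : PS X N} {t : Bool} {q1 q2 : PS X N} {a1 a2 : Act X} (h1 : PSt rl q t q1 a1)
    (h2 : PSt rl q t q2 a2) : q1 = q2 ∧ a1 = a2 := by
  cases h1 <;> cases h2 <;> exact ⟨rfl, rfl⟩

theorem gen_complete {o : Option N} {w : List X} (h : LD (PSt rl) PFi (.gen [] o []) w)
    (v : List X) : ∀ u : List X, LD (PSt rl) PFi (.gen u o v) (u ++ (w ++ v.reverse)) := by
  have h1 : LD (PSt rl) PFi (.gen [] o v) (w ++ v.reverse) := by
    induction v with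
    | nil => simpa using h
    | cons x v ih =>
      have := LD.step _ _ _ _ _ (PSt.right (rl := rl) x o v) ih
      simpa [Act.lz, Act.rz] using this
  intro u
  induction u with
  | nil => exact h1
  | cons x u ih =>
    have := LD.step _ _ _ _ _ (PSt.left (rl := rl) x u o v) ih
    simpa [Act.lz, Act.rz] using this

theorem sel_complete {B : N} {u : List X} {o : Option N} {v : List X} {w : List X}
    (h : LD (PSt rl) PFi (.gen u o v) w) (l : List (N × List X × Option N × List X)) :
    (B, u, o, v) ∈ l → LD (PSt rl) PFi (.sel B l) w := by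
  induction l with
  | nil => intro h; exact absurd h (by simp)
  | cons r l ih =>
    intro hm
    rw [List.mem_cons] at hm
    rcases hm with rfl | hm
    · have := LD.step _ _ _ _ _ (PSt.take (rl := rl) B u o v l) h
      simpa [Act.lz, Act.rz] using this
    · have := LD.step _ _ _ _ _ (PSt.skip (rl := rl) B r l) (ih hm)
      simpa [Act.lz, Act.rz] using this

theorem rule_output_comp {S : N → Set (List X)} {u v : List X} {o : Option N} {w : List X} :
    Comp S (u.map Symbol.terminal ++ (o.toList.map Symbol.nonterminal ++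
      v.reverse.map Symbol.terminal)) w ↔
    ∃ w', w = u ++ (w' ++ v.reverse) ∧ ((o = none ∧ w' = []) ∨ ∃ B, o = some B ∧ w' ∈ S B) := by
  rw [comp_append]
  constructor
  · rintro ⟨w1, w2, rfl, h1, h2⟩
    rw [comp_map_terminal] at h1
    subst h1
    rw [comp_append] at h2
    obtain ⟨w3, w4, rfl, h3, h4⟩ := h2
    rw [comp_map_terminal] at h4
    subst h4
    cases o with
    | none =>
      have h3' : w3 = [] := h3
      exact ⟨w3, rfl, Or.inl ⟨rfl, h3'⟩⟩
    | some B =>
      obtain ⟨w5, w6, rfl, h5, h6⟩ := h3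
      have h6' : w6 = [] := h6
      subst h6'
      exact ⟨w5, by simp, Or.inr ⟨B, rfl, h5⟩⟩
  · rintro ⟨w', rfl, h⟩
    refine ⟨u, w' ++ v.reverse, rfl, (comp_map_terminal _ _ _).2 rfl, ?_⟩
    rw [comp_append]
    refine ⟨w', v.reverse, rfl, ?_, (comp_map_terminal _ _ _).2 rfl⟩
    rcases h with ⟨rfl, rfl⟩ | ⟨B, rfl, h⟩
    · rfl
    · exact ⟨w', [], by simp, h, rfl⟩

end

/-- The meaning of the states. -/
def Mean {X : Type} (g : ContextFreeGrammar.{0} X)
    (rl : List (g.NT × List X × Option g.NT × List X)) : PS X g.NT → List X → Prop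
  | .sel B l, w => (∀ r ∈ l, r ∈ rl) → w ∈ Gen g B
  | .gen u o v, w => ∃ w', w = u ++ (w' ++ v.reverse) ∧
      ((o = none ∧ w' = []) ∨ ∃ B, o = some B ∧ w' ∈ Gen g B)

theorem mean_of_LD {X : Type} (g : ContextFreeGrammar.{0} X)
    (rl : List (g.NT × List X × Option g.NT × List X))
    (hrl : ∀ B u o v, (B, u, o, v) ∈ rl → (⟨B, u.map Symbol.terminal ++
      (o.toList.map Symbol.nonterminal ++ v.reverse.map Symbol.terminal)⟩ :
        ContextFreeRule X g.NT) ∈ g.rules) {s : PS X g.NT} {w : List X}
    (h : LD (PSt rl) PFi s w) : Mean g rl s w := by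
  induction h with
  | fin q hq =>
    have hq' : q = .gen [] none [] := hq
    subst hq'
    exact ⟨[], rfl, Or.inl ⟨rfl, rfl⟩⟩
  | step q t q' a w hst _ ih =>
    cases hst with
    | take B u o v l =>
      intro hl
      have h1 := hrl B u o v (hl _ (by simp))
      obtain ⟨w', rfl, h2⟩ := ih
      refine gen_of_rule g _ h1 _ ?_
      refine rule_output_comp.2 ⟨w', by simp [Act.lz, Act.rz], h2⟩
    | skip B r l =>
      intro hl
      have := ih fun r hr => hl r (List.mem_cons_of_mem _ hr)
      simpa [Act.lz, Act.rz] using this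
    | left x u o v =>
      obtain ⟨w', rfl, h2⟩ := ih
      exact ⟨w', by simp [Act.lz, Act.rz], h2⟩
    | right x o v =>
      obtain ⟨w', rfl, h2⟩ := ih
      exact ⟨w', by simp [Act.lz, Act.rz], h2⟩
    | call B =>
      have := ih fun r hr => hr
      exact ⟨w, by simp [Act.lz, Act.rz], Or.inr ⟨B, rfl, this⟩⟩

/-- Restriction of a device to a closed set of states. -/
theorem LD_restrict {Z Q : Type} (st : Q → Bool → Q → Act Z → Prop) (fi : Q → Prop) (F : Set Q)
    (hF : ∀ q t q' a, q ∈ F → st q t q' a → q' ∈ F) {q : Q} (hq : q ∈ F) (w : List Z) :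
    LD (fun (q : F) t (q' : F) a => st q.1 t q'.1 a) (fun q : F => fi q.1) ⟨q, hq⟩ w ↔
      LD st fi q w := by
  constructor
  · intro h
    have key : ∀ {q : F} {w : List Z},
        LD (fun (q : F) t (q' : F) a => st q.1 t q'.1 a) (fun q : F => fi q.1) q w →
        LD st fi q.1 w := by
      intro q w h
      induction h with
      | fin q hq => exact .fin _ hq
      | step q t q' a w h1 _ ih => exact .step _ t _ a w h1 ih
    exact key h
  · intro h
    induction h with
    | fin q hq' => exact .fin _ hq'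
    | step q t q' a w h1 _ ih =>
      exact .step (st := fun (q : F) t (q' : F) a => st q.1 t q'.1 a) ⟨q, hq⟩ t
        ⟨q', hF q t q' a hq h1⟩ a w h1 (ih _)

/-- Every linear language is generated by a finite deterministic linear device. -/
theorem linear_device {X : Type} {L : Language X} (h : IsLinear L) :
    ∃ (Q : Type) (_ : Fintype Q) (st : Q → Bool → Q → Act X → Prop) (fi : Q → Prop) (q0 : Q),
      (∀ q t q1 a1 q2 a2, st q t q1 a1 → st q t q2 a2 → q1 = q2 ∧ a1 = a2) ∧
      ∀ w, LD st fi q0 w ↔ w ∈ L := by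
  classical
  obtain ⟨g, rfl, hg⟩ := h
  have h1 : ∀ r ∈ g.rules, ∃ c : List X × Option g.NT × List X,
      r.output = c.1.map Symbol.terminal ++
        (c.2.1.toList.map Symbol.nonterminal ++ c.2.2.reverse.map Symbol.terminal) := by
    intro r hr
    rcases hg r hr with ⟨u, hu⟩ | ⟨u, A, v, hu⟩
    · exact ⟨(u, none, []), by simpa using hu⟩
    · exact ⟨(u, some A, v.reverse), by simpa using hu⟩
  choose! f hf using h1
  obtain ⟨rl, hrl⟩ : ∃ rl, rl = g.rules.toList.map (fun r => (r.input, f r)) := ⟨_, rfl⟩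
  have hrl1 : ∀ B u o v, (B, u, o, v) ∈ rl → (⟨B, u.map Symbol.terminal ++
      (o.toList.map Symbol.nonterminal ++ v.reverse.map Symbol.terminal)⟩ :
        ContextFreeRule X g.NT) ∈ g.rules := by
    intro B u o v hm
    rw [hrl, List.mem_map] at hm
    obtain ⟨r, hr, he⟩ := hm
    rw [Finset.mem_toList] at hr
    rw [Prod.mk.injEq] at he
    obtain ⟨rfl, he⟩ := he
    have := hf r hr
    rw [he] at this
    simp only at this
    rw [← this]
    exact hr
  have hrl2 : ∀ r ∈ g.rules, (r.input, f r) ∈ rl := by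
    intro r hr
    rw [hrl]
    exact List.mem_map.2 ⟨r, Finset.mem_toList.2 hr, rfl⟩
  -- the closed set of states
  let NTs : Set g.NT := {g.initial} ∪ {B | ∃ r ∈ rl, r.2.2.1 = some B}
  have hNT : NTs.Finite := by
    apply (Set.finite_singleton _).union
    have : {B | ∃ r ∈ rl, r.2.2.1 = some B} ⊆ ⋃ r ∈ {r | r ∈ rl}, {B | r.2.2.1 = some B} := by
      rintro B ⟨r, hr, he⟩
      simp only [Set.mem_iUnion]
      exact ⟨r, hr, he⟩
    refine Set.Finite.subset (Set.Finite.biUnion (List.finite_toSet rl) ?_) this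
    intro r _
    apply Set.Subsingleton.finite
    intro B hB B' hB'
    have hB1 : r.2.2.1 = some B := hB
    have hB2 : r.2.2.1 = some B' := hB'
    rw [hB1] at hB2
    exact Option.some.inj hB2
  let F : Set (PS X g.NT) :=
    {s | (∃ B ∈ NTs, ∃ l, l <:+ rl ∧ s = .sel B l) ∨
      ∃ r ∈ rl, ∃ u, u <:+ r.2.1 ∧ ∃ v, v <:+ r.2.2.2 ∧ s = .gen u r.2.2.1 v}
  have hsuf : ∀ {A : Type} (l : List A), {a : List A | a <:+ l}.Finite := by
    intro A l
    have : {a : List A | a <:+ l} = {a | a ∈ l.tails} := by ext a; simp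
    rw [this]
    exact List.finite_toSet _
  have hF : F.Finite := by
    have h2 : F ⊆ (⋃ B ∈ NTs, ⋃ l ∈ {l | l <:+ rl}, {PS.sel B l}) ∪
        ⋃ r ∈ {r | r ∈ rl}, ⋃ u ∈ {u | u <:+ r.2.1}, ⋃ v ∈ {v | v <:+ r.2.2.2},
          {PS.gen u r.2.2.1 v} := by
      rintro s (⟨B, hB, l, hl, rfl⟩ | ⟨r, hr, u, hu, v, hv, rfl⟩)
      · left
        simp only [Set.mem_iUnion]
        exact ⟨B, hB, l, hl, rfl⟩
      · right
        simp only [Set.mem_iUnion]
        exact ⟨r, hr, u, hu, v, hv, rfl⟩
    refine Set.Finite.subset ?_ h2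
    apply Set.Finite.union
    · exact hNT.biUnion fun B _ => (hsuf rl).biUnion fun l _ => Set.finite_singleton _
    · exact (List.finite_toSet rl).biUnion fun r _ => (hsuf _).biUnion fun u _ =>
        (hsuf _).biUnion fun v _ => Set.finite_singleton _
  have hcl : ∀ q t q' a, q ∈ F → PSt rl q t q' a → q' ∈ F := by
    intro q t q' a hq hst
    cases hst with
    | take B u o v l =>
      rcases hq with ⟨B', hB', l', hl', he⟩ | ⟨r, hr, u', hu', v', hv', he⟩
      · rw [PS.sel.injEq] at he
        obtain ⟨rfl, rfl⟩ := he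
        exact Or.inr ⟨(B, u, o, v), hl'.subset (by simp), u, List.suffix_refl _, v,
          List.suffix_refl _, rfl⟩
      · exact absurd he (by simp)
    | skip B r l =>
      rcases hq with ⟨B', hB', l', hl', he⟩ | ⟨r, hr, u', hu', v', hv', he⟩
      · rw [PS.sel.injEq] at he
        obtain ⟨rfl, rfl⟩ := he
        exact Or.inl ⟨B, hB', l, (List.suffix_cons r l).trans hl', rfl⟩
      · exact absurd he (by simp)
    | left x u o v =>
      rcases hq with ⟨B', hB', l', hl', he⟩ | ⟨r, hr, u', hu', v', hv', he⟩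
      · exact absurd he (by simp)
      · rw [PS.gen.injEq] at he
        obtain ⟨rfl, rfl, rfl⟩ := he
        exact Or.inr ⟨r, hr, u, (List.suffix_cons x u).trans hu', v, hv', rfl⟩
    | right x o v =>
      rcases hq with ⟨B', hB', l', hl', he⟩ | ⟨r, hr, u', hu', v', hv', he⟩
      · exact absurd he (by simp)
      · rw [PS.gen.injEq] at he
        obtain ⟨rfl, rfl, rfl⟩ := he
        exact Or.inr ⟨r, hr, [], hu', v, (List.suffix_cons x v).trans hv', rfl⟩
    | call B =>
      rcases hq with ⟨B', hB', l', hl', he⟩ | ⟨r, hr, u', hu', v', hv', he⟩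
      · exact absurd he (by simp)
      · rw [PS.gen.injEq] at he
        exact Or.inl ⟨B, Or.inr ⟨r, hr, he.2.1.symm⟩, rl, List.suffix_refl _, rfl⟩
  have hfin : Finite F := hF
  have hq0 : (PS.sel g.initial rl : PS X g.NT) ∈ F :=
    Or.inl ⟨g.initial, Or.inl rfl, rl, List.suffix_refl _, rfl⟩
  refine ⟨F, Fintype.ofFinite F, fun q t q' a => PSt rl q.1 t q'.1 a, fun q => PFi q.1,
    ⟨_, hq0⟩, ?_, ?_⟩
  · intro q t q1 a1 q2 a2 h2 h3
    obtain ⟨h4, h5⟩ := PSt_fun rl h2 h3
    exact ⟨Subtype.ext h4, h5⟩
  · intro w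
    rw [LD_restrict (PSt rl) PFi F hcl hq0 w]
    constructor
    · intro h2
      exact mean_of_LD g rl hrl1 h2 fun r hr => hr
    · intro h2
      have key := comp_of_derives g (fun B => {w | LD (PSt rl) PFi (.sel B rl) w}) (by
        intro r hr w hw
        rw [hf r hr] at hw
        obtain ⟨w', rfl, h3⟩ := rule_output_comp.1 hw
        refine sel_complete rl (gen_complete rl ?_ _ _) rl (hrl2 r hr)
        rcases h3 with ⟨h4, rfl⟩ | ⟨B, h4, h5⟩
        · rw [h4]
          exact .fin _ rfl
        · rw [h4]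
          have := LD.step _ _ _ _ _ (PSt.call (rl := rl) B) h5
          simpa [Act.lz, Act.rz] using this) [Symbol.nonterminal g.initial] w h2
      obtain ⟨w₁, w₂, rfl, h3, h4⟩ := key
      have h4' : w₂ = [] := h4
      subst h4'
      simpa using h3

end Pool.Agent.L0h78.Q
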