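import Pool.Agent.L0h78.QShort
import Pool.Agent.Helper288.ConeTr

set_option autoImplicit false

/-!
# A context-free language which is not in the cone of the language `Lang`
-/

namespace Pool.Agent.L0h78.Q

open Pool.Agent.Helper178.Idx (Ch Ch_short Run Run_append Run_short)
open Pool.Agent.Helper288.Cone
open Pool.Agent.Helper336.CF

/-- Four letters. -/
abbrev Y4 := Fin 4

/-- The language of the grammar `S → a S b S c`, `S → d`. -/
inductive Tree : List Y4 → Prop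
  | leaf : Tree [3]
  | node (u v : List Y4) : Tree u → Tree v → Tree (0 :: (u ++ 1 :: (v ++ [2])))

theorem cf_Tree : IsCF {w : List Y4 | Tree w} := by
  classical
  let g0 : ContextFreeGrammar Y4 := ⟨PUnit, PUnit.unit, ∅⟩
  let S : Symbol Y4 (Option (g0.NT ⊕ g0.NT)) := Symbol.nonterminal none
  refine ext_cf g0 g0 {[Symbol.terminal 3], [Symbol.terminal 0, S, Symbol.terminal 1, S,
    Symbol.terminal 2]} _ ?_ ?_
  · intro o ho w hw
    simp only [Finset.mem_insert, Finset.mem_singleton] at ho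
    rcases ho with rfl | rfl
    · obtain ⟨_, rfl, rfl⟩ := hw
      exact .leaf
    · obtain ⟨_, rfl, w₁, _, rfl, h1, _, rfl, w₂, _, rfl, h2, _, rfl, rfl⟩ := hw
      exact .node w₁ w₂ h1 h2
  · rintro T _ _ hS w hw
    replace hw : Tree w := hw
    induction hw with
    | leaf => exact hS [Symbol.terminal 3] (by simp) _ ⟨_, rfl, rfl⟩
    | node u v _ _ ih1 ih2 =>
      refine hS [Symbol.terminal 0, S, Symbol.terminal 1, S, Symbol.terminal 2] (by simp) _ ?_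
      exact ⟨_, rfl, u, _, rfl, ih1, _, rfl, v, _, rfl, ih2, _, rfl, rfl⟩

/-- The states of the automaton for the full binary tree of depth `n`. -/
abbrev Ms (n : ℕ) := Fin (n + 1) × Bool

/-- The steps of the automaton for the full binary tree of depth `n`. -/
def mst (n : ℕ) (s : Ms n) (y : Y4) (t : Ms n) : Prop :=
  (y = 0 ∧ s.2 = false ∧ t.2 = false ∧ (t.1 : ℕ) = s.1 + 1) ∨
  (y = 1 ∧ s.2 = true ∧ t.2 = false ∧ t.1 = s.1) ∨
  (y = 2 ∧ s.2 = true ∧ t.2 = true ∧ (s.1 : ℕ) = t.1 + 1) ∨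
  (y = 3 ∧ s.2 = false ∧ t.2 = true ∧ (s.1 : ℕ) = n ∧ t.1 = s.1)

theorem mst_long {n : ℕ} {w : List Y4} (hw : Tree w) : ∀ (s t : Ms n), s.2 = false →
    Run (mst n) s w t → t.2 = true ∧ t.1 = s.1 ∧ 2 ^ (n - (s.1 : ℕ)) ≤ w.length := by
  induction hw with
  | leaf =>
    rintro s t hs ⟨r, hr, rfl⟩
    rcases hr with ⟨h, _⟩ | ⟨h, _⟩ | ⟨h, _⟩ | ⟨_, h1, h2, h3, h4⟩
    · exact absurd h (by decide)
    · exact absurd h (by decide)
    · exact absurd h (by decide)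
    · refine ⟨h2, h4, ?_⟩
      rw [h3]
      simp
  | node u v _ _ ih1 ih2 =>
    rintro s t hs ⟨r1, hr1, hr⟩
    obtain ⟨r2, hr2, r3, hr3, hr⟩ := (Run_append _ _ _ _).mp hr
    obtain ⟨r4, hr4, r5, hr5, hr6⟩ := (Run_append _ _ _ _).mp hr
    have hr6' : r5 = t := hr6
    subst hr6'
    rcases hr1 with ⟨_, h1, h2, h3⟩ | ⟨h, _⟩ | ⟨h, _⟩ | ⟨h, _⟩
    · obtain ⟨a1, a2, a3⟩ := ih1 r1 r2 h2 hr2
      rcases hr3 with ⟨h, _⟩ | ⟨_, b1, b2, b3⟩ | ⟨h, _⟩ | ⟨h, _⟩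
      · exact absurd h (by decide)
      · obtain ⟨c1, c2, c3⟩ := ih2 r3 r4 b2 hr4
        rcases hr5 with ⟨h, _⟩ | ⟨h, _⟩ | ⟨_, d1, d2, d3⟩ | ⟨h, _⟩
        · exact absurd h (by decide)
        · exact absurd h (by decide)
        · have e1 : (r3.1 : ℕ) = s.1 + 1 := by rw [b3, a2]; exact h3
          have e2 : (r4.1 : ℕ) = s.1 + 1 := by rw [c2]; exact e1
          refine ⟨d2, Fin.ext (by omega), ?_⟩
          have hlt : (s.1 : ℕ) < n := by have := r3.1.isLt; omega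
          obtain ⟨m, hm⟩ : ∃ m, n - (s.1 : ℕ) = m + 1 := ⟨n - s.1 - 1, by omega⟩
          have f1 : n - (r1.1 : ℕ) = m := by omega
          have f2 : n - (r3.1 : ℕ) = m := by omega
          rw [f1] at a3
          rw [f2] at c3
          rw [hm, pow_succ]
          simp only [List.length_cons, List.length_append, List.length_nil]
          omega
        · exact absurd h (by decide)
      · exact absurd h (by decide)
      · exact absurd h (by decide)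
    · exact absurd h (by decide)
    · exact absurd h (by decide)
    · exact absurd h (by decide)

theorem mst_exists {n : ℕ} (m : ℕ) : ∀ i : Fin (n + 1), (i : ℕ) + m = n →
    ∃ w, Tree w ∧ Run (mst n) (i, false) w (i, true) := by
  induction m with
  | zero =>
    intro i hi
    exact ⟨[3], .leaf, (i, true), Or.inr (Or.inr (Or.inr ⟨rfl, rfl, rfl, by simpa using hi, rfl⟩)),
      rfl⟩
  | succ m ih =>
    intro i hi
    obtain ⟨w, h1, h2⟩ := ih ⟨i + 1, by omega⟩ (by simp; omega)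
    refine ⟨_, .node w w h1 h1, (⟨i + 1, by omega⟩, false), Or.inl ⟨rfl, rfl, rfl, rfl⟩, ?_⟩
    refine (Run_append _ _ _ _).mpr ⟨_, h2, (⟨i + 1, by omega⟩, false),
      Or.inr (Or.inl ⟨rfl, rfl, rfl, rfl⟩), ?_⟩
    exact (Run_append _ _ _ _).mpr ⟨_, h2, (i, true),
      Or.inr (Or.inr (Or.inl ⟨rfl, rfl, rfl, rfl⟩)), rfl⟩

/-! ### product with a transducer -/

section
variable (T : Tr Sg Y4) {σ : Type} (m : σ → Y4 → σ → Prop)

/-- Steps without input. -/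
def eps (a b : T.σ × σ) : Prop := ∃ y : Option Y4, T.step a.1 none y b.1 ∧ Run m a.2 y.toList b.2

/-- Steps with input. -/
def inp (x : Sg) (a b : T.σ × σ) : Prop :=
  ∃ y : Option Y4, T.step a.1 (some x) y b.1 ∧ Run m a.2 y.toList b.2

/-- Long steps: steps without input followed by a step with input. -/
def big [Fintype T.σ] [Fintype σ] (a : T.σ × σ) (x : Sg) (b : T.σ × σ) : Prop :=
  ∃ k c, k < Fintype.card (T.σ × σ) ∧ Ch (eps T m) k a c ∧ inp T m x c b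

/-- Runs of the product. -/
def Acc : List Sg → T.σ × σ → T.σ × σ → Prop
  | [], a, b => ∃ k, Ch (eps T m) k a b
  | x :: u, a, b => ∃ k c d, Ch (eps T m) k a c ∧ inp T m x c d ∧ Acc u d b

theorem Acc_eps {u : List Sg} {a b c : T.σ × σ} (h : eps T m a b) (h' : Acc T m u b c) :
    Acc T m u a c := by
  cases u with
  | nil =>
    obtain ⟨k, hk⟩ := h'
    exact ⟨k + 1, b, h, hk⟩
  | cons x u =>
    obtain ⟨k, d, e, hk, h1, h2⟩ := h'
    exact ⟨k + 1, d, e, ⟨b, h, hk⟩, h1, h2⟩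

theorem Acc_of_run {p q : T.σ} {u : List Sg} {v : List Y4} (h : T.Run p u v q) :
    ∀ s t : σ, Run m s v t → Acc T m u (p, s) (q, t) := by
  induction h with
  | nil p =>
    intro s t h
    have h' : s = t := h
    subst h'
    exact ⟨0, rfl⟩
  | @cons p q r x y u v hs hr ih =>
    intro s t h
    obtain ⟨s', h1, h2⟩ := (Run_append _ _ _ _).mp h
    have h3 := ih s' t h2
    cases x with
    | none => exact Acc_eps T m ⟨y, hs, h1⟩ h3
    | some x => exact ⟨0, (p, s), (q, s'), rfl, ⟨y, hs, h1⟩, h3⟩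

theorem big_of_Acc [Fintype T.σ] [Fintype σ] (u : List Sg) : ∀ a b : T.σ × σ, Acc T m u a b →
    ∃ c k, k < Fintype.card (T.σ × σ) ∧ Run (big T m) a u c ∧ Ch (eps T m) k c b := by
  induction u with
  | nil =>
    rintro a b ⟨k, hk⟩
    obtain ⟨k', h1, _, h2⟩ := Ch_short k hk
    exact ⟨a, k', h1, rfl, h2⟩
  | cons x u ih =>
    rintro a b ⟨k, c, d, hk, h1, h2⟩
    obtain ⟨k', h3, _, h4⟩ := Ch_short k hk
    obtain ⟨e, k'', h5, h6, h7⟩ := ih d b h2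
    exact ⟨e, k'', h5, ⟨d, ⟨k', c, h3, h4, h1⟩, h6⟩, h7⟩

theorem run_of_eps (k : ℕ) : ∀ a b : T.σ × σ, Ch (eps T m) k a b →
    ∃ v, T.Run a.1 [] v b.1 ∧ Run m a.2 v b.2 ∧ v.length ≤ k := by
  induction k with
  | zero =>
    intro a b h
    have h' : a = b := h
    subst h'
    exact ⟨[], Tr.Run.nil _, rfl, le_refl _⟩
  | succ k ih =>
    rintro a b ⟨c, ⟨y, h1, h2⟩, h3⟩
    obtain ⟨v, h4, h5, h6⟩ := ih c b h3
    refine ⟨y.toList ++ v, Tr.Run.cons (x := none) h1 h4, (Run_append _ _ _ _).mpr ⟨_, h2, h5⟩, ?_⟩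
    rw [List.length_append]
    have : y.toList.length ≤ 1 := by cases y <;> simp
    omega

theorem run_of_big [Fintype T.σ] [Fintype σ] (u : List Sg) : ∀ a b : T.σ × σ,
    Run (big T m) a u b → ∃ v, T.Run a.1 u v b.1 ∧ Run m a.2 v b.2 ∧
      v.length ≤ u.length * Fintype.card (T.σ × σ) := by
  induction u with
  | nil =>
    intro a b h
    have h' : a = b := h
    subst h'
    exact ⟨[], Tr.Run.nil _, rfl, by simp⟩
  | cons x u ih =>
    rintro a b ⟨c, ⟨k, d, h1, h2, ⟨y, h3, h3'⟩⟩, h4⟩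
    obtain ⟨v1, a1, a2, a3⟩ := run_of_eps T m k a d h2
    obtain ⟨v2, b1, b2, b3⟩ := ih c b h4
    refine ⟨v1 ++ (y.toList ++ v2), ?_, ?_, ?_⟩
    · exact a1.trans (Tr.Run.cons h3 b1)
    · exact (Run_append _ _ _ _).mpr ⟨_, a2, (Run_append _ _ _ _).mpr ⟨_, h3', b2⟩⟩
    · rw [List.length_append, List.length_append, List.length_cons, Nat.succ_mul]
      have : y.toList.length ≤ 1 := by cases y <;> simp
      omega

end

/-! ### numbers -/

theorem Bd_le (N m : ℕ) (hN : 1 ≤ N) : Bd N N m ≤ (8 * N ^ 3) ^ (m + 1) := by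
  have h0 : N ≤ N ^ 3 := by
    calc N = N ^ 1 := (pow_one N).symm
      _ ≤ N ^ 3 := Nat.pow_le_pow_right hN (by norm_num)
  have h0' : N ^ 2 ≤ N ^ 3 := Nat.pow_le_pow_right hN (by norm_num)
  have h1 : N ^ 2 * (2 * N + 2) + (2 * N + 1) ≤ 7 * N ^ 3 := by
    have : N ^ 2 * (2 * N + 2) = 2 * N ^ 3 + 2 * N ^ 2 := by ring
    omega
  induction m with
  | zero =>
    rw [zero_add, pow_one, Bd]
    omega
  | succ m ih =>
    have h2 : 1 ≤ (8 * N ^ 3) ^ (m + 1) := Nat.one_le_pow _ _ (by positivity)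
    calc Bd N N (m + 1) = (N ^ 2 * (2 * N + 2) + (2 * N + 1)) + N ^ 2 * Bd N N m := by
          rw [Bd]; ring
      _ ≤ 7 * N ^ 3 * (8 * N ^ 3) ^ (m + 1) + N ^ 3 * (8 * N ^ 3) ^ (m + 1) :=
        Nat.add_le_add (h1.trans (Nat.le_mul_of_pos_right _ h2)) (Nat.mul_le_mul h0' ih)
      _ = (8 * N ^ 3) ^ (m + 1 + 1) := by ring

theorem UB_le {N l : ℕ} (hN : 1 ≤ N) (hl : Nat.log 2 N ≤ l) :
    (UB N + 1) * N ≤ 2 ^ (4 * (l + 2) ^ 2) := by
  have hlt : N < 2 ^ (l + 1) :=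
    lt_of_lt_of_le (Nat.lt_pow_succ_log_self (by norm_num) _)
      (Nat.pow_le_pow_right (by norm_num) (by omega))
  have h1 : 8 * N ^ 3 ≤ 2 ^ (3 * (l + 2)) := by
    have : N ^ 3 ≤ (2 ^ (l + 1)) ^ 3 := Nat.pow_le_pow_left hlt.le 3
    calc 8 * N ^ 3 ≤ 8 * (2 ^ (l + 1)) ^ 3 := Nat.mul_le_mul (by norm_num) this
      _ = 2 ^ (3 * (l + 2)) := by ring
  have h2 : Bd N N (Nat.log 2 N + 1) ≤ 2 ^ (3 * (l + 2) ^ 2) := by
    calc Bd N N (Nat.log 2 N + 1) ≤ (8 * N ^ 3) ^ (Nat.log 2 N + 1 + 1) := Bd_le N _ hN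
      _ ≤ (8 * N ^ 3) ^ (l + 2) := Nat.pow_le_pow_right (by positivity) (by omega)
      _ ≤ (2 ^ (3 * (l + 2))) ^ (l + 2) := Nat.pow_le_pow_left h1 _
      _ = 2 ^ (3 * (l + 2) ^ 2) := by
        rw [← pow_mul]
        congr 1
        ring
  have h3 : 6 * N + 2 ≤ 2 ^ (3 * (l + 2) ^ 2) := by
    calc 6 * N + 2 ≤ 8 * 2 ^ (l + 1) := by omega
      _ = 2 ^ (l + 4) := by ring
      _ ≤ 2 ^ (3 * (l + 2) ^ 2) := Nat.pow_le_pow_right (by norm_num) (by nlinarith)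
  have h4 : UB N + 1 ≤ 2 ^ (3 * (l + 2) ^ 2 + 1) := by
    unfold UB
    rw [pow_succ]
    omega
  calc (UB N + 1) * N ≤ 2 ^ (3 * (l + 2) ^ 2 + 1) * 2 ^ (l + 1) := Nat.mul_le_mul h4 hlt.le
    _ = 2 ^ (3 * (l + 2) ^ 2 + 1 + (l + 1)) := (pow_add _ _ _).symm
    _ ≤ 2 ^ (4 * (l + 2) ^ 2) := Nat.pow_le_pow_right (by norm_num) (by nlinarith)

theorem big_pow (c : ℕ) : 4 * (2 * c + 20) ^ 2 + 1 < 2 ^ (c + 20) := by
  induction c with
  | zero => norm_num
  | succ c ih =>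
    have : c + 1 + 20 = (c + 20) + 1 := by ring
    rw [this, pow_succ 2 (c + 20)]
    have h1 : 4 * (2 * (c + 1) + 20) ^ 2 + 1 = 16 * c ^ 2 + 352 * c + 1937 := by ring
    have h2 : 4 * (2 * c + 20) ^ 2 + 1 = 16 * c ^ 2 + 320 * c + 1601 := by ring
    rw [h1]
    rw [h2] at ih
    omega

/-- The tree language is not in the cone of `Lang`. -/
theorem not_inCone_Tree : ¬ InCone Lang ({w | Tree w} : Language Y4) := by
  intro hcone
  obtain ⟨T, hT⟩ := hcone.exists_tr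
  have := T.fin
  obtain ⟨S, hS⟩ : ∃ S, Fintype.card T.σ = S := ⟨_, rfl⟩
  -- the depth of the tree
  obtain ⟨t, ht⟩ : ∃ t, t = S + 4 + 20 := ⟨_, rfl⟩
  obtain ⟨n, hn⟩ : ∃ n, n + 1 = 2 ^ t := ⟨2 ^ t - 1, Nat.sub_add_cancel Nat.one_le_two_pow⟩
  obtain ⟨v, hv, hrun⟩ := mst_exists (n := n) n 0 (by simp)
  obtain ⟨u, hu, p, q, hp, hq, hr⟩ := (hT v).1 hv
  have h1 := Acc_of_run T (mst n) hr _ _ hrun
  obtain ⟨c, k, hk, h2, h3⟩ := big_of_Acc T (mst n) u _ _ h1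
  obtain ⟨u', hu', a, b, ha, hb, h4, h5⟩ := upper (big T (mst n))
    (fun a => T.start a.1 ∧ a.2 = (0, false))
    (fun b => ∃ q k, T.acc q ∧ k < Fintype.card (T.σ × Ms n) ∧
      Ch (eps T (mst n)) k b (q, (0, true))) hu
    (p := (p, (0, false))) (q := c) ⟨hp, rfl⟩ ⟨q, k, hq, hk, h3⟩ h2
  obtain ⟨q', k', hq', hk', h6⟩ := hb
  obtain ⟨v1, b1, b2, b3⟩ := run_of_big T (mst n) u' a b h4
  obtain ⟨v2, c1, c2, c3⟩ := run_of_eps T (mst n) k' b _ h6
  have h7 : T.rel u' (v1 ++ v2) := by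
    refine ⟨a.1, q', ha.1, hq', ?_⟩
    have := b1.trans c1
    simpa using this
  have h8 : Tree (v1 ++ v2) := (hT _).2 ⟨u', hu', h7⟩
  have h9 : Run (mst n) (0, false) (v1 ++ v2) (0, true) := by
    rw [← ha.2]
    exact (Run_append _ _ _ _).mpr ⟨_, b2, c2⟩
  obtain ⟨-, -, h10⟩ := mst_long h8 _ _ rfl h9
  -- the contradiction
  obtain ⟨N, hN⟩ : ∃ N, Fintype.card (T.σ × Ms n) = N := ⟨_, rfl⟩
  have hN1 : 1 ≤ N := by
    rw [← hN]
    exact Fintype.card_pos_iff.mpr ⟨a⟩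
  have hN2 : N = S * (2 ^ t * 2) := by
    rw [← hN, Fintype.card_prod, hS, Fintype.card_prod, Fintype.card_fin, Fintype.card_bool, hn]
  have hlog : Nat.log 2 N ≤ S + t + 1 := by
    have : N < 2 ^ (S + t + 1 + 1) := by
      rw [hN2]
      calc S * (2 ^ t * 2) ≤ 2 ^ S * (2 ^ t * 2) := Nat.mul_le_mul_right _ Nat.lt_two_pow_self.le
        _ = 2 ^ (S + t + 1) := by ring
        _ < 2 ^ (S + t + 1 + 1) := Nat.pow_lt_pow_right (by norm_num) (by omega)
    exact Nat.lt_succ_iff.mp (Nat.log_lt_of_lt_pow (by omega) this)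
  have h11 : (v1 ++ v2).length ≤ (UB N + 1) * N := by
    rw [List.length_append, Nat.succ_mul]
    rw [hN] at b3 hk' h5
    have := Nat.mul_le_mul_right N h5
    omega
  have h12 : 2 ^ n ≤ 2 ^ (4 * (S + t + 1 + 2) ^ 2) := by
    have h13 : 2 ^ (n - ((0 : Fin (n + 1)) : ℕ)) ≤ (v1 ++ v2).length := h10
    simp only [Fin.val_zero, Nat.sub_zero] at h13
    exact h13.trans (h11.trans (UB_le hN1 hlog))
  have h14 : n ≤ 4 * (S + t + 1 + 2) ^ 2 := (Nat.pow_le_pow_iff_right (by norm_num)).mp h12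
  have h15 := big_pow (S + 4)
  have h16 : S + t + 1 + 2 ≤ 2 * (S + 4) + 20 := by omega
  have h17 : (S + t + 1 + 2) ^ 2 ≤ (2 * (S + 4) + 20) ^ 2 := Nat.pow_le_pow_left h16 2
  rw [← ht, ← hn] at h15
  omega

end Pool.Agent.L0h78.Q
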