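import Pool.Agent.L0h78.QLang

set_option autoImplicit false

/-!
# Automata which accept a word of the language accept a short one
-/

namespace Pool.Agent.L0h78.Q

open Pool.Agent.Helper178.Idx (Ch Ch_short Run Run_append Run_short Run_block Run_block_long)

theorem W_first {k : ℕ} {w : List Sg} (h : W k w) :
    ∃ b j β, w = X k ++ some b :: (X j ++ β) ∧ BR β ∧ ok b k j := by
  induction h with
  | leaf k => exact ⟨.e, k, [], by simp, BR_nil, rfl⟩
  | heavy t k w _ ih =>
    obtain ⟨b, j, β, rfl, _, _⟩ := ih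
    exact ⟨.h t, k, some b :: (X j ++ β) ++ some (.g t) :: X k, by simp, BR_cons _ _, rfl⟩
  | left j u w _ _ ih1 _ =>
    obtain ⟨b, j', β, rfl, _, _⟩ := ih1
    exact ⟨.l, j, some b :: (X j' ++ β) ++ some .r :: w, by simp, BR_cons _ _, rfl⟩
  | right j w u _ _ ih1 _ =>
    obtain ⟨b, j', β, rfl, h1, h2⟩ := ih1
    exact ⟨b, j', β ++ some .l :: (u ++ some .r :: X (2 * j + 1)), by simp, BR_suf _ _ h1, h2⟩

theorem W_start {k : ℕ} {w : List Sg} (h : W k w) : ∃ β, w = X k ++ β ∧ BR β := by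
  obtain ⟨b, j, β, rfl, _, _⟩ := W_first h
  exact ⟨_, rfl, BR_cons _ _⟩

theorem W_end {k : ℕ} {w : List Sg} (h : W k w) : ∃ α, w = α ++ X k ∧ AL α := by
  induction h with
  | leaf k => exact ⟨X k ++ [some .e], by simp, AL_append _ _⟩
  | heavy t k w _ _ =>
    exact ⟨(X k ++ some (.h t) :: w) ++ [some (.g t)], by simp, AL_append _ _⟩
  | left j u w _ _ _ ih =>
    obtain ⟨α, rfl, h1⟩ := ih
    exact ⟨(X (2 * j + 1) ++ some .l :: u) ++ some .r :: α, by simp, AL_pre _ _ h1⟩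
  | right j w u _ _ _ _ =>
    exact ⟨(w ++ some .l :: u) ++ [some .r], by simp, AL_append _ _⟩

/-- A nested word without violations has fitting labels. -/
theorem D_W {w : List Sg} (h : D w) : ¬ V w → ∃ k, W k w := by
  induction h with
  | leaf i j =>
    intro hV
    have : i = j := by
      by_contra hne
      exact hV ⟨[], i, .e, j, [], by simp, AL_nil, BR_nil, hne⟩
    subst this
    exact ⟨i, .leaf i⟩
  | heavy t i j w _ ih =>
    intro hV
    obtain ⟨k, hk⟩ := ih fun h => hV ((h.suf (.g t) (X j)).pre (X i) (.h t))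
    obtain ⟨β, hβ, hβ'⟩ := W_start hk
    obtain ⟨α, hα, hα'⟩ := W_end hk
    have h1 : i = k := by
      by_contra hne
      refine hV ⟨[], i, .h t, k, β ++ some (.g t) :: X j, ?_, AL_nil, BR_suf _ _ hβ', hne⟩
      rw [hβ]; simp
    have h2 : k = j := by
      by_contra hne
      refine hV ⟨X i ++ some (.h t) :: α, k, .g t, j, [], ?_, AL_pre _ _ hα', BR_nil, hne⟩
      rw [hα]; simp
    subst h1
    subst h2
    exact ⟨_, .heavy t _ _ hk⟩
  | left i u w _ _ ih1 ih2 =>
    intro hV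
    obtain ⟨k1, hk1⟩ := ih1 fun h => hV ((h.suf .r w).pre (X i) .l)
    obtain ⟨k2, hk2⟩ := ih2 fun h => hV (by
      have := h.pre (X i ++ some .l :: u) .r
      simpa using this)
    obtain ⟨β, hβ, hβ'⟩ := W_start hk1
    obtain ⟨α, hα, hα'⟩ := W_end hk1
    obtain ⟨γ, hγ, hγ'⟩ := W_start hk2
    have h1 : i = 2 * k1 + 1 := by
      by_contra hne
      refine hV ⟨[], i, .l, k1, β ++ some .r :: w, ?_, AL_nil, BR_suf _ _ hβ', hne⟩
      rw [hβ]; simp
    have h2 : k2 = 2 * k1 + 1 := by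
      by_contra hne
      refine hV ⟨X i ++ some .l :: α, k1, .r, k2, γ, ?_, AL_pre _ _ hα', hγ', hne⟩
      rw [hα, hγ]; simp
    subst h1
    subst h2
    exact ⟨_, .left k1 u w hk1 hk2⟩
  | right j w u _ _ ih2 ih1 =>
    intro hV
    obtain ⟨k1, hk1⟩ := ih1 fun h => hV (by
      have := (h.suf .r (X j)).pre w .l
      exact this)
    obtain ⟨k2, hk2⟩ := ih2 fun h => hV (h.suf .l (u ++ some .r :: X j))
    obtain ⟨β, hβ, hβ'⟩ := W_start hk1
    obtain ⟨α, hα, hα'⟩ := W_end hk1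
    obtain ⟨γ, hγ, hγ'⟩ := W_end hk2
    have h1 : k2 = 2 * k1 + 1 := by
      by_contra hne
      refine hV ⟨γ, k2, .l, k1, β ++ some .r :: X j, ?_, hγ', BR_suf _ _ hβ', hne⟩
      rw [hβ, hγ]; simp
    have h2 : j = 2 * k1 + 1 := by
      by_contra hne
      refine hV ⟨w ++ some .l :: α, k1, .r, j, [], ?_, AL_pre _ _ hα', BR_nil, hne⟩
      rw [hα]; simp
    subst h1
    subst h2
    exact ⟨_, .right k1 w u hk2 hk1⟩

theorem W.toD {k : ℕ} {w : List Sg} (h : W k w) : D w := by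
  induction h with
  | leaf k => exact .leaf k k
  | heavy t k w _ ih => exact .heavy t k k w ih
  | left j u w _ _ ih1 ih2 => exact .left _ u w ih1 ih2
  | right j w u _ _ ih1 ih2 => exact .right _ w u ih1 ih2

/-! ### short violations -/

theorem pair_short {σ : Type} [Fintype σ] {st : σ → Sg → σ → Prop} {b : Br} {i j : ℕ}
    {p1 p2 q1 q2 : σ} (h1 : Run st p1 (X i) p2) (h2 : Run st q1 (X j) q2) (h : ¬ ok b i j) :
    ∃ i' j', ¬ ok b i' j' ∧ Run st p1 (X i') p2 ∧ Run st q1 (X j') q2 ∧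
      i' < 2 * Fintype.card σ ∧ j' < 2 * Fintype.card σ := by
  by_cases hi : Fintype.card σ ≤ i
  · obtain ⟨j', _, hj1, _, hj2⟩ := Run_block h2 0 (Nat.zero_le _)
    obtain ⟨i1, _, hi1, _, hi2⟩ := Run_block h1 0 (Nat.zero_le _)
    obtain ⟨i2, hi3, hi4, _, hi5⟩ := Run_block h1 (Fintype.card σ) hi
    by_cases ho : ok b i1 j'
    · refine ⟨i2, j', fun ho' => ?_, hi5, hj2, by omega, by omega⟩
      have := ok_left ho ho'
      omega
    · exact ⟨i1, j', ho, hi2, hj2, by omega, by omega⟩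
  · by_cases hj : Fintype.card σ ≤ j
    · obtain ⟨j1, _, hj1, _, hj2⟩ := Run_block h2 0 (Nat.zero_le _)
      obtain ⟨j2, hj3, hj4, _, hj5⟩ := Run_block h2 (Fintype.card σ) hj
      by_cases ho : ok b i j1
      · refine ⟨i, j2, fun ho' => ?_, h1, hj5, by omega, by omega⟩
        have := ok_right ho ho'
        omega
      · exact ⟨i, j1, ho, h1, hj2, by omega, by omega⟩
    · exact ⟨i, j, h, h1, h2, by omega, by omega⟩

theorem AL_short {σ : Type} [Fintype σ] {st : σ → Sg → σ → Prop} {α : List Sg} {p q : σ}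
    (h : AL α) (hr : Run st p α q) :
    ∃ α', AL α' ∧ Run st p α' q ∧ α'.length ≤ Fintype.card σ := by
  rcases AL_cases h with rfl | ⟨a, c, rfl⟩
  · exact ⟨[], h, hr, by simp⟩
  · obtain ⟨s, h1, h2⟩ := (Run_append _ _ _ _).mp hr
    obtain ⟨a', h3, h4⟩ := Run_short h1
    refine ⟨a' ++ [some c], AL_append _ _, (Run_append _ _ _ _).mpr ⟨s, h4, h2⟩, ?_⟩
    simp; omega

theorem BR_short {σ : Type} [Fintype σ] {st : σ → Sg → σ → Prop} {β : List Sg} {p q : σ}
    (h : BR β) (hr : Run st p β q) :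
    ∃ β', BR β' ∧ Run st p β' q ∧ β'.length ≤ Fintype.card σ := by
  rcases BR_cases h with rfl | ⟨c, b, rfl⟩
  · exact ⟨[], h, hr, by simp⟩
  · obtain ⟨s, h1, h2⟩ := hr
    obtain ⟨b', h3, h4⟩ := Run_short h2
    refine ⟨some c :: b', BR_cons _ _, ⟨s, h1, h4⟩, ?_⟩
    simp; omega

theorem V_short {σ : Type} [Fintype σ] {st : σ → Sg → σ → Prop} {w : List Sg} {p q : σ}
    (hw : V w) (h : Run st p w q) :
    ∃ w', V w' ∧ Run st p w' q ∧ w'.length ≤ 6 * Fintype.card σ + 1 := by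
  obtain ⟨α, i, b, j, β, rfl, h1, h2, h3⟩ := hw
  obtain ⟨s1, r1, h⟩ := (Run_append _ _ _ _).mp h
  obtain ⟨s2, r2, s3, r3, h⟩ := (Run_append _ _ _ _).mp h
  obtain ⟨s4, r4, r5⟩ := (Run_append _ _ _ _).mp h
  obtain ⟨i', j', a1, a2, a3, a4, a5⟩ := pair_short r2 r4 h3
  obtain ⟨α', b1, b2, b3⟩ := AL_short h1 r1
  obtain ⟨β', c1, c2, c3⟩ := BR_short h2 r5
  refine ⟨_, ⟨α', i', b, j', β', rfl, b1, c1, a1⟩, ?_, ?_⟩
  · exact (Run_append _ _ _ _).mpr ⟨s1, b2, (Run_append _ _ _ _).mpr ⟨s2, a2, s3, r3,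
      (Run_append _ _ _ _).mpr ⟨s4, a3, c2⟩⟩⟩
  · simp only [List.length_append, List.length_cons, List.length_replicate]
    omega

/-! ### short words with fitting labels -/

/-- The bound; `N` is the number of states, `K` bounds the outer label and `2 ^ m` is at least the
outer label plus one. -/
def Bd (N K : ℕ) : ℕ → ℕ
  | 0 => N ^ 2 * (2 * K + 2) + (2 * K + 1)
  | m + 1 => N ^ 2 * (2 * K + 2 + Bd N K m) + (2 * K + 1)

theorem W_short {σ : Type} [Fintype σ] {st : σ → Sg → σ → Prop} (K m : ℕ) :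
    ∀ (k : ℕ) (w : List Sg) (p q : σ), k ≤ K → k + 1 ≤ 2 ^ m → W k w → Run st p w q →
      ∃ w', W k w' ∧ Run st p w' q ∧ w'.length ≤ Bd (Fintype.card σ) K m := by
  set N := Fintype.card σ with hN
  -- one level
  have level : ∀ (C : ℕ) (k : ℕ), k ≤ K → 2 * K + 2 ≤ C →
      (∀ j u p q, k = 2 * j + 1 → W j u → Run st p u q →
        ∃ u', W j u' ∧ Run st p u' q ∧ u'.length + (2 * K + 2) ≤ C) →
      ∀ w p q, W k w → Run st p w q →
        ∃ w', W k w' ∧ Run st p w' q ∧ w'.length ≤ N ^ 2 * C + (2 * K + 1) := by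
    intro C k hk hC hsub
    let E : σ × σ → σ × σ → Prop := fun s t => ∃ A B : List Sg,
      (∀ w', W k w' → W k (A ++ (w' ++ B))) ∧ Run st s.1 A t.1 ∧ Run st t.2 B s.2 ∧
        A.length + B.length ≤ C
    have toChain : ∀ (k' : ℕ) (w : List Sg), W k' w → k' = k → ∀ p q, Run st p w q →
        ∃ n p' q', Ch E n (p, q) (p', q') ∧ Run st p' (X k ++ some .e :: X k) q' := by
      intro k' w hw
      induction hw with
      | leaf k' =>
        intro hk' p q hr
        subst hk'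
        exact ⟨0, p, q, rfl, hr⟩
      | heavy t k' w _ ih =>
        intro hk' p q hr
        subst hk'
        obtain ⟨s1, g1, s2, g2, hr⟩ := (Run_append _ _ _ _).mp hr
        obtain ⟨s3, g3, g4⟩ := (Run_append _ _ _ _).mp hr
        obtain ⟨n, p', q', h1, h2⟩ := ih rfl s2 s3 g3
        refine ⟨n + 1, p', q', ⟨(s2, s3), ⟨X k' ++ [some (.h t)], some (.g t) :: X k', ?_, ?_, g4,
          ?_⟩, h1⟩, h2⟩
        · intro w' hw'
          have := W.heavy t k' w' hw'
          simpa using this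
        · exact (Run_append _ _ _ _).mpr ⟨s1, g1, s2, g2, rfl⟩
        · simp
          omega
      | left j u w hu _ _ ih =>
        intro hk' p q hr
        subst hk'
        obtain ⟨s1, g1, s2, g2, hr⟩ := (Run_append _ _ _ _).mp hr
        obtain ⟨s3, g3, s4, g4, g5⟩ := (Run_append _ _ _ _).mp hr
        obtain ⟨u', a1, a2, a3⟩ := hsub j u s2 s3 rfl hu g3
        obtain ⟨n, p', q', h1, h2⟩ := ih rfl s4 q g5
        refine ⟨n + 1, p', q', ⟨(s4, q), ⟨X (2 * j + 1) ++ some .l :: (u' ++ [some .r]), [], ?_,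
          ?_, rfl, ?_⟩, h1⟩, h2⟩
        · intro w' hw'
          have := W.left j u' w' a1 hw'
          simpa using this
        · exact (Run_append _ _ _ _).mpr ⟨s1, g1, s2, g2, (Run_append _ _ _ _).mpr
            ⟨s3, a2, s4, g4, rfl⟩⟩
        · simp
          omega
      | right j w u _ hu ih _ =>
        intro hk' p q hr
        subst hk'
        obtain ⟨s1, g1, s2, g2, hr⟩ := (Run_append _ _ _ _).mp hr
        obtain ⟨s3, g3, s4, g4, g5⟩ := (Run_append _ _ _ _).mp hr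
        obtain ⟨u', a1, a2, a3⟩ := hsub j u s2 s3 rfl hu g3
        obtain ⟨n, p', q', h1, h2⟩ := ih rfl p s1 g1
        refine ⟨n + 1, p', q', ⟨(p, s1), ⟨[], some .l :: (u' ++ some .r :: X (2 * j + 1)), ?_,
          rfl, ?_, ?_⟩, h1⟩, h2⟩
        · intro w' hw'
          have := W.right j w' u' hw' a1
          simpa using this
        · exact ⟨s2, g2, (Run_append _ _ _ _).mpr ⟨s3, a2, s4, g4, g5⟩⟩
        · simp
          omega
    have ofChain : ∀ (n : ℕ) (p q p' q' : σ), Ch E n (p, q) (p', q') →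
        Run st p' (X k ++ some .e :: X k) q' →
        ∃ w', W k w' ∧ Run st p w' q ∧ w'.length ≤ n * C + (2 * K + 1) := by
      intro n
      induction n with
      | zero =>
        intro p q p' q' h h'
        have h2 : (p, q) = (p', q') := h
        rw [Prod.mk.injEq] at h2
        obtain ⟨rfl, rfl⟩ := h2
        refine ⟨_, .leaf k, h', ?_⟩
        simp; omega
      | succ n ih =>
        rintro p q p' q' ⟨⟨s, t⟩, ⟨A, B, h1, h2, h3, h4⟩, h5⟩ h'
        obtain ⟨w', a1, a2, a3⟩ := ih s t p' q' h5 h'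
        refine ⟨_, h1 w' a1, (Run_append _ _ _ _).mpr ⟨s, h2, (Run_append _ _ _ _).mpr
          ⟨t, a2, h3⟩⟩, ?_⟩
        simp only [List.length_append]
        rw [Nat.succ_mul]
        omega
    intro w p q hw hr
    obtain ⟨n, p', q', h1, h2⟩ := toChain k w hw rfl p q hr
    obtain ⟨n', h3, _, h4⟩ := Ch_short _ h1
    obtain ⟨w', h5, h6, h7⟩ := ofChain n' p q p' q' h4 h2
    refine ⟨w', h5, h6, h7.trans ?_⟩
    rw [Fintype.card_prod, ← pow_two, ← hN] at h3
    have := Nat.mul_le_mul_right C h3.le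
    omega
  induction m with
  | zero =>
    intro k w p q hk hkm hw hr
    refine level (2 * K + 2) k hk (le_refl _) ?_ w p q hw hr
    intro j u p q hj _ _
    simp at hkm
    omega
  | succ m ih =>
    intro k w p q hk hkm hw hr
    refine level (2 * K + 2 + Bd N K m) k hk (by omega) ?_ w p q hw hr
    intro j u p q hj hu hru
    rw [pow_succ] at hkm
    obtain ⟨u', h1, h2, h3⟩ := ih j u p q (by omega) (by omega) hu hru
    exact ⟨u', h1, h2, by omega⟩

/-- The upper bound for the lengths of short words. -/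
def UB (N : ℕ) : ℕ := 6 * N + 1 + Bd N N (Nat.log 2 N + 1)

/-- If a finite automaton has an accepting run on a word of `Lang`, it has one on a short word of
`Lang`. -/
theorem upper {σ : Type} [Fintype σ] (st : σ → Sg → σ → Prop) (I F : σ → Prop) {w : List Sg}
    {p q : σ} (hw : w ∈ Lang) (hp : I p) (hq : F q) (hr : Run st p w q) :
    ∃ w' ∈ Lang, ∃ p' q', I p' ∧ F q' ∧ Run st p' w' q' ∧ w'.length ≤ UB (Fintype.card σ) := by
  by_cases hV : ∃ w p q, V w ∧ I p ∧ F q ∧ Run st p w q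
  · obtain ⟨w, p, q, hwV, hp, hq, hr⟩ := hV
    obtain ⟨w', h1, h2, h3⟩ := V_short hwV hr
    refine ⟨w', Or.inr h1, p, q, hp, hq, h2, ?_⟩
    unfold UB
    omega
  · have hV' : ∀ w p q, I p → F q → Run st p w q → ¬ V w := by
      intro w p q hp hq hr h
      exact hV ⟨w, p, q, h, hp, hq, hr⟩
    have hD : D w := by
      rcases hw with h | h
      · exact h
      · exact absurd h (hV' w p q hp hq hr)
    obtain ⟨k, hk⟩ := D_W hD (hV' w p q hp hq hr)
    have hkN : k < Fintype.card σ := by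
      by_contra hlt
      obtain ⟨b, j, β, rfl, h1, h2⟩ := W_first hk
      obtain ⟨s, h3, h4⟩ := (Run_append _ _ _ _).mp hr
      obtain ⟨k', h5, h6⟩ := Run_block_long h3 (not_lt.mp hlt) (k + 1)
      refine hV' (X k' ++ some b :: (X j ++ β)) p q hp hq ((Run_append _ _ _ _).mpr ⟨s, h6, h4⟩)
        ⟨[], k', b, j, β, rfl, AL_nil, h1, fun h => ?_⟩
      have := ok_left h h2
      omega
    obtain ⟨w', h1, h2, h3⟩ := W_short (st := st) (Fintype.card σ)
      (Nat.log 2 (Fintype.card σ) + 1) k w p q hkN.le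
      (le_trans (by omega) (Nat.lt_pow_succ_log_self (by norm_num) _).le) hk hr
    refine ⟨w', Or.inl h1.toD, p, q, hp, hq, h2, ?_⟩
    unfold UB
    omega

end Pool.Agent.L0h78.Q
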