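import Pool.Agent.L0h78.QCone

set_option autoImplicit false
set_option linter.unusedSectionVars false

/-!
# Substitution into a linear language, one level higher
-/

namespace Pool.Agent.L0h78.Q

open Pool.Agent.Helper288.Cone
open Pool.Agent.H643R2.RunLem (run_split_in)

/-- Actions: add a letter on the left, on the right, or nothing. -/
inductive Act (Z : Type)
  | L (z : Z)
  | R (z : Z)
  | E

/-- The letter on the left. -/
def Act.lz {Z : Type} : Act Z → Option Z
  | .L z => some z
  | _ => none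

/-- The letter on the right. -/
def Act.rz {Z : Type} : Act Z → Option Z
  | .R z => some z
  | _ => none

/-- The words generated by a linear device. -/
inductive LD {Z Q : Type} (st : Q → Bool → Q → Act Z → Prop) (fi : Q → Prop) : Q → List Z → Prop
  | fin (q : Q) : fi q → LD st fi q []
  | step (q : Q) (t : Bool) (q' : Q) (a : Act Z) (w : List Z) : st q t q' a → LD st fi q' w →
      LD st fi q (a.lz.toList ++ (w ++ a.rz.toList))

theorem Ne_level {m : ℕ} {u : List Ga} (h : Ne m u) : ∀ γ ∈ u, γ.2 ≤ m := by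
  induction h with
  | leaf m => simp
  | heavy t m w _ ih =>
    intro γ hγ
    simp only [List.mem_cons, List.mem_append, List.not_mem_nil, or_false] at hγ
    rcases hγ with rfl | h | rfl
    · exact le_refl _
    · exact ih γ h
    · exact le_refl _
  | left m u w _ _ ih1 ih2 =>
    intro γ hγ
    simp only [List.mem_cons, List.mem_append] at hγ
    rcases hγ with rfl | h | rfl | h
    · exact le_refl _
    · exact (ih1 γ h).trans (Nat.le_succ _)
    · exact le_refl _
    · exact ih2 γ h
  | right m w u _ _ ih1 ih2 =>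
    intro γ hγ
    simp only [List.mem_cons, List.mem_append, List.not_mem_nil, or_false] at hγ
    rcases hγ with h | rfl | h | rfl
    · exact ih1 γ h
    · exact le_refl _
    · exact (ih2 γ h).trans (Nat.le_succ _)
    · exact le_refl _

theorem Ne_not_mem {m : ℕ} {u : List Ga} (h : Ne m u) : ((.r, m + 1) : Ga) ∉ u := by
  intro h'
  have := Ne_level h _ h'
  simp at this

section

variable {Y Z Q : Type} (T : Z → Tr Ga Y) (m : ℕ) (st : Q → Bool → Q → Act Z → Prop) (fi : Q → Prop)

/-- The language of the letter `z`. -/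
def So (z : Z) : Language Y := {v | ∃ u, Ne m u ∧ (T z).rel u v}

/-- The language of an optional letter. -/
def Op : Option Z → List Y → Prop
  | none, v => v = []
  | some z, v => v ∈ So T m z

/-- The substituted language of a state. -/
def Sb (q : Q) (v : List Y) : Prop := ∃ w, LD st fi q w ∧ v ∈ (w.map (So T m)).prod

/-- States of the transducer: `false` on the left side, `true` on the right side. -/
abbrev StQ (Q : Type) (T : Z → Tr Ga Y) := (Bool × Q × Option Z) ⊕ (Bool × Q × (Σ z, (T z).σ))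

/-- Steps of the transducer. -/
inductive TS : StQ Q T → Option Ga → Option Y → StQ Q T → Prop
  | openH (q : Q) (t : Bool) (q' : Q) (a : Act Z) : st q t q' a →
      TS (.inl (false, q, none)) (some (.h t, m + 1)) none (.inl (false, q', a.lz))
  | center (q : Q) : fi q →
      TS (.inl (false, q, none)) (some (.e, m + 1)) none (.inl (true, q, none))
  | closeH (q : Q) (t : Bool) (q' : Q) (a : Act Z) : st q t q' a →
      TS (.inl (true, q', a.rz)) (some (.g t, m + 1)) none (.inl (true, q, none))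
  | inL (q : Q) (z : Z) (p : (T z).σ) : (T z).start p →
      TS (.inl (false, q, some z)) (some (.l, m + 1)) none (.inr (false, q, ⟨z, p⟩))
  | outL (q : Q) (z : Z) (p : (T z).σ) : (T z).acc p →
      TS (.inr (false, q, ⟨z, p⟩)) (some (.r, m + 1)) none (.inl (false, q, none))
  | inR (q : Q) (z : Z) (p : (T z).σ) : (T z).start p →
      TS (.inl (true, q, none)) (some (.l, m + 1)) none (.inr (true, q, ⟨z, p⟩))
  | outR (q : Q) (z : Z) (p : (T z).σ) : (T z).acc p →
      TS (.inr (true, q, ⟨z, p⟩)) (some (.r, m + 1)) none (.inl (true, q, some z))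
  | sim (s : Bool) (q : Q) (z : Z) (p : (T z).σ) (x : Option Ga) (y : Option Y) (p' : (T z).σ) :
      (T z).step p x y p' → x ≠ some (.r, m + 1) →
      TS (.inr (s, q, ⟨z, p⟩)) x y (.inr (s, q, ⟨z, p'⟩))

/-- The transducer. -/
def TT [Fintype Q] [Fintype Z] (q0 : Q) : Tr Ga Y where
  σ := StQ Q T
  fin := by
    have := fun z => (T z).fin
    exact inferInstance
  step := TS T m st fi
  start := fun p => p = .inl (false, q0, none)
  acc := fun p => p = .inl (true, q0, none)

variable [Fintype Q] [Fintype Z] (q0 : Q)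

theorem sim_run {z : Z} {p p' : (T z).σ} {u : List Ga} {v : List Y} (h : (T z).Run p u v p')
    (s : Bool) (q : Q) : ((.r, m + 1) : Ga) ∉ u →
      (TT T m st fi q0).Run (.inr (s, q, ⟨z, p⟩)) u v (.inr (s, q, ⟨z, p'⟩)) := by
  induction h with
  | nil p => intro _; exact Tr.Run.nil _
  | @cons p q1 r x y u v hs hr ih =>
    intro hu
    refine Tr.Run.cons (T := TT T m st fi q0) (.sim s q z p x y q1 hs ?_) (ih fun h => hu ?_)
    · rintro rfl
      exact hu (by simp)
    · exact List.mem_append_right _ h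

theorem sim_inv {x y : (TT T m st fi q0).σ} {u : List Ga} {v : List Y}
    (h : (TT T m st fi q0).Run x u v y) : ∀ (s : Bool) (q : Q) (z : Z) (p : (T z).σ),
      x = .inr (s, q, ⟨z, p⟩) → ((.r, m + 1) : Ga) ∉ u →
      ∃ p', y = .inr (s, q, ⟨z, p'⟩) ∧ (T z).Run p u v p' := by
  induction h with
  | nil x => rintro s q z p rfl _; exact ⟨p, rfl, Tr.Run.nil _⟩
  | @cons x x1 y a b u v hs hr ih =>
    rintro s q z p rfl hu
    have hs' : TS T m st fi (.inr (s, q, ⟨z, p⟩)) a b x1 := hs
    cases hs' with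
    | outL _ _ _ _ => exact absurd (by simp) hu
    | outR _ _ _ _ => exact absurd (by simp) hu
    | sim _ _ _ _ _ _ p' h1 h2 =>
      obtain ⟨p'', h3, h4⟩ := ih s q z p' rfl fun h => hu (List.mem_append_right _ h)
      exact ⟨p'', h3, Tr.Run.cons h1 h4⟩

theorem out_inv {x y : (TT T m st fi q0).σ} {u : List Ga} {v : List Y}
    (h : (TT T m st fi q0).Run x u v y) : ∀ (s : Bool) (q : Q) (z : Z) (p : (T z).σ)
      (w : List Ga), x = .inr (s, q, ⟨z, p⟩) → u = (.r, m + 1) :: w →
      ∃ p' v1 v2, (T z).Run p [] v1 p' ∧ (T z).acc p' ∧ v = v1 ++ v2 ∧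
        (TT T m st fi q0).Run (.inl (s, q, if s then some z else none)) w v2 y := by
  induction h with
  | nil x => rintro s q z p w _ h; exact absurd h (by simp)
  | @cons x x1 y a b u v hs hr ih =>
    rintro s q z p w rfl hu
    have hs' : TS T m st fi (.inr (s, q, ⟨z, p⟩)) a b x1 := hs
    cases hs' with
    | outL _ _ _ h1 =>
      have hu' : u = w := by simpa using hu
      subst hu'
      exact ⟨p, [], v, Tr.Run.nil _, h1, rfl, hr⟩
    | outR _ _ _ h1 =>
      have hu' : u = w := by simpa using hu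
      subst hu'
      exact ⟨p, [], v, Tr.Run.nil _, h1, rfl, hr⟩
    | sim _ _ _ _ _ _ p' h1 h2 =>
      cases a with
      | some a =>
        have : a = (.r, m + 1) := by
          have := hu
          rw [Option.toList_some, List.singleton_append, List.cons.injEq] at this
          exact this.1
        rw [this] at h2
        exact absurd rfl h2
      | none =>
        obtain ⟨p'', v1, v2, h3, h4, rfl, h5⟩ := ih s q z p' w rfl (by simpa using hu)
        exact ⟨p'', b.toList ++ v1, v2, Tr.Run.cons (x := none) h1 h3, h4, by simp, h5⟩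

theorem inl_gen {x' y : (TT T m st fi q0).σ} {u : List Ga} {v : List Y}
    (h : (TT T m st fi q0).Run x' u v y) : ∀ x : Bool × Q × Option Z, x' = .inl x →
      (u = [] → y = .inl x ∧ v = []) ∧
      ∀ (γ : Ga) (w : List Ga), u = γ :: w →
        ∃ x1, TS T m st fi (.inl x) (some γ) none x1 ∧ (TT T m st fi q0).Run x1 w v y := by
  induction h with
  | nil x' =>
    rintro x rfl
    exact ⟨fun _ => ⟨rfl, rfl⟩, fun γ w h => absurd h (by simp)⟩
  | @cons x1 x2 y a b u v hs hr _ =>
    rintro x rfl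
    have hs' : TS T m st fi (.inl x) a b x2 := hs
    cases hs' with
    | openH q t q' a h =>
      refine ⟨fun h => absurd h (by simp), ?_⟩
      intro γ w hu
      simp only [Option.toList_some, List.singleton_append, List.cons.injEq] at hu
      obtain ⟨rfl, rfl⟩ := hu
      exact ⟨_, .openH q t q' a h, hr⟩
    | center q h =>
      refine ⟨fun h => absurd h (by simp), ?_⟩
      intro γ w hu
      simp only [Option.toList_some, List.singleton_append, List.cons.injEq] at hu
      obtain ⟨rfl, rfl⟩ := hu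
      exact ⟨_, .center q h, hr⟩
    | closeH q t q' a h =>
      refine ⟨fun h => absurd h (by simp), ?_⟩
      intro γ w hu
      simp only [Option.toList_some, List.singleton_append, List.cons.injEq] at hu
      obtain ⟨rfl, rfl⟩ := hu
      exact ⟨_, .closeH q t q' a h, hr⟩
    | inL q z p h =>
      refine ⟨fun h => absurd h (by simp), ?_⟩
      intro γ w hu
      simp only [Option.toList_some, List.singleton_append, List.cons.injEq] at hu
      obtain ⟨rfl, rfl⟩ := hu
      exact ⟨_, .inL q z p h, hr⟩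
    | inR q z p h =>
      refine ⟨fun h => absurd h (by simp), ?_⟩
      intro γ w hu
      simp only [Option.toList_some, List.singleton_append, List.cons.injEq] at hu
      obtain ⟨rfl, rfl⟩ := hu
      exact ⟨_, .inR q z p h, hr⟩

theorem inl_nil {x : Bool × Q × Option Z} {v : List Y} {y : (TT T m st fi q0).σ}
    (h : (TT T m st fi q0).Run (.inl x) [] v y) : y = .inl x ∧ v = [] :=
  (inl_gen T m st fi q0 h x rfl).1 rfl

theorem inl_cons {x : Bool × Q × Option Z} {γ : Ga} {w : List Ga} {v : List Y}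
    {y : (TT T m st fi q0).σ} (h : (TT T m st fi q0).Run (.inl x) (γ :: w) v y) :
    ∃ x1, TS T m st fi (.inl x) (some γ) none x1 ∧ (TT T m st fi q0).Run x1 w v y :=
  (inl_gen T m st fi q0 h x rfl).2 γ w rfl

theorem Sb_nil {q : Q} (h : fi q) : Sb T m st fi q [] :=
  ⟨[], .fin q h, by simp⟩

theorem prod_append {w1 w2 : List Z} {v1 v2 : List Y} (h1 : v1 ∈ (w1.map (So T m)).prod)
    (h2 : v2 ∈ (w2.map (So T m)).prod) : v1 ++ v2 ∈ ((w1 ++ w2).map (So T m)).prod := by
  rw [List.map_append, List.prod_append, Language.mem_mul]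
  exact ⟨v1, h1, v2, h2, rfl⟩

theorem Op_prod {o : Option Z} {v : List Y} : Op T m o v ↔ v ∈ (o.toList.map (So T m)).prod := by
  cases o with
  | none => simp [Op]
  | some z => simp [Op]

theorem Sb_step {q q' : Q} {t : Bool} {a : Act Z} {v1 v2 v3 : List Y} (h : st q t q' a)
    (h1 : Op T m a.lz v1) (h2 : Sb T m st fi q' v2) (h3 : Op T m a.rz v3) :
    Sb T m st fi q (v1 ++ (v2 ++ v3)) := by
  obtain ⟨w, h4, h5⟩ := h2
  exact ⟨_, .step q t q' a w h h4, prod_append T m ((Op_prod T m).1 h1)
    (prod_append T m h5 ((Op_prod T m).1 h3))⟩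

/-- What a run over a nested word from the left side to the right side means. -/
def Sem (q : Q) (o o' : Option Z) (v : List Y) : Prop :=
  ∃ v1 v2 v3, v = v1 ++ (v2 ++ v3) ∧ Op T m o v1 ∧ Sb T m st fi q v2 ∧ Op T m o' v3

theorem sound (hfun : ∀ q t q1 a1 q2 a2, st q t q1 a1 → st q t q2 a2 → q1 = q2 ∧ a1 = a2)
    {k : ℕ} {U : List Ga} (h : Ne k U) : k = m + 1 →
    ∀ (x : Bool × Q × Option Z) (v : List Y) (y : (TT T m st fi q0).σ),
      (TT T m st fi q0).Run (.inl x) U v y →
      ∃ q o q' o', x = (false, q, o) ∧ y = .inl (true, q', o') ∧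
        (q = q' → Sem T m st fi q o o' v) := by
  induction h with
  | leaf k =>
    rintro hk ⟨s, q, o⟩ v y hr
    subst hk
    obtain ⟨x1, h1, h2⟩ := inl_cons T m st fi q0 hr
    cases h1 with
    | center q hf =>
      obtain ⟨rfl, rfl⟩ := inl_nil T m st fi q0 h2
      exact ⟨q, none, q, none, rfl, rfl, fun _ => ⟨[], [], [], rfl, rfl, Sb_nil T m st fi hf, rfl⟩⟩
  | heavy t k w _ ih =>
    rintro hk ⟨s, q, o⟩ v y hr
    subst hk
    obtain ⟨x1, h1, h2⟩ := inl_cons T m st fi q0 hr
    cases h1 with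
    | openH q t q1 a hst =>
      obtain ⟨x2, v1, v2, rfl, h3, h4⟩ := run_split_in _ h2 w _ rfl
      obtain ⟨q1', o1, q2, o2, h5, rfl, h6⟩ := ih rfl _ _ _ h3
      simp only [Prod.mk.injEq, true_and] at h5
      obtain ⟨rfl, rfl⟩ := h5
      obtain ⟨x3, h7, h8⟩ := inl_cons T m st fi q0 h4
      cases h7 with
      | closeH q' t q2 a' hst' =>
        obtain ⟨rfl, rfl⟩ := inl_nil T m st fi q0 h8
        refine ⟨q, none, q', none, rfl, rfl, ?_⟩
        rintro rfl
        obtain ⟨rfl, rfl⟩ := hfun _ _ _ _ _ _ hst hst'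
        obtain ⟨v1', v2', v3', rfl, h9, h10, h11⟩ := h6 rfl
        exact ⟨[], _, [], by simp, rfl, Sb_step T m st fi hst h9 h10 h11, rfl⟩
  | left k u w hu _ _ ih =>
    rintro hk ⟨s, q, o⟩ v y hr
    obtain rfl : k = m := by omega
    obtain ⟨x1, h1, h2⟩ := inl_cons T k st fi q0 hr
    have hnm := Ne_not_mem hu
    obtain ⟨x2, v1, v2, rfl, h3, h4⟩ := run_split_in _ h2 u _ rfl
    cases h1 with
    | inL q z p hp =>
      obtain ⟨p', rfl, h5⟩ := sim_inv T k st fi q0 h3 _ _ _ _ rfl hnm
      obtain ⟨p'', v3, v4, h6, h7, rfl, h8⟩ := out_inv T k st fi q0 h4 _ _ _ _ _ rfl rfl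
      obtain ⟨q1, o1, q2, o2, h9, rfl, h10⟩ := ih hk _ _ _ h8
      simp only [Bool.false_eq_true, if_false, Prod.mk.injEq, true_and] at h9
      obtain ⟨rfl, rfl⟩ := h9
      refine ⟨q, some z, q2, o2, rfl, rfl, ?_⟩
      intro hq
      obtain ⟨v1', v2', v3', rfl, h11, h12, h13⟩ := h10 hq
      have h11' : v1' = [] := h11
      subst h11'
      refine ⟨v1 ++ v3, v2', v3', by simp, ?_, h12, h13⟩
      exact ⟨u, hu, p, p'', hp, h7, by simpa using h5.trans h6⟩
    | inR q z p hp =>
      obtain ⟨p', rfl, h5⟩ := sim_inv T k st fi q0 h3 _ _ _ _ rfl hnm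
      obtain ⟨p'', v3, v4, h6, h7, rfl, h8⟩ := out_inv T k st fi q0 h4 _ _ _ _ _ rfl rfl
      obtain ⟨q1, o1, q2, o2, h9, rfl, h10⟩ := ih hk _ _ _ h8
      simp at h9
  | right k w u _ hu ih _ =>
    rintro hk x v y hr
    obtain rfl : k = m := by omega
    have hnm := Ne_not_mem hu
    obtain ⟨x2, v1, v2, rfl, h3, h4⟩ := run_split_in _ hr w _ rfl
    obtain ⟨q1, o1, q2, o2, rfl, rfl, h5⟩ := ih hk _ _ _ h3
    obtain ⟨x3, h6, h7⟩ := inl_cons T k st fi q0 h4
    obtain ⟨x4, v3, v4, rfl, h8, h9⟩ := run_split_in _ h7 u _ rfl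
    cases h6 with
    | inR q z p hp =>
      obtain ⟨p', rfl, h10⟩ := sim_inv T k st fi q0 h8 _ _ _ _ rfl hnm
      obtain ⟨p'', v5, v6, h11, h12, rfl, h13⟩ := out_inv T k st fi q0 h9 _ _ _ _ _ rfl rfl
      obtain ⟨rfl, rfl⟩ := inl_nil T k st fi q0 h13
      refine ⟨q1, o1, q2, some z, rfl, rfl, ?_⟩
      intro hq
      obtain ⟨v1', v2', v3', rfl, h14, h15, h16⟩ := h5 hq
      have h16' : v3' = [] := h16
      subst h16'
      refine ⟨v1', v2', v3 ++ v5, by simp, h14, h15, ?_⟩
      exact ⟨u, hu, p, p'', hp, h12, by simpa using h10.trans h11⟩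

theorem prod_split {w1 w2 : List Z} {v : List Y} (h : v ∈ ((w1 ++ w2).map (So T m)).prod) :
    ∃ v1 v2, v = v1 ++ v2 ∧ v1 ∈ (w1.map (So T m)).prod ∧ v2 ∈ (w2.map (So T m)).prod := by
  rw [List.map_append, List.prod_append, Language.mem_mul] at h
  obtain ⟨v1, h1, v2, h2, rfl⟩ := h
  exact ⟨v1, v2, rfl, h1, h2⟩

theorem complete {q : Q} {w : List Z} (h : LD st fi q w) :
    ∀ v, v ∈ (w.map (So T m)).prod → ∃ U, Ne (m + 1) U ∧
      (TT T m st fi q0).Run (.inl (false, q, none)) U v (.inl (true, q, none)) := by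
  induction h with
  | fin q hq =>
    intro v hv
    have hv' : v = [] := by simpa using hv
    subst hv'
    refine ⟨[(.e, m + 1)], .leaf _, ?_⟩
    have := Tr.Run.cons (T := TT T m st fi q0) (TS.center q hq) (Tr.Run.nil _)
    exact this
  | step q t q' a w hst _ ih =>
    intro v hv
    obtain ⟨v1, v', rfl, h1, hv⟩ := prod_split T m hv
    obtain ⟨v2, v3, rfl, h2, h3⟩ := prod_split T m hv
    obtain ⟨U, hU, hr⟩ := ih v2 h2
    -- the light child on the left
    have hL : ∃ U', Ne (m + 1) U' ∧ (TT T m st fi q0).Run (.inl (false, q', a.lz)) U' (v1 ++ v2)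
        (.inl (true, q', none)) := by
      have h1' := (Op_prod T m).2 h1
      cases hz : a.lz with
      | none =>
        rw [hz] at h1'
        have h1'' : v1 = [] := h1'
        subst h1''
        exact ⟨U, hU, hr⟩
      | some z =>
        rw [hz] at h1'
        obtain ⟨u, hu, p, p', hp, hp', hrun⟩ := h1'
        refine ⟨_, .left m u U hu hU, ?_⟩
        have e1 := Tr.Run.cons (T := TT T m st fi q0) (TS.outL q' z p' hp') hr
        have e2 := (sim_run T m st fi q0 hrun false q' (Ne_not_mem hu)).trans e1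
        have e3 := Tr.Run.cons (T := TT T m st fi q0) (TS.inL q' z p hp) e2
        exact e3
    obtain ⟨U', hU', hr'⟩ := hL
    have hR : ∃ U'', Ne (m + 1) U'' ∧ (TT T m st fi q0).Run (.inl (false, q', a.lz)) U''
        ((v1 ++ v2) ++ v3) (.inl (true, q', a.rz)) := by
      have h3' := (Op_prod T m).2 h3
      cases hz : a.rz with
      | none =>
        rw [hz] at h3'
        have h3'' : v3 = [] := h3'
        subst h3''
        exact ⟨U', hU', by simpa using hr'⟩
      | some z =>
        rw [hz] at h3'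
        obtain ⟨u, hu, p, p', hp, hp', hrun⟩ := h3'
        refine ⟨_, .right m U' u hU' hu, ?_⟩
        have e1 := Tr.Run.cons (T := TT T m st fi q0) (TS.outR q' z p' hp') (Tr.Run.nil _)
        have e2 := (sim_run T m st fi q0 hrun true q' (Ne_not_mem hu)).trans e1
        have e3 := Tr.Run.cons (T := TT T m st fi q0) (TS.inR q' z p hp) e2
        have e4 := hr'.trans e3
        simpa using e4
    obtain ⟨U'', hU'', hr''⟩ := hR
    refine ⟨_, .heavy t (m + 1) U'' hU'', ?_⟩
    have e1 := Tr.Run.cons (T := TT T m st fi q0) (TS.closeH q t q' a hst) (Tr.Run.nil _)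
    have e2 := hr''.trans e1
    have e3 := Tr.Run.cons (T := TT T m st fi q0) (TS.openH q t q' a hst) e2
    simpa using e3

/-- The substituted language is an image of the nested words of the next level. -/
theorem TT_spec (hfun : ∀ q t q1 a1 q2 a2, st q t q1 a1 → st q t q2 a2 → q1 = q2 ∧ a1 = a2)
    (v : List Y) :
    (∃ w, LD st fi q0 w ∧ v ∈ (w.map (So T m)).prod) ↔
      ∃ U, Ne (m + 1) U ∧ (TT T m st fi q0).rel U v := by
  constructor
  · rintro ⟨w, h1, h2⟩
    obtain ⟨U, h3, h4⟩ := complete T m st fi q0 h1 v h2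
    exact ⟨U, h3, _, _, rfl, rfl, h4⟩
  · rintro ⟨U, hU, p, p', hp, hp', hr⟩
    have hp1 : p = .inl (false, q0, none) := hp
    have hp2 : p' = .inl (true, q0, none) := hp'
    subst hp1
    subst hp2
    obtain ⟨q, o, q', o', h1, h2, h3⟩ := sound T m st fi q0 hfun hU rfl _ _ _ hr
    simp only [Prod.mk.injEq, true_and] at h1
    obtain ⟨rfl, rfl⟩ := h1
    have h2' : (true, q0, none) = (true, q', o') := Sum.inl.inj h2
    simp only [Prod.mk.injEq, true_and] at h2'
    obtain ⟨rfl, rfl⟩ := h2'
    obtain ⟨v1, v2, v3, rfl, h4, h5, h6⟩ := h3 rfl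
    have h4' : v1 = [] := h4
    have h6' : v3 = [] := h6
    subst h4'
    subst h6'
    obtain ⟨w, h7, h8⟩ := h5
    exact ⟨w, h7, by simpa using h8⟩

end

end Pool.Agent.L0h78.Q
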